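import Pool.Agent.Zk5.Msq2
import Pool.Agent.Zk4.Ms

set_option autoImplicit false

/-!
Slot B (helper5): the mollified second moment of zeta on the line `Re s = 1/2 + a / log T`
(exact minimiser of the diagonal form, length `T^th`, `th < 1/2`).
-/

namespace Pool.Agent.Zk5

open Complex Filter Topology MeasureTheory

theorem ww_eq_ws (s : ℝ) (d : ℕ) : ww s d = Pool.Agent.Zk4.ws s d := rfl

theorem GG_eq (s : ℝ) (N : ℕ) : GG s N = ∑ d ∈ Finset.Icc 1 N, Pool.Agent.Zk4.ws s d := rfl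

theorem msq (a th eps : ℝ) (ha : 0 < a) (hth : 0 < th) (hth' : th < 1 / 2) (heps : 0 < eps) :
    ∃ T0 : ℝ, ∀ T : ℝ, T0 ≤ T →
      ∃ (N : ℕ) (b : ℕ → ℂ), 1 ≤ N ∧ (N : ℝ) ≤ T ∧ b 1 = 1 ∧ (∀ n, ‖b n‖ ≤ 1) ∧
    ∫ t in T..(2 * T), ‖riemannZeta ((1 / 2 + a / Real.log T : ℝ) + I * t) *
      ∑ n ∈ Finset.Icc 1 N, b n * (n : ℂ) ^ (-(((1 / 2 + a / Real.log T : ℝ) : ℂ) + I * t))‖ ^ 2 ≤
      T * (1 + (1 - Real.exp (-(2 * a))) / (Real.exp (2 * th * a) - 1) + eps) := by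
  have h := msq_of (fun s N hs hN => by rw [GG_eq]; exact Pool.Agent.Zk4.msg s hs N hN)
    (by
      obtain ⟨C, hC, h⟩ := Pool.Agent.Zk4.msv
      exact ⟨C, hC, fun s N h1 h2 h3 => by rw [GG_eq]; exact h s N h1 h2 h3⟩)
    a th eps ha hth hth' heps
  rw [show -2 * a = -(2 * a) by ring] at h
  exact h

end Pool.Agent.Zk5
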