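import Pool.Agent.Y891.GP.AFE

set_option autoImplicit false

/-!
Slot B (helper5): smooth approximate functional equation for `|ζ(1/2 + δ + iu)|²`, uniform in the
real shift `0 ≤ δ ≤ 1/8`.
-/

namespace Pool.Agent.Zk5

open Complex Filter Topology MeasureTheory Set
open Pool.Agent.Y969.GP Pool.Agent.Y891.GP

/-- `|ζ(1/2 + δ + iu)|²` -/
noncomputable def zd (δ u : ℝ) : ℝ := ‖riemannZeta (1 / 2 + δ + I * u)‖ ^ 2

/-- the entire function after the shift -/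
noncomputable def Yd (u δ : ℝ) (w : ℂ) : ℂ := YY u (w + δ) * cexp (-(w + δ) ^ 2 + w ^ 2)

theorem Yd_diff (u δ : ℝ) : Differentiable ℂ (Yd u δ) := by
  unfold Yd
  exact ((YY_diff u).comp (by fun_prop)).mul (by fun_prop)

theorem Yd_bd (u δ : ℝ) (hδ : 0 ≤ δ) (hδ' : δ ≤ 1 / 8) : ∃ M : ℝ, ∀ s : ℂ,
    -(3 / 4 + δ) ≤ s.re → s.re ≤ 3 / 4 - δ →
    ‖Yd u δ s‖ ≤ M * Real.exp (-(1 / 2) * s.im ^ 2) := by
  obtain ⟨M, hM⟩ := YY_bd u
  refine ⟨M * Real.exp 1, fun s h1 h2 => ?_⟩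
  have h3 := hM (s + δ) (by simp; linarith) (by simp; linarith)
  have him : (s + (δ : ℂ)).im = s.im := by simp
  rw [him] at h3
  have hM0 : 0 ≤ M * Real.exp (-(1 / 2) * s.im ^ 2) := (norm_nonneg _).trans h3
  have h4 : ‖cexp (-(s + δ) ^ 2 + s ^ 2)‖ ≤ Real.exp 1 := by
    rw [norm_exp]
    apply Real.exp_le_exp.2
    have e : (-(s + (δ : ℂ)) ^ 2 + s ^ 2).re = -2 * δ * s.re - δ ^ 2 := by
      have : (-(s + (δ : ℂ)) ^ 2 + s ^ 2) = -(2 * (δ : ℂ)) * s - ((δ ^ 2 : ℝ) : ℂ) := by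
        push_cast; ring
      rw [this, sub_re, ofReal_re, neg_mul, neg_re, mul_re]
      simp
    rw [e]
    nlinarith
  unfold Yd
  rw [norm_mul]
  calc ‖YY u (s + δ)‖ * ‖cexp (-(s + δ) ^ 2 + s ^ 2)‖
      ≤ (M * Real.exp (-(1 / 2) * s.im ^ 2)) * Real.exp 1 := by gcongr
    _ = _ := by ring

/-- the main integrand on `Re = c`, with kernel centred at `σ` -/
noncomputable def Fs (u c σ t : ℝ) : ℂ :=
  riemannZeta (1 / 2 + I * u + (c + I * t)) * riemannZeta (1 / 2 - I * u + (c + I * t)) *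
    cexp ((σ + I * t) ^ 2) * cexp ((σ + I * t) * (Real.log (u / (2 * Real.pi)) : ℝ)) /
      (σ + I * t)

theorem Fs_le (u c σ t : ℝ) (hu : 1 ≤ u) (hc : 1 / 2 < c) (hσ : 0 < σ) :
    ‖Fs u c σ t‖ ≤ ZZ (1 / 2 + c) ^ 2 * Real.exp (σ ^ 2 - t ^ 2) * u ^ σ / σ := by
  have h1 : ‖riemannZeta (1 / 2 + I * u + (c + I * t))‖ ≤ ZZ (1 / 2 + c) := by
    have h := zeta_le (1 / 2 + I * u + (c + I * t)) (by simp; linarith)
    simpa using h
  have h2 : ‖riemannZeta (1 / 2 - I * u + (c + I * t))‖ ≤ ZZ (1 / 2 + c) := by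
    have h := zeta_le (1 / 2 - I * u + (c + I * t)) (by simp; linarith)
    simpa using h
  have h3 := norm_pw u σ t hu hσ
  have h4 := line_norm σ hσ t
  have h5 := ZZ_nonneg (1 / 2 + c)
  unfold Fs
  rw [norm_div, norm_mul, norm_mul, norm_mul, norm_gs, pow_two (ZZ (1 / 2 + c))]
  gcongr

theorem Fs_cont (u c σ : ℝ) (hc : 1 / 2 < c) (hσ : 0 < σ) : Continuous (Fs u c σ) := by
  have h1 : Continuous (fun t : ℝ => riemannZeta (1 / 2 + I * u + (c + I * t))) := by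
    rw [continuous_iff_continuousAt]
    intro t
    exact ContinuousAt.comp (f := fun t : ℝ => (1 / 2 + I * u + (c + I * t) : ℂ))
      (differentiableAt_riemannZeta (ne1 u c t hc)).continuousAt
      (Continuous.continuousAt (by fun_prop))
  have h2 : Continuous (fun t : ℝ => riemannZeta (1 / 2 - I * u + (c + I * t))) := by
    rw [continuous_iff_continuousAt]
    intro t
    exact ContinuousAt.comp (f := fun t : ℝ => (1 / 2 - I * u + (c + I * t) : ℂ))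
      (differentiableAt_riemannZeta (ne2 u c t hc)).continuousAt
      (Continuous.continuousAt (by fun_prop))
  unfold Fs
  exact (((h1.mul h2).mul (by fun_prop)).mul (by fun_prop)).div (by fun_prop)
    (fun t => line_ne σ hσ t)

theorem Fs_int (u c σ : ℝ) (hu : 1 ≤ u) (hc : 1 / 2 < c) (hσ : 0 < σ) :
    Integrable (Fs u c σ) := by
  refine Integrable.mono' ((integrable_exp_neg_mul_sq (show (0 : ℝ) < 1 / 2 by norm_num)).const_mul
    (ZZ (1 / 2 + c) ^ 2 * Real.exp (σ ^ 2) * u ^ σ / σ)) (Fs_cont u c σ hc hσ).aestronglyMeasurable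
    (Eventually.of_forall fun t => ?_)
  refine (Fs_le u c σ t hu hc hσ).trans ?_
  have h1 := exp_le_half σ t
  have h2 : 0 ≤ u ^ σ := by positivity
  calc ZZ (1 / 2 + c) ^ 2 * Real.exp (σ ^ 2 - t ^ 2) * u ^ σ / σ
      ≤ ZZ (1 / 2 + c) ^ 2 * (Real.exp (σ ^ 2) * Real.exp (-(1 / 2) * t ^ 2)) * u ^ σ / σ := by
        gcongr
    _ = _ := by ring

theorem Yd_line1 (u δ t : ℝ) (hδ' : δ ≤ 1 / 8) :
    Yd u δ (((3 / 4 - δ : ℝ) : ℂ) + t * I) / (((3 / 4 - δ : ℝ) : ℂ) + t * I) *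
      cexp (-(((3 / 4 - δ : ℝ) : ℂ) + t * I) * ((-Real.log (u / (2 * Real.pi)) : ℝ) : ℂ)) =
    Fs u (3 / 4) (3 / 4 - δ) t * qq u ((3 / 4 : ℝ) + I * t) := by
  unfold Yd
  have e1 : ((3 / 4 - δ : ℝ) : ℂ) + t * I + δ = ((3 / 4 : ℝ) : ℂ) + I * t := by
    push_cast; ring
  rw [e1, YY_eq u _ (ne1 u (3 / 4) t (by norm_num)) (ne2 u (3 / 4) t (by norm_num))]
  unfold Fs
  have e2 : cexp ((((3 / 4 : ℝ) : ℂ) + I * t) ^ 2) *
      cexp (-(((3 / 4 : ℝ) : ℂ) + I * t) ^ 2 + (((3 / 4 - δ : ℝ) : ℂ) + t * I) ^ 2) =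
      cexp ((((3 / 4 - δ : ℝ) : ℂ) + I * t) ^ 2) := by
    rw [← Complex.exp_add]
    congr 1
    ring
  rw [show (-(((3 / 4 - δ : ℝ) : ℂ) + t * I) * ((-Real.log (u / (2 * Real.pi)) : ℝ) : ℂ)) =
    (((3 / 4 - δ : ℝ) : ℂ) + I * t) * (Real.log (u / (2 * Real.pi)) : ℝ) by push_cast; ring,
    ← e2, mul_comm (t : ℂ) I]
  ring

theorem Yd_line2 (u δ t : ℝ) (hδ : 0 ≤ δ) :
    Yd u δ (((-(3 / 4 + δ) : ℝ) : ℂ) + (-t : ℝ) * I) / (((-(3 / 4 + δ) : ℝ) : ℂ) + (-t : ℝ) * I) *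
      cexp (-(((-(3 / 4 + δ) : ℝ) : ℂ) + (-t : ℝ) * I) *
        ((-Real.log (u / (2 * Real.pi)) : ℝ) : ℂ)) =
    -(cexp (-(2 * δ * Real.log (u / (2 * Real.pi)) : ℝ)) * (Fs u (3 / 4) (3 / 4 + δ) t *
      qq u ((3 / 4 : ℝ) + I * t) * RR u (3 / 4) t)) := by
  unfold Yd
  have e1 : ((-(3 / 4 + δ) : ℝ) : ℂ) + (-t : ℝ) * I + δ = -(((3 / 4 : ℝ) : ℂ) + I * t) := by
    push_cast; ring
  have e0 : ((-(3 / 4 + δ) : ℝ) : ℂ) + (-t : ℝ) * I = -(((3 / 4 + δ : ℝ) : ℂ) + I * t) := by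
    push_cast; ring
  rw [e1, e0, YY_neg u _ (by simp; norm_num),
    YY_eq u _ (ne1 u (3 / 4) t (by norm_num)) (ne2 u (3 / 4) t (by norm_num))]
  unfold Fs RR
  obtain ⟨z, hz⟩ : ∃ z : ℂ, z = ((3 / 4 : ℝ) : ℂ) + I * t := ⟨_, rfl⟩
  obtain ⟨v, hv⟩ : ∃ v : ℂ, v = ((3 / 4 + δ : ℝ) : ℂ) + I * t := ⟨_, rfl⟩
  obtain ⟨l, hl⟩ : ∃ l : ℝ, l = Real.log (u / (2 * Real.pi)) := ⟨_, rfl⟩
  have hzv : v = z + δ := by rw [hz, hv]; push_cast; ring
  have hv0 : v ≠ 0 := by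
    rw [hv]
    exact line_ne (3 / 4 + δ) (by linarith) t
  rw [← hz, ← hv, ← hl]
  have e2 : cexp (z ^ 2) * cexp (-(-z) ^ 2 + (-v) ^ 2) = cexp (v ^ 2) := by
    rw [← Complex.exp_add]
    congr 1
    ring
  have e3 : cexp (-(-v) * ((-l : ℝ) : ℂ)) = cexp (-((2 * δ * l : ℝ) : ℂ)) * cexp (v * l) *
      cexp (-(2 * z * l)) := by
    rw [← Complex.exp_add, ← Complex.exp_add]
    congr 1
    rw [hzv]
    push_cast
    ring
  rw [e3, ← e2]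
  field_simp

theorem zd_eq (δ u : ℝ) : (zd δ u : ℂ) =
    riemannZeta (1 / 2 + I * u + δ) * riemannZeta (1 / 2 - I * u + δ) := by
  have h4 : (1 / 2 - I * u + δ : ℂ) = (starRingEnd ℂ) (1 / 2 + I * u + δ) := by
    apply Complex.ext <;> simp
  rw [h4, riemannZeta_conj, mul_conj, normSq_eq_norm_sq]
  unfold zd
  rw [show (1 / 2 + I * u + δ : ℂ) = 1 / 2 + δ + I * u by ring]

theorem Yd_zero (u δ : ℝ) (hu : u ≠ 0) : Yd u δ 0 = (zd δ u : ℂ) * qq u δ := by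
  unfold Yd
  have h1 : 1 / 2 + I * u + (δ : ℂ) ≠ 1 := by
    intro h
    have := congrArg Complex.im h
    simp at this
    exact hu this
  have h2 : 1 / 2 - I * u + (δ : ℂ) ≠ 1 := by
    intro h
    have := congrArg Complex.im h
    simp at this
    exact hu this
  rw [zero_add, YY_eq u δ h1 h2, zd_eq]
  have e2 : cexp ((δ : ℂ) ^ 2) * cexp (-(δ : ℂ) ^ 2 + 0 ^ 2) = 1 := by
    rw [← Complex.exp_add]
    ring_nf
    simp
  linear_combination (riemannZeta (1 / 2 + I * u + δ) * riemannZeta (1 / 2 - I * u + δ) *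
    qq u δ) * e2

end Pool.Agent.Zk5
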