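import Pool.Agent.Zk5.Afe

set_option autoImplicit false

namespace Pool.Agent.Zk5

open Complex Filter Topology MeasureTheory Set
open Pool.Agent.Y969.GP Pool.Agent.Y891.GP

/-- `τ^(-2δ)` -/
noncomputable def tq (δ u : ℝ) : ℝ := Real.exp (-(2 * δ * Real.log (u / (2 * Real.pi))))

/-- contour shift -/
theorem shiftYd (u δ : ℝ) (hu : u ≠ 0) (hδ : 0 ≤ δ) (hδ' : δ ≤ 1 / 8) :
    2 * Real.pi * ((zd δ u : ℂ) * qq u δ) =
      (∫ t : ℝ, Fs u (3 / 4) (3 / 4 - δ) t * qq u ((3 / 4 : ℝ) + I * t)) +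
      (tq δ u : ℂ) * ∫ t : ℝ, Fs u (3 / 4) (3 / 4 + δ) t * qq u ((3 / 4 : ℝ) + I * t) *
        RR u (3 / 4) t := by
  obtain ⟨M, hM⟩ := Yd_bd u δ hδ hδ'
  have h := (Pool.Agent.TH41.LP.SHIFTf.shift (Yd u δ) (3 / 4 + δ) (3 / 4 - δ) M (1 / 2)
    (by linarith) (by linarith) (by norm_num) (Yd_diff u δ) hM
    (-Real.log (u / (2 * Real.pi)))).2 (-(3 / 4 + δ)) le_rfl (by linarith)
  rw [Yd_zero u δ hu] at h
  rw [← h]
  unfold Pool.Agent.TH41.LP.WW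
  rw [← integral_neg_eq_self (fun t : ℝ => Yd u δ (((-(3 / 4 + δ) : ℝ) : ℂ) + t * I) /
    (((-(3 / 4 + δ) : ℝ) : ℂ) + t * I) * cexp (-(((-(3 / 4 + δ) : ℝ) : ℂ) + t * I) *
      ((-Real.log (u / (2 * Real.pi)) : ℝ) : ℂ))), sub_eq_add_neg,
    ← integral_neg, ← integral_const_mul]
  congr 1
  · refine integral_congr_ae (Eventually.of_forall fun t => ?_)
    exact Yd_line1 u δ t hδ'
  · refine integral_congr_ae (Eventually.of_forall fun t => ?_)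
    simp only
    rw [Yd_line2 u δ t hδ, neg_neg]
    unfold tq
    push_cast
    rfl

theorem tq_pos (δ u : ℝ) : 0 < tq δ u := Real.exp_pos _

theorem tq_le (δ u : ℝ) (hu : 1 ≤ u) (hδ : 0 ≤ δ) (hδ' : δ ≤ 1 / 8) :
    tq δ u ≤ 2 * u ^ (-(2 * δ)) := by
  unfold tq
  have hpi := Real.pi_pos
  have hu0 : 0 < u := by linarith
  rw [Real.log_div hu0.ne' (by positivity), Real.rpow_def_of_pos hu0]
  have h1 : Real.log (2 * Real.pi) ≤ 2 * Real.log 2 + 1 := by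
    have h2 : Real.log (2 * Real.pi) ≤ Real.log (2 * 2 * 2) := by
      apply Real.log_le_log (by positivity)
      have := Real.pi_lt_four
      linarith
    have h3 : Real.log (2 * 2 * 2) = 3 * Real.log 2 := by
      rw [Real.log_mul (by norm_num) (by norm_num), Real.log_mul (by norm_num) (by norm_num)]
      ring
    have := Real.log_two_lt_d9
    linarith
  have h4 : 2 * δ * Real.log (2 * Real.pi) ≤ Real.log 2 := by
    have h5 := Real.log_two_gt_d9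
    have h6 := Real.log_two_lt_d9
    have h7 : 0 ≤ Real.log (2 * Real.pi) := Real.log_nonneg (by linarith [Real.pi_gt_three])
    nlinarith
  calc Real.exp (-(2 * δ * (Real.log u - Real.log (2 * Real.pi))))
      ≤ Real.exp (Real.log 2 + Real.log u * (-(2 * δ))) := by
        apply Real.exp_le_exp.2
        nlinarith
    _ = 2 * Real.exp (Real.log u * (-(2 * δ))) := by
        rw [Real.exp_add, Real.exp_log (by norm_num)]

theorem int_Yd (u δ σ ρ : ℝ) (hδ : 0 ≤ δ) (hδ' : δ ≤ 1 / 8) (h1 : -(3 / 4 + δ) ≤ σ)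
    (h2 : σ ≤ 3 / 4 - δ) (h0 : σ ≠ 0) :
    Integrable (fun t : ℝ => Yd u δ ((σ : ℂ) + t * I) / ((σ : ℂ) + t * I) *
      cexp (-((σ : ℂ) + t * I) * (ρ : ℂ))) := by
  obtain ⟨M, hM⟩ := Yd_bd u δ hδ hδ'
  have hne : ∀ t : ℝ, ((σ : ℂ) + t * I) ≠ 0 := by
    intro t h
    have := congrArg Complex.re h
    simp at this
    exact h0 this
  have hcont : Continuous (fun t : ℝ => Yd u δ ((σ : ℂ) + t * I) / ((σ : ℂ) + t * I) *
      cexp (-((σ : ℂ) + t * I) * (ρ : ℂ))) := by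
    refine Continuous.mul (Continuous.div ?_ (by fun_prop) hne) (by fun_prop)
    exact (Yd_diff u δ).continuous.comp (by fun_prop)
  refine Integrable.mono' (((integrable_exp_neg_mul_sq (show (0 : ℝ) < 1 / 2 by norm_num)).const_mul
    M).mul_const (Real.exp (-(σ * ρ)) / |σ|)) hcont.aestronglyMeasurable
    (Eventually.of_forall fun t => ?_)
  have hre : ((σ : ℂ) + t * I).re = σ := by simp
  have him : ((σ : ℂ) + t * I).im = t := by simp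
  have k1 := hM ((σ : ℂ) + t * I) (by rw [hre]; exact h1) (by rw [hre]; exact h2)
  rw [him] at k1
  have k2 : ‖cexp (-((σ : ℂ) + t * I) * (ρ : ℂ))‖ = Real.exp (-(σ * ρ)) := by
    rw [norm_exp]
    congr 1
    simp
  have k3 : |σ| ≤ ‖(σ : ℂ) + t * I‖ := by
    have := abs_re_le_norm ((σ : ℂ) + t * I)
    rwa [hre] at this
  have k4 : 0 < |σ| := abs_pos.2 h0
  have k5 : 0 ≤ M * Real.exp (-(1 / 2) * t ^ 2) := (norm_nonneg _).trans k1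
  rw [norm_mul, norm_div, k2]
  calc ‖Yd u δ ((σ : ℂ) + t * I)‖ / ‖(σ : ℂ) + t * I‖ * Real.exp (-(σ * ρ))
      ≤ (M * Real.exp (-(1 / 2) * t ^ 2)) / |σ| * Real.exp (-(σ * ρ)) := by gcongr
    _ = M * Real.exp (-(1 / 2) * t ^ 2) * (Real.exp (-(σ * ρ)) / |σ|) := by ring

theorem int_1 (u δ : ℝ) (hδ : 0 ≤ δ) (hδ' : δ ≤ 1 / 8) :
    Integrable (fun t : ℝ => Fs u (3 / 4) (3 / 4 - δ) t * qq u ((3 / 4 : ℝ) + I * t)) := by
  refine (int_Yd u δ (3 / 4 - δ) (-Real.log (u / (2 * Real.pi))) hδ hδ' (by linarith)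
    le_rfl (by linarith)).congr (Eventually.of_forall fun t => ?_)
  exact Yd_line1 u δ t hδ'

theorem int_2 (u δ : ℝ) (hδ : 0 ≤ δ) (hδ' : δ ≤ 1 / 8) :
    Integrable (fun t : ℝ => Fs u (3 / 4) (3 / 4 + δ) t * qq u ((3 / 4 : ℝ) + I * t) *
        RR u (3 / 4) t) := by
  have h1 := (int_Yd u δ (-(3 / 4 + δ)) (-Real.log (u / (2 * Real.pi))) hδ hδ' le_rfl
    (by linarith) (by linarith)).comp_neg
  have h2 : Integrable (fun t : ℝ => -(cexp (-(2 * δ * Real.log (u / (2 * Real.pi)) : ℝ)) *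
      (Fs u (3 / 4) (3 / 4 + δ) t * qq u ((3 / 4 : ℝ) + I * t) * RR u (3 / 4) t))) := by
    refine h1.congr (Eventually.of_forall fun t => ?_)
    exact Yd_line2 u δ t hδ
  have h3 := h2.const_mul (-(cexp ((2 * δ * Real.log (u / (2 * Real.pi)) : ℝ))))
  refine h3.congr (Eventually.of_forall fun t => ?_)
  simp only
  have e : cexp ((2 * δ * Real.log (u / (2 * Real.pi)) : ℝ)) *
      cexp (-(2 * δ * Real.log (u / (2 * Real.pi)) : ℝ)) = 1 := by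
    rw [← Complex.exp_add]
    simp
  linear_combination (Fs u (3 / 4) (3 / 4 + δ) t * qq u ((3 / 4 : ℝ) + I * t) *
    RR u (3 / 4) t) * e

theorem Fs_le' (u σ t : ℝ) (hu : 1 ≤ u) (hσ : 5 / 8 ≤ σ) (hσ' : σ ≤ 1) :
    ‖Fs u (3 / 4) σ t‖ ≤ ZZ (5 / 4) ^ 2 * 6 * u ^ σ *
      (Real.exp (-(1 / 2) * t ^ 2) * Real.exp (-(1 / 2) * t ^ 2)) := by
  have h := Fs_le u (3 / 4) σ t hu (by norm_num) (by linarith)
  rw [show (1 / 2 + 3 / 4 : ℝ) = 5 / 4 by norm_num] at h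
  refine h.trans ?_
  have h1 : Real.exp (σ ^ 2 - t ^ 2) ≤ 3 *
      (Real.exp (-(1 / 2) * t ^ 2) * Real.exp (-(1 / 2) * t ^ 2)) := by
    have h2 : Real.exp (σ ^ 2 - t ^ 2) = Real.exp (σ ^ 2) *
      (Real.exp (-(1 / 2) * t ^ 2) * Real.exp (-(1 / 2) * t ^ 2)) := by
      rw [← Real.exp_add, ← Real.exp_add]
      congr 1
      ring
    rw [h2]
    have h3 : Real.exp (σ ^ 2) ≤ 3 := by
      calc Real.exp (σ ^ 2) ≤ Real.exp 1 := Real.exp_le_exp.2 (by nlinarith)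
        _ ≤ 3 := by linarith [Real.exp_one_lt_d9]
    gcongr
  have h4 : 0 ≤ u ^ σ := by positivity
  have hZ := ZZ_nonneg (5 / 4)
  obtain ⟨E, hE⟩ : ∃ E : ℝ, E = Real.exp (-(1 / 2) * t ^ 2) * Real.exp (-(1 / 2) * t ^ 2) :=
    ⟨_, rfl⟩
  have hE0 : 0 ≤ E := by rw [hE]; positivity
  rw [← hE] at h1 ⊢
  rw [div_le_iff₀ (by linarith)]
  calc ZZ (5 / 4) ^ 2 * Real.exp (σ ^ 2 - t ^ 2) * u ^ σ
      ≤ ZZ (5 / 4) ^ 2 * (3 * E) * u ^ σ := by gcongr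
    _ = ZZ (5 / 4) ^ 2 * 6 * u ^ σ * E * (1 / 2) := by ring
    _ ≤ ZZ (5 / 4) ^ 2 * 6 * u ^ σ * E * σ := by
        gcongr
        linarith

/-- main integrals plus error -/
theorem partB' (hCHI : S_CHI) : ∃ C : ℝ, 0 < C ∧ ∀ u δ : ℝ, 1 ≤ u → 0 ≤ δ → δ ≤ 1 / 8 →
      ‖2 * Real.pi * ((zd δ u : ℂ) * qq u δ) - ((∫ t : ℝ, Fs u (3 / 4) (3 / 4 - δ) t) +
        (tq δ u : ℂ) * ∫ t : ℝ, Fs u (3 / 4) (3 / 4 + δ) t)‖ ≤ C * u ^ (-(1 / 4) : ℝ) := by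
  obtain ⟨C, A, hC, hR⟩ := hCHI (3 / 4) (by norm_num) (by norm_num)
  obtain ⟨D, hD⟩ : ∃ D : ℝ, D = ZZ (5 / 4) ^ 2 * 6 * (9 + 8 * C) *
    ((A + 4).factorial * Real.exp (3 / 2)) := ⟨_, rfl⟩
  have hZ := ZZ_nonneg (5 / 4)
  have hD0 : 0 ≤ D := by rw [hD]; positivity
  obtain ⟨G, hG⟩ : ∃ G : ℝ, G = ∫ t : ℝ, Real.exp (-(1 / 2) * t ^ 2) := ⟨_, rfl⟩
  have hG0 : 0 ≤ G := by rw [hG]; exact integral_nonneg fun t => (Real.exp_pos _).le
  have hgi := integrable_exp_neg_mul_sq (show (0 : ℝ) < 1 / 2 by norm_num)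
  refine ⟨D * G + 1, by positivity, fun u δ hu hδ hδ' => ?_⟩
  have hu0 : 0 < u := by linarith
  have i1 := int_1 u δ hδ hδ'
  have i2 := int_2 u δ hδ hδ'
  have j1 := Fs_int u (3 / 4) (3 / 4 - δ) hu (by norm_num) (by linarith)
  have j2 := Fs_int u (3 / 4) (3 / 4 + δ) hu (by norm_num) (by linarith)
  have k1 : Integrable (fun t : ℝ => Fs u (3 / 4) (3 / 4 - δ) t * qq u ((3 / 4 : ℝ) + I * t) +
      (tq δ u : ℂ) * (Fs u (3 / 4) (3 / 4 + δ) t * qq u ((3 / 4 : ℝ) + I * t) *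
        RR u (3 / 4) t)) := i1.add (i2.const_mul _)
  have k2 : Integrable (fun t : ℝ => Fs u (3 / 4) (3 / 4 - δ) t + (tq δ u : ℂ) *
      Fs u (3 / 4) (3 / 4 + δ) t) := j1.add (j2.const_mul _)
  rw [shiftYd u δ hu0.ne' hδ hδ', ← integral_const_mul, ← integral_const_mul,
    ← integral_add i1 (i2.const_mul _), ← integral_add j1 (j2.const_mul _),
    ← integral_sub k1 k2]
  have hb : ∀ t : ℝ, ‖(Fs u (3 / 4) (3 / 4 - δ) t * qq u ((3 / 4 : ℝ) + I * t) + (tq δ u : ℂ) *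
      (Fs u (3 / 4) (3 / 4 + δ) t * qq u ((3 / 4 : ℝ) + I * t) * RR u (3 / 4) t)) -
      (Fs u (3 / 4) (3 / 4 - δ) t + (tq δ u : ℂ) * Fs u (3 / 4) (3 / 4 + δ) t)‖ ≤
      D * u ^ (-(1 / 4) : ℝ) * Real.exp (-(1 / 2) * t ^ 2) := by
    intro t
    obtain ⟨x, hx⟩ : ∃ x : ℝ, x = 1 + |t| := ⟨_, rfl⟩
    have hx1 : 1 ≤ x := by rw [hx]; linarith [abs_nonneg t]
    have hwx : ‖((3 / 4 : ℝ) : ℂ) + I * t‖ ≤ x := by
      have h3 := norm_le_abs_re_add_abs_im (((3 / 4 : ℝ) : ℂ) + I * t)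
      have h4 : (((3 / 4 : ℝ) : ℂ) + I * t).re = 3 / 4 := by simp
      have h5 : (((3 / 4 : ℝ) : ℂ) + I * t).im = t := by simp
      rw [h4, h5, abs_of_pos (by norm_num : (0 : ℝ) < 3 / 4)] at h3
      rw [hx]; linarith
    have hq := qq_sub u hu ((3 / 4 : ℝ) + I * t) x hx1 hwx
    have hr : ‖RR u (3 / 4) t - 1‖ ≤ C * x ^ A / u := by
      have := hR u t hu
      rw [← hx] at this
      exact this
    have hqn : ‖qq u ((3 / 4 : ℝ) + I * t)‖ ≤ 4 * x ^ 4 := by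
      have h3 : qq u ((3 / 4 : ℝ) + I * t) = (qq u ((3 / 4 : ℝ) + I * t) - 1) + 1 := by ring
      rw [h3]
      refine (norm_add_le _ _).trans ?_
      rw [norm_one]
      have h4 : 3 * x ^ 4 / u ≤ 3 * x ^ 4 := div_le_self (by positivity) hu
      have h5 : 1 ≤ x ^ 4 := one_le_pow₀ hx1
      linarith
    obtain ⟨E, hE⟩ : ∃ E : ℝ, E = Real.exp (-(1 / 2) * t ^ 2) := ⟨_, rfl⟩
    have hE0 : 0 ≤ E := by rw [hE]; positivity
    have hF1 := Fs_le' u (3 / 4 - δ) t hu (by linarith) (by linarith)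
    have hF2 := Fs_le' u (3 / 4 + δ) t hu (by linarith) (by linarith)
    rw [← hE] at hF1 hF2 ⊢
    have htq := tq_le δ u hu hδ hδ'
    have htq0 := (tq_pos δ u).le
    have p1 : u ^ (3 / 4 - δ) ≤ u ^ (3 / 4 : ℝ) :=
      Real.rpow_le_rpow_of_exponent_le hu (by linarith)
    have p2 : tq δ u * u ^ (3 / 4 + δ) ≤ 2 * u ^ (3 / 4 : ℝ) := by
      calc tq δ u * u ^ (3 / 4 + δ) ≤ (2 * u ^ (-(2 * δ))) * u ^ (3 / 4 + δ) := by gcongr
        _ = 2 * (u ^ (-(2 * δ)) * u ^ (3 / 4 + δ)) := by ring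
        _ = 2 * u ^ (-(2 * δ) + (3 / 4 + δ)) := by rw [← Real.rpow_add hu0]
        _ ≤ 2 * u ^ (3 / 4 : ℝ) := by
            gcongr
            linarith
    have hpe := poly_exp (A + 4) t
    rw [← hx, ← hE] at hpe
    have hx4 : x ^ 4 ≤ x ^ (A + 4) := pow_le_pow_right₀ hx1 (by omega)
    have hpw : u ^ (3 / 4 : ℝ) / u = u ^ (-(1 / 4) : ℝ) := by
      rw [show (-(1 / 4) : ℝ) = 3 / 4 - 1 by norm_num, Real.rpow_sub hu0, Real.rpow_one]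
    have e3 : (Fs u (3 / 4) (3 / 4 - δ) t * qq u ((3 / 4 : ℝ) + I * t) + (tq δ u : ℂ) *
      (Fs u (3 / 4) (3 / 4 + δ) t * qq u ((3 / 4 : ℝ) + I * t) * RR u (3 / 4) t)) -
      (Fs u (3 / 4) (3 / 4 - δ) t + (tq δ u : ℂ) * Fs u (3 / 4) (3 / 4 + δ) t) =
      Fs u (3 / 4) (3 / 4 - δ) t * (qq u ((3 / 4 : ℝ) + I * t) - 1) +
      (tq δ u : ℂ) * Fs u (3 / 4) (3 / 4 + δ) t * ((qq u ((3 / 4 : ℝ) + I * t) - 1) +
        qq u ((3 / 4 : ℝ) + I * t) * (RR u (3 / 4) t - 1)) := by ring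
    rw [e3]
    have a1 : ‖Fs u (3 / 4) (3 / 4 - δ) t * (qq u ((3 / 4 : ℝ) + I * t) - 1)‖ ≤
        (ZZ (5 / 4) ^ 2 * 6 * u ^ (3 / 4 : ℝ) * (E * E)) * (3 * x ^ (A + 4) / u) := by
      rw [norm_mul]
      gcongr
      · exact hF1.trans (by gcongr)
      · exact hq.trans (by gcongr)
    have a2 : ‖(tq δ u : ℂ) * Fs u (3 / 4) (3 / 4 + δ) t * ((qq u ((3 / 4 : ℝ) + I * t) - 1) +
        qq u ((3 / 4 : ℝ) + I * t) * (RR u (3 / 4) t - 1))‖ ≤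
        (2 * (ZZ (5 / 4) ^ 2 * 6 * u ^ (3 / 4 : ℝ) * (E * E))) *
          ((3 + 4 * C) * x ^ (A + 4) / u) := by
      rw [norm_mul, norm_mul, norm_real, Real.norm_eq_abs, abs_of_nonneg htq0]
      have b1 : tq δ u * ‖Fs u (3 / 4) (3 / 4 + δ) t‖ ≤
          2 * (ZZ (5 / 4) ^ 2 * 6 * u ^ (3 / 4 : ℝ) * (E * E)) := by
        calc tq δ u * ‖Fs u (3 / 4) (3 / 4 + δ) t‖
            ≤ tq δ u * (ZZ (5 / 4) ^ 2 * 6 * u ^ (3 / 4 + δ) * (E * E)) := by gcongr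
          _ = (ZZ (5 / 4) ^ 2 * 6 * (E * E)) * (tq δ u * u ^ (3 / 4 + δ)) := by ring
          _ ≤ (ZZ (5 / 4) ^ 2 * 6 * (E * E)) * (2 * u ^ (3 / 4 : ℝ)) := by gcongr
          _ = _ := by ring
      have b2 : ‖(qq u ((3 / 4 : ℝ) + I * t) - 1) +
        qq u ((3 / 4 : ℝ) + I * t) * (RR u (3 / 4) t - 1)‖ ≤ (3 + 4 * C) * x ^ (A + 4) / u := by
        refine (norm_add_le _ _).trans ?_
        rw [norm_mul]
        calc ‖qq u ((3 / 4 : ℝ) + I * t) - 1‖ + ‖qq u ((3 / 4 : ℝ) + I * t)‖ *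
              ‖RR u (3 / 4) t - 1‖
            ≤ (3 * x ^ 4 / u) + (4 * x ^ 4) * (C * x ^ A / u) := by gcongr
          _ = (3 * x ^ 4 + 4 * C * x ^ (A + 4)) / u := by rw [pow_add]; ring
          _ ≤ (3 * x ^ (A + 4) + 4 * C * x ^ (A + 4)) / u := by gcongr
          _ = _ := by ring
      exact mul_le_mul b1 b2 (norm_nonneg _) (by positivity)
    have hnn : 0 ≤ ZZ (5 / 4) ^ 2 * 6 * (9 + 8 * C) * u ^ (-(1 / 4) : ℝ) * E := by positivity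
    calc _ ≤ (ZZ (5 / 4) ^ 2 * 6 * u ^ (3 / 4 : ℝ) * (E * E)) * (3 * x ^ (A + 4) / u) +
          (2 * (ZZ (5 / 4) ^ 2 * 6 * u ^ (3 / 4 : ℝ) * (E * E))) *
          ((3 + 4 * C) * x ^ (A + 4) / u) := (norm_add_le _ _).trans (add_le_add a1 a2)
      _ = (ZZ (5 / 4) ^ 2 * 6 * (9 + 8 * C) * (u ^ (3 / 4 : ℝ) / u) * E) *
          (x ^ (A + 4) * E) := by ring
      _ ≤ (ZZ (5 / 4) ^ 2 * 6 * (9 + 8 * C) * u ^ (-(1 / 4) : ℝ) * E) *
          ((A + 4).factorial * Real.exp (3 / 2)) := by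
          rw [hpw]
          exact mul_le_mul_of_nonneg_left hpe hnn
      _ = D * u ^ (-(1 / 4) : ℝ) * E := by rw [hD]; ring
  have h8 := norm_integral_le_of_norm_le (hgi.const_mul (D * u ^ (-(1 / 4) : ℝ)))
    (Eventually.of_forall hb)
  refine h8.trans ?_
  rw [integral_const_mul, ← hG]
  have hup : 0 ≤ u ^ (-(1 / 4) : ℝ) := by positivity
  nlinarith

end Pool.Agent.Zk5
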