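import Pool.Agent.Zk5.Afe2

set_option autoImplicit false

namespace Pool.Agent.Zk5

open Complex Filter Topology MeasureTheory Set
open Pool.Agent.Y969.GP Pool.Agent.Y891.GP

/-- term of the double series -/
noncomputable def Gt (u c σ : ℝ) (p : ℕ × ℕ) (t : ℝ) : ℂ :=
  (1 / (p.1 : ℂ) ^ (1 / 2 + I * u + (c + I * t))) * (1 / (p.2 : ℂ) ^ (1 / 2 - I * u + (c + I * t))) *
    (cexp ((σ + I * t) ^ 2) * cexp ((σ + I * t) * (Real.log (u / (2 * Real.pi)) : ℝ)) /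
      (σ + I * t))

theorem Gt_tsum (u c σ t : ℝ) (hc : 1 / 2 < c) : ∑' p : ℕ × ℕ, Gt u c σ p t = Fs u c σ t := by
  have h1 : 1 < (1 / 2 + I * u + (c + I * t) : ℂ).re := by rw [re1]; linarith
  have h2 : 1 < (1 / 2 - I * u + (c + I * t) : ℂ).re := by rw [re2]; linarith
  have s1 := (Complex.summable_one_div_nat_cpow.2 h1).norm
  have s2 := (Complex.summable_one_div_nat_cpow.2 h2).norm
  unfold Gt Fs
  rw [tsum_mul_right, ← tsum_mul_tsum_of_summable_norm s1 s2, ← zeta_eq_tsum_one_div_nat_cpow h1,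
    ← zeta_eq_tsum_one_div_nat_cpow h2]
  ring

theorem Gt_zero (u c σ : ℝ) (hc : 0 < c) (p : ℕ × ℕ) (hp : p.1 = 0 ∨ p.2 = 0) (t : ℝ) :
    Gt u c σ p t = 0 := by
  have h1 : (1 / 2 + I * u + (c + I * t) : ℂ) ≠ 0 := by
    intro h
    have := congrArg Complex.re h
    rw [re1, zero_re] at this
    linarith
  have h2 : (1 / 2 - I * u + (c + I * t) : ℂ) ≠ 0 := by
    intro h
    have := congrArg Complex.re h
    rw [re2, zero_re] at this
    linarith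
  unfold Gt
  rcases hp with h | h
  · rw [h, Nat.cast_zero, Complex.zero_cpow h1]
    simp
  · rw [h, Nat.cast_zero, Complex.zero_cpow h2]
    simp

theorem Gt_norm (u c σ t : ℝ) (hu : 1 ≤ u) (hc : 0 < c) (hσ : 0 < σ) (p : ℕ × ℕ) :
    ‖Gt u c σ p t‖ ≤ (1 / (p.1 : ℝ) ^ (1 / 2 + c)) * (1 / (p.2 : ℝ) ^ (1 / 2 + c)) *
      (Real.exp (σ ^ 2) * u ^ σ / σ * Real.exp (-(1 / 2) * t ^ 2)) := by
  unfold Gt
  rw [norm_mul, norm_mul, norm_term _ _ (by rw [re1]; linarith),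
    norm_term _ _ (by rw [re2]; linarith), re1, re2, norm_div, norm_mul, norm_gs]
  have h3 := norm_pw u σ t hu hσ
  have h4 := line_norm σ hσ t
  have h5 := exp_le_half σ t
  have h6 : 0 ≤ u ^ σ := by positivity
  apply mul_le_mul_of_nonneg_left _ (by positivity)
  calc Real.exp (σ ^ 2 - t ^ 2) *
      ‖cexp ((σ + I * t) * (Real.log (u / (2 * Real.pi)) : ℝ))‖ / ‖(σ : ℂ) + I * t‖
      ≤ (Real.exp (σ ^ 2) * Real.exp (-(1 / 2) * t ^ 2)) * u ^ σ / σ := by gcongr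
    _ = _ := by ring

/-- factorisation of the terms -/
theorem Gt_eq (u c σ t : ℝ) (hu : 0 < u) (p : ℕ × ℕ) (h1 : p.1 ≠ 0) (h2 : p.2 ≠ 0) :
    Gt u c σ p t = (((ht p ^ (-(1 / 2) - (c - σ)) : ℝ) : ℂ) * cexp (I * ((u * lam p : ℝ) : ℂ))) *
      (cexp (-((σ + I * t) * (Real.log (2 * Real.pi * ht p / u) : ℝ))) *
        cexp ((σ + I * t) ^ 2) / (σ + I * t)) := by
  have m0 : (0 : ℝ) < p.1 := by exact_mod_cast Nat.pos_of_ne_zero h1
  have k0 : (0 : ℝ) < p.2 := by exact_mod_cast Nat.pos_of_ne_zero h2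
  have hpi := Real.pi_pos
  have hh : 0 < ht p := by unfold ht; positivity
  have hlx : Real.log (2 * Real.pi * ht p / u) =
      Real.log p.1 + Real.log p.2 - Real.log (u / (2 * Real.pi)) := by
    have e : 2 * Real.pi * ht p / u = (p.1 * p.2) / (u / (2 * Real.pi)) := by
      unfold ht
      field_simp
    rw [e, Real.log_div (by positivity) (by positivity), Real.log_mul m0.ne' k0.ne']
  have hsq : ((ht p ^ (-(1 / 2) - (c - σ)) : ℝ) : ℂ) =
      cexp ((-(1 / 2) - ((c : ℂ) - σ)) * ((Real.log p.1 : ℝ) + (Real.log p.2 : ℝ))) := by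
    have e : ht p ^ (-(1 / 2) - (c - σ)) =
        Real.exp ((-(1 / 2) - (c - σ)) * (Real.log p.1 + Real.log p.2)) := by
      rw [← Real.log_mul m0.ne' k0.ne', Real.rpow_def_of_pos hh, mul_comm]
      rfl
    rw [e, ofReal_exp]
    congr 1
    push_cast
    ring
  have key : cexp (-((1 / 2 + I * u + (c + I * t)) * (Real.log p.1 : ℝ))) *
      cexp (-((1 / 2 - I * u + (c + I * t)) * (Real.log p.2 : ℝ))) *
      (cexp ((σ + I * t) ^ 2) * cexp ((σ + I * t) * (Real.log (u / (2 * Real.pi)) : ℝ))) =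
      cexp ((-(1 / 2) - ((c : ℂ) - σ)) * ((Real.log p.1 : ℝ) + (Real.log p.2 : ℝ))) *
      cexp (I * ((u * lam p : ℝ) : ℂ)) *
      (cexp (-((σ + I * t) * ((Real.log p.1 + Real.log p.2 - Real.log (u / (2 * Real.pi)) : ℝ) : ℂ))) *
        cexp ((σ + I * t) ^ 2)) := by
    rw [← Complex.exp_add, ← Complex.exp_add, ← Complex.exp_add, ← Complex.exp_add,
      ← Complex.exp_add, ← Complex.exp_add]
    congr 1
    unfold lam
    push_cast
    ring
  unfold Gt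
  rw [hsq, hlx, one_div_cpw _ h1, one_div_cpw _ h2, ← mul_div_assoc, ← mul_div_assoc, key]

theorem Gt_int (u c σ : ℝ) (hu : 1 ≤ u) (hc : 0 < c) (hσ : 0 < σ) (p : ℕ × ℕ) :
    Integrable (Gt u c σ p) := by
  by_cases hp : p.1 = 0 ∨ p.2 = 0
  · have : Gt u c σ p = fun _ => 0 := funext fun t => Gt_zero u c σ hc p hp t
    rw [this]
    exact integrable_zero _ _ _
  · push Not at hp
    have hcont : Continuous (Gt u c σ p) := by
      have e : Gt u c σ p = fun t : ℝ => (((ht p ^ (-(1 / 2) - (c - σ)) : ℝ) : ℂ) *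
          cexp (I * ((u * lam p : ℝ) : ℂ))) *
          (cexp (-((σ + I * t) * (Real.log (2 * Real.pi * ht p / u) : ℝ))) *
          cexp ((σ + I * t) ^ 2) / (σ + I * t)) := funext fun t =>
        Gt_eq u c σ t (by linarith) p hp.1 hp.2
      rw [e]
      exact continuous_const.mul (Continuous.div (by fun_prop) (by fun_prop)
        (fun t => line_ne σ hσ t))
    exact Integrable.mono' (((integrable_exp_neg_mul_sq
      (show (0 : ℝ) < 1 / 2 by norm_num)).const_mul _).const_mul _)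
      hcont.aestronglyMeasurable (Eventually.of_forall fun t => Gt_norm u c σ t hu hc hσ p)

/-- the terms of the series -/
noncomputable def TC (u κ : ℝ) (p : ℕ × ℕ) : ℝ :=
  if p.1 = 0 ∨ p.2 = 0 then 0 else ht p ^ (-(1 / 2) - κ) * V (2 * Real.pi * ht p / u)

theorem Gt_val (hV : S_V) (u c σ : ℝ) (hu : 1 ≤ u) (hc : 0 < c) (hσ : 0 < σ) (p : ℕ × ℕ) :
    ∫ t : ℝ, Gt u c σ p t =
      (2 * Real.pi : ℂ) * ((TC u (c - σ) p : ℂ) * cexp (I * ((u * lam p : ℝ) : ℂ))) := by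
  by_cases hp : p.1 = 0 ∨ p.2 = 0
  · unfold TC
    rw [if_pos hp]
    simp [Gt_zero u c σ hc p hp]
  · unfold TC
    rw [if_neg hp]
    push Not at hp
    have hu0 : 0 < u := by linarith
    have hpi := Real.pi_pos
    have m0 : (0 : ℝ) < p.1 := by exact_mod_cast Nat.pos_of_ne_zero hp.1
    have k0 : (0 : ℝ) < p.2 := by exact_mod_cast Nat.pos_of_ne_zero hp.2
    have hh : 0 < ht p := by unfold ht; positivity
    have h7 := hV.2.2.2.2.2.2 σ (2 * Real.pi * ht p / u) hσ (by positivity)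
    simp only [Gt_eq u c σ _ hu0 p hp.1 hp.2]
    rw [integral_const_mul]
    have h8 : (∫ t : ℝ, cexp (-((σ + I * t) * (Real.log (2 * Real.pi * ht p / u) : ℝ))) *
        cexp ((σ + I * t) ^ 2) / (σ + I * t)) =
        ((2 * Real.pi : ℝ) : ℂ) * ((V (2 * Real.pi * ht p / u) : ℝ) : ℂ) := by
      rw [h7, ← mul_assoc, mul_inv_cancel₀, one_mul]
      exact_mod_cast (by positivity : (2 * Real.pi : ℝ) ≠ 0)
    rw [h8]
    push_cast
    ring

theorem hasSum_TC (hV : S_V) (u c σ : ℝ) (hu : 1 ≤ u) (hc : 1 / 2 < c) (hσ : 0 < σ) :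
    HasSum (fun p => (TC u (c - σ) p : ℂ) * cexp (I * ((u * lam p : ℝ) : ℂ)))
      ((2 * Real.pi : ℂ)⁻¹ * ∫ t : ℝ, Fs u c σ t) := by
  have hc0 : 0 < c := by linarith
  have hs : Summable fun n : ℕ => 1 / (n : ℝ) ^ (1 / 2 + c) :=
    Real.summable_one_div_nat_rpow.2 (by linarith)
  obtain ⟨G, hG⟩ : ∃ G : ℝ, G = ∫ t : ℝ, Real.exp (σ ^ 2) * u ^ σ / σ *
    Real.exp (-(1 / 2) * t ^ 2) := ⟨_, rfl⟩
  have hgi : Integrable (fun t : ℝ => Real.exp (σ ^ 2) * u ^ σ / σ *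
      Real.exp (-(1 / 2) * t ^ 2)) :=
    (integrable_exp_neg_mul_sq (show (0 : ℝ) < 1 / 2 by norm_num)).const_mul _
  have h1 := hasSum_integral_of_summable_integral_norm (fun p => Gt_int u c σ hu hc0 hσ p) (by
    refine Summable.of_nonneg_of_le (fun p => integral_nonneg fun t => norm_nonneg _)
      (fun p => ?_) ((hs.mul_of_nonneg hs (fun n => by positivity)
        (fun n => by positivity)).mul_right G)
    calc ∫ t : ℝ, ‖Gt u c σ p t‖ ≤ ∫ t : ℝ, (1 / (p.1 : ℝ) ^ (1 / 2 + c)) *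
          (1 / (p.2 : ℝ) ^ (1 / 2 + c)) *
          (Real.exp (σ ^ 2) * u ^ σ / σ * Real.exp (-(1 / 2) * t ^ 2)) :=
          integral_mono (Gt_int u c σ hu hc0 hσ p).norm (hgi.const_mul _)
            (fun t => Gt_norm u c σ t hu hc0 hσ p)
      _ = (1 / (p.1 : ℝ) ^ (1 / 2 + c)) * (1 / (p.2 : ℝ) ^ (1 / 2 + c)) * G := by
          rw [integral_const_mul, hG])
  simp only [Gt_tsum u c σ _ hc, Gt_val hV u c σ hu hc0 hσ] at h1
  have h2 := h1.mul_left (2 * Real.pi : ℂ)⁻¹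
  have hpi : (2 * Real.pi : ℂ) ≠ 0 := by
    exact_mod_cast (by positivity : (2 * Real.pi : ℝ) ≠ 0)
  have h3 : (fun p : ℕ × ℕ => (2 * Real.pi : ℂ)⁻¹ * ((2 * Real.pi : ℂ) *
      ((TC u (c - σ) p : ℂ) * cexp (I * ((u * lam p : ℝ) : ℂ))))) =
      fun p => (TC u (c - σ) p : ℂ) * cexp (I * ((u * lam p : ℝ) : ℂ)) := by
    funext p
    rw [inv_mul_cancel_left₀ hpi]
  rwa [h3] at h2

/-- truncation -/
theorem trunc (hV : S_V) (ε : ℝ) (hε : 0 < ε) : ∃ D : ℝ, 0 < D ∧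
    ∀ (u κ : ℝ) (X : ℕ) (S : ℂ), 1 ≤ u → |κ| ≤ 1 / 8 → u ^ (1 + ε) ≤ X →
      HasSum (fun p => (TC u κ p : ℂ) * cexp (I * ((u * lam p : ℝ) : ℂ))) S →
      ‖S - ∑ p ∈ PS X, (TC u κ p : ℂ) * cexp (I * ((u * lam p : ℝ) : ℂ))‖ ≤ D * u⁻¹ := by
  obtain ⟨A, hA⟩ : ∃ A : ℝ, A = 2 + 4 / ε := ⟨_, rfl⟩
  have hA1 : 2 ≤ A := by
    rw [hA]
    have : 0 < 4 / ε := by positivity
    linarith
  have hAε : ε * A = 2 * ε + 4 := by rw [hA]; field_simp
  obtain ⟨C, hC, hVC⟩ := hV.2.2.2.2.2.1 A (by linarith)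
  have hZ := ZZ_nonneg (3 / 2)
  refine ⟨C * ZZ (3 / 2) ^ 2 + 1, by positivity, fun u κ X S hu hκ hX hS => ?_⟩
  have hu0 : 0 < u := by linarith
  have hX1 : (1 : ℝ) ≤ X := le_trans (Real.one_le_rpow hu (by linarith)) hX
  have hX0 : (0 : ℝ) < X := by linarith
  obtain ⟨f, hf⟩ : ∃ f : ℕ × ℕ → ℂ, f = fun p => (TC u κ p : ℂ) *
    cexp (I * ((u * lam p : ℝ) : ℂ)) := ⟨_, rfl⟩
  rw [← hf] at hS
  have hf' : ∀ p, (TC u κ p : ℂ) * cexp (I * ((u * lam p : ℝ) : ℂ)) = f p := fun p => by rw [hf]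
  simp only [hf']
  have h1 : HasSum (fun p => if p ∈ PS X then f p else 0) (∑ p ∈ PS X, f p) := by
    have h : HasSum (fun p => if p ∈ PS X then f p else 0)
        (∑ p ∈ PS X, if p ∈ PS X then f p else 0) :=
      hasSum_sum_of_ne_finset_zero (fun p hp => if_neg hp)
    have e : ∑ p ∈ PS X, (if p ∈ PS X then f p else 0) = ∑ p ∈ PS X, f p :=
      Finset.sum_congr rfl fun p hp => if_pos hp
    rwa [e] at h
  have h2 := hS.sub h1
  rw [← h2.tsum_eq]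
  have hs : Summable fun n : ℕ => 1 / (n : ℝ) ^ (3 / 2 : ℝ) :=
    Real.summable_one_div_nat_rpow.2 (by norm_num)
  have hs2 : HasSum (fun p : ℕ × ℕ => (1 / (p.1 : ℝ) ^ (3 / 2 : ℝ)) *
      (1 / (p.2 : ℝ) ^ (3 / 2 : ℝ))) (ZZ (3 / 2) * ZZ (3 / 2)) := by
    have h := (hs.mul_of_nonneg hs (fun n => by positivity) (fun n => by positivity))
    have h4 := hs.tsum_mul_tsum hs h
    unfold ZZ
    rw [h4]
    exact h.hasSum
  obtain ⟨W, hW⟩ : ∃ W : ℝ, W = C * (u ^ A * (X : ℝ) ^ (-(A - 2))) := ⟨_, rfl⟩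
  have h5 := tsum_of_norm_bounded (f := fun p => f p - if p ∈ PS X then f p else 0)
    (hs2.mul_left W) (fun p => by
      by_cases hp : p ∈ PS X
      · rw [if_pos hp, sub_self, norm_zero, hW]
        positivity
      · rw [if_neg hp, sub_zero]
        have hTn : ‖f p‖ = |TC u κ p| := by
          rw [hf]
          simp only
          rw [norm_mul, norm_real, Real.norm_eq_abs, norm_exp]
          have e : (I * ((u * lam p : ℝ) : ℂ)).re = 0 := by simp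
          rw [e, Real.exp_zero, mul_one]
        rw [hTn]
        by_cases h0 : p.1 = 0 ∨ p.2 = 0
        · have e1 : TC u κ p = 0 := by
            unfold TC
            rw [if_pos h0]
          rw [e1, abs_zero, hW]
          positivity
        · have h0' := h0
          push Not at h0
          have m1 : 1 ≤ p.1 := Nat.one_le_iff_ne_zero.2 h0.1
          have k1 : 1 ≤ p.2 := Nat.one_le_iff_ne_zero.2 h0.2
          have m0 : (0 : ℝ) < p.1 := by exact_mod_cast m1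
          have k0 : (0 : ℝ) < p.2 := by exact_mod_cast k1
          have hh : 0 < ht p := by unfold ht; positivity
          have hbig : (X : ℝ) ≤ ht p := by
            have h6 : X ≤ p.1 * p.2 := by
              by_contra hcon
              push Not at hcon
              apply hp
              unfold PS
              rw [Finset.mem_filter, Finset.mem_product, Finset.mem_Icc, Finset.mem_Icc]
              refine ⟨⟨⟨m1, ?_⟩, ⟨k1, ?_⟩⟩, hcon.le⟩
              · exact (Nat.le_mul_of_pos_right _ k1).trans hcon.le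
              · exact (Nat.le_mul_of_pos_left _ m1).trans hcon.le
            unfold ht
            exact_mod_cast h6
          have hh1 : 1 ≤ ht p := hX1.trans hbig
          have hpi := Real.pi_gt_three
          have hx0 : 0 < 2 * Real.pi * ht p / u := by positivity
          have hV1 := (hV.1 _ hx0).1
          have hV2 := hVC _ hx0
          have hco : |TC u κ p| = ht p ^ (-(1 / 2) - κ) * V (2 * Real.pi * ht p / u) := by
            unfold TC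
            rw [if_neg h0']
            exact abs_of_nonneg (by positivity)
          have hxle : (2 * Real.pi * ht p / u) ^ (-A) ≤ (ht p / u) ^ (-A) := by
            apply Real.rpow_le_rpow_of_nonpos (by positivity) _ (by linarith)
            apply div_le_div_of_nonneg_right _ hu0.le
            nlinarith
          have e2 : (ht p / u) ^ (-A) = ht p ^ (-A) * u ^ A := by
            rw [Real.div_rpow hh.le hu0.le, Real.rpow_neg hu0.le, div_inv_eq_mul]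
          have e4 : ht p ^ (-(1 / 2) - κ) * ht p ^ (-A) ≤
              ht p ^ (-(3 / 2) : ℝ) * ht p ^ (-(A - 2)) := by
            rw [← Real.rpow_add hh, ← Real.rpow_add hh]
            apply Real.rpow_le_rpow_of_exponent_le hh1
            have := (abs_le.1 hκ).1
            linarith
          have e5 : ht p ^ (-(A - 2)) ≤ (X : ℝ) ^ (-(A - 2)) :=
            Real.rpow_le_rpow_of_nonpos hX0 hbig (by linarith)
          have e6 : ht p ^ (-(3 / 2) : ℝ) = (1 / (p.1 : ℝ) ^ (3 / 2 : ℝ)) *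
              (1 / (p.2 : ℝ) ^ (3 / 2 : ℝ)) := by
            unfold ht
            rw [Real.rpow_neg (by positivity), Real.mul_rpow m0.le k0.le]
            field_simp
          rw [hco]
          calc ht p ^ (-(1 / 2) - κ) * V (2 * Real.pi * ht p / u)
              ≤ ht p ^ (-(1 / 2) - κ) * (C * (ht p / u) ^ (-A)) := by
                gcongr
                exact hV2.trans (by gcongr)
            _ = C * u ^ A * (ht p ^ (-(1 / 2) - κ) * ht p ^ (-A)) := by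
                rw [e2]; ring
            _ ≤ C * u ^ A * (ht p ^ (-(3 / 2) : ℝ) * ht p ^ (-(A - 2))) := by gcongr
            _ ≤ C * u ^ A * (ht p ^ (-(3 / 2) : ℝ) * (X : ℝ) ^ (-(A - 2))) := by gcongr
            _ = W * ((1 / (p.1 : ℝ) ^ (3 / 2 : ℝ)) * (1 / (p.2 : ℝ) ^ (3 / 2 : ℝ))) := by
                rw [e6, hW]; ring)
  refine h5.trans ?_
  have h6 : u ^ A * (X : ℝ) ^ (-(A - 2)) ≤ u⁻¹ := by
    have h7 : (X : ℝ) ^ (-(A - 2)) ≤ (u ^ (1 + ε)) ^ (-(A - 2)) :=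
      Real.rpow_le_rpow_of_nonpos (by positivity) hX (by linarith)
    calc u ^ A * (X : ℝ) ^ (-(A - 2)) ≤ u ^ A * (u ^ (1 + ε)) ^ (-(A - 2)) := by gcongr
      _ = u ^ (A + (1 + ε) * (-(A - 2))) := by
          rw [← Real.rpow_mul hu0.le, ← Real.rpow_add hu0]
      _ ≤ u ^ (-1 : ℝ) := by
          apply Real.rpow_le_rpow_of_exponent_le hu
          nlinarith
      _ = u⁻¹ := Real.rpow_neg_one u
  have h8 : 0 ≤ u⁻¹ := by positivity
  rw [hW]
  calc C * (u ^ A * (X : ℝ) ^ (-(A - 2))) * (ZZ (3 / 2) * ZZ (3 / 2))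
      ≤ C * (u⁻¹) * (ZZ (3 / 2) * ZZ (3 / 2)) := by gcongr
    _ ≤ (C * ZZ (3 / 2) ^ 2 + 1) * u⁻¹ := by nlinarith

/-- coefficients of the approximate functional equation -/
noncomputable def cod (δ u : ℝ) (p : ℕ × ℕ) : ℝ := TC u δ p + tq δ u * TC u (-δ) p

theorem afe (hV : S_V) (hCHI : S_CHI) (ε : ℝ) (hε : 0 < ε) : ∃ C : ℝ, 0 < C ∧
    ∀ (u δ : ℝ) (X : ℕ), 6 ≤ u → 0 ≤ δ → δ ≤ 1 / 8 → u ^ (1 + ε) ≤ X →
      ‖(zd δ u : ℂ) - ∑ p ∈ PS X, (cod δ u p : ℂ) * cexp (I * ((u * lam p : ℝ) : ℂ))‖ ≤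
        C * u ^ (-(1 / 4) : ℝ) := by
  obtain ⟨C, hC, hB⟩ := partB' hCHI
  obtain ⟨D, hD, hT⟩ := trunc hV ε hε
  have hZ := ZZ_nonneg (5 / 4)
  obtain ⟨G, hG⟩ : ∃ G : ℝ, G = ∫ t : ℝ, Real.exp (-(1 / 2) * t ^ 2) := ⟨_, rfl⟩
  have hG0 : 0 ≤ G := by rw [hG]; exact integral_nonneg fun t => (Real.exp_pos _).le
  have hgi := integrable_exp_neg_mul_sq (show (0 : ℝ) < 1 / 2 by norm_num)
  obtain ⟨K, hK⟩ : ∃ K : ℝ, K = ZZ (5 / 4) ^ 2 * 6 * G := ⟨_, rfl⟩
  have hK0 : 0 ≤ K := by rw [hK]; positivity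
  refine ⟨C + 3 * D + (6 * C + 18 * K) + 1, by positivity, fun u δ X hu6 hδ hδ' hX => ?_⟩
  have hu : 1 ≤ u := by linarith
  have hu0 : 0 < u := by linarith
  have hpi := Real.pi_gt_three
  have s1 := hasSum_TC hV u (3 / 4) (3 / 4 - δ) hu (by norm_num) (by linarith)
  have s2 := hasSum_TC hV u (3 / 4) (3 / 4 + δ) hu (by norm_num) (by linarith)
  rw [show (3 / 4 - (3 / 4 - δ) : ℝ) = δ by ring] at s1
  rw [show (3 / 4 - (3 / 4 + δ) : ℝ) = -δ by ring] at s2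
  have t1 := hT u δ X _ hu (by rw [abs_of_nonneg hδ]; exact hδ') hX s1
  have t2 := hT u (-δ) X _ hu (by rw [abs_neg, abs_of_nonneg hδ]; exact hδ') hX s2
  have hb := hB u δ hu hδ hδ'
  obtain ⟨J1, hJ1⟩ : ∃ J : ℂ, J = ∫ t : ℝ, Fs u (3 / 4) (3 / 4 - δ) t := ⟨_, rfl⟩
  obtain ⟨J2, hJ2⟩ : ∃ J : ℂ, J = ∫ t : ℝ, Fs u (3 / 4) (3 / 4 + δ) t := ⟨_, rfl⟩
  have n1 : ‖J1‖ ≤ K * u ^ (3 / 4 - δ) := by
    rw [hJ1, hK, hG]
    refine (norm_integral_le_of_norm_le (hgi.const_mul (ZZ (5 / 4) ^ 2 * 6 * u ^ (3 / 4 - δ)))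
      (Eventually.of_forall fun t => ?_)).trans ?_
    · refine (Fs_le' u (3 / 4 - δ) t hu (by linarith) (by linarith)).trans ?_
      have h1 : Real.exp (-(1 / 2) * t ^ 2) * Real.exp (-(1 / 2) * t ^ 2) ≤
          Real.exp (-(1 / 2) * t ^ 2) * 1 := by
        gcongr
        rw [Real.exp_le_one_iff]
        nlinarith [sq_nonneg t]
      rw [mul_one] at h1
      gcongr
    · rw [integral_const_mul]
      apply le_of_eq
      ring
  have n2 : ‖J2‖ ≤ K * u ^ (3 / 4 + δ) := by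
    rw [hJ2, hK, hG]
    refine (norm_integral_le_of_norm_le (hgi.const_mul (ZZ (5 / 4) ^ 2 * 6 * u ^ (3 / 4 + δ)))
      (Eventually.of_forall fun t => ?_)).trans ?_
    · refine (Fs_le' u (3 / 4 + δ) t hu (by linarith) (by linarith)).trans ?_
      have h1 : Real.exp (-(1 / 2) * t ^ 2) * Real.exp (-(1 / 2) * t ^ 2) ≤
          Real.exp (-(1 / 2) * t ^ 2) * 1 := by
        gcongr
        rw [Real.exp_le_one_iff]
        nlinarith [sq_nonneg t]
      rw [mul_one] at h1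
      gcongr
    · rw [integral_const_mul]
      apply le_of_eq
      ring
  rw [← hJ1] at t1 hb
  rw [← hJ2] at t2 hb
  have htq := tq_le δ u hu hδ hδ'
  have htq0 := (tq_pos δ u).le
  have htq2 : tq δ u ≤ 2 := by
    refine htq.trans ?_
    have : u ^ (-(2 * δ)) ≤ 1 := Real.rpow_le_one_of_one_le_of_nonpos hu (by linarith)
    linarith
  -- the main term
  obtain ⟨J, hJ⟩ : ∃ J : ℂ, J = J1 + (tq δ u : ℂ) * J2 := ⟨_, rfl⟩
  rw [← hJ] at hb
  have nJ : ‖J‖ ≤ 3 * K * u ^ (3 / 4 : ℝ) := by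
    rw [hJ]
    refine (norm_add_le _ _).trans ?_
    rw [norm_mul, norm_real, Real.norm_eq_abs, abs_of_nonneg htq0]
    have p1 : u ^ (3 / 4 - δ) ≤ u ^ (3 / 4 : ℝ) :=
      Real.rpow_le_rpow_of_exponent_le hu (by linarith)
    have p2 : tq δ u * u ^ (3 / 4 + δ) ≤ 2 * u ^ (3 / 4 : ℝ) := by
      calc tq δ u * u ^ (3 / 4 + δ) ≤ (2 * u ^ (-(2 * δ))) * u ^ (3 / 4 + δ) := by gcongr
        _ = 2 * (u ^ (-(2 * δ)) * u ^ (3 / 4 + δ)) := by ring
        _ = 2 * u ^ (-(2 * δ) + (3 / 4 + δ)) := by rw [← Real.rpow_add hu0]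
        _ ≤ 2 * u ^ (3 / 4 : ℝ) := by
            gcongr
            linarith
    calc ‖J1‖ + tq δ u * ‖J2‖ ≤ K * u ^ (3 / 4 - δ) + tq δ u * (K * u ^ (3 / 4 + δ)) := by gcongr
      _ = K * u ^ (3 / 4 - δ) + K * (tq δ u * u ^ (3 / 4 + δ)) := by ring
      _ ≤ K * u ^ (3 / 4 : ℝ) + K * (2 * u ^ (3 / 4 : ℝ)) := by gcongr
      _ = _ := by ring
  have hq := qq_sub u hu (δ : ℂ) 1 le_rfl (by
    rw [norm_real, Real.norm_eq_abs, abs_of_nonneg hδ]; linarith)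
  have hz0 : 0 ≤ zd δ u := by unfold zd; positivity
  have hq2 : 1 / 2 ≤ ‖qq u δ‖ := by
    have h1 : (3 : ℝ) * 1 ^ 4 / u ≤ 1 / 2 := by
      rw [div_le_iff₀ hu0]
      linarith
    have h2 : ‖(1 : ℂ)‖ ≤ ‖qq u δ‖ + ‖qq u δ - 1‖ := by
      calc ‖(1 : ℂ)‖ = ‖qq u δ - (qq u δ - 1)‖ := by congr 1; ring
        _ ≤ _ := norm_sub_le _ _
    rw [norm_one] at h2
    linarith
  have hu14 : u ^ (-(1 / 4) : ℝ) ≤ 1 :=
    Real.rpow_le_one_of_one_le_of_nonpos hu (by norm_num)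
  have hu34 : 1 ≤ u ^ (3 / 4 : ℝ) := Real.one_le_rpow hu (by norm_num)
  have hzb : zd δ u ≤ (C + 3 * K) * u ^ (3 / 4 : ℝ) := by
    have h1 : ‖2 * Real.pi * ((zd δ u : ℂ) * qq u δ)‖ ≤ C * u ^ (-(1 / 4) : ℝ) +
        3 * K * u ^ (3 / 4 : ℝ) := by
      calc ‖2 * Real.pi * ((zd δ u : ℂ) * qq u δ)‖ =
          ‖(2 * Real.pi * ((zd δ u : ℂ) * qq u δ) - J) + J‖ := by congr 1; ring
        _ ≤ _ := (norm_add_le _ _).trans (add_le_add hb nJ)
    have h2 : ‖2 * Real.pi * ((zd δ u : ℂ) * qq u δ)‖ = 2 * Real.pi * (zd δ u * ‖qq u δ‖) := by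
      rw [norm_mul, norm_mul, norm_mul, norm_real, norm_real, Real.norm_eq_abs, Real.norm_eq_abs,
        abs_of_nonneg hz0, abs_of_pos Real.pi_pos]
      simp
    rw [h2] at h1
    have h3 : zd δ u ≤ 2 * Real.pi * (zd δ u * ‖qq u δ‖) := by
      have h4 : 1 ≤ 2 * Real.pi * ‖qq u δ‖ := by nlinarith
      calc zd δ u = zd δ u * 1 := by ring
        _ ≤ zd δ u * (2 * Real.pi * ‖qq u δ‖) := by gcongr
        _ = _ := by ring
    calc zd δ u ≤ C * u ^ (-(1 / 4) : ℝ) + 3 * K * u ^ (3 / 4 : ℝ) := h3.trans h1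
      _ ≤ C * u ^ (3 / 4 : ℝ) + 3 * K * u ^ (3 / 4 : ℝ) := by
          gcongr
          norm_num
      _ = _ := by ring
  have hpc : (2 * Real.pi : ℂ) ≠ 0 := by
    exact_mod_cast (by positivity : (2 * Real.pi : ℝ) ≠ 0)
  have m1 : ‖(zd δ u : ℂ) * qq u δ - (2 * Real.pi : ℂ)⁻¹ * J‖ ≤ C * u ^ (-(1 / 4) : ℝ) := by
    have e : (zd δ u : ℂ) * qq u δ - (2 * Real.pi : ℂ)⁻¹ * J =
        (2 * Real.pi : ℂ)⁻¹ * (2 * Real.pi * ((zd δ u : ℂ) * qq u δ) - J) := by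
      field_simp
    rw [e, norm_mul, norm_inv]
    have h3 : ‖(2 * Real.pi : ℂ)‖⁻¹ ≤ 1 := by
      apply inv_le_one_of_one_le₀
      rw [norm_mul, norm_real, Real.norm_eq_abs, abs_of_pos Real.pi_pos]
      simp
      linarith
    calc _ ≤ 1 * ‖2 * Real.pi * ((zd δ u : ℂ) * qq u δ) - J‖ := by gcongr
      _ ≤ _ := by rw [one_mul]; exact hb
  have m2 : ‖(zd δ u : ℂ) - (zd δ u : ℂ) * qq u δ‖ ≤ (3 * C + 9 * K) * u ^ (-(1 / 4) : ℝ) := by
    have e : (zd δ u : ℂ) - (zd δ u : ℂ) * qq u δ = -((zd δ u : ℂ) * (qq u δ - 1)) := by ring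
    rw [e, norm_neg, norm_mul, norm_real, Real.norm_eq_abs, abs_of_nonneg hz0]
    have hpw : u ^ (3 / 4 : ℝ) / u = u ^ (-(1 / 4) : ℝ) := by
      rw [show (-(1 / 4) : ℝ) = 3 / 4 - 1 by norm_num, Real.rpow_sub hu0, Real.rpow_one]
    calc zd δ u * ‖qq u δ - 1‖ ≤ ((C + 3 * K) * u ^ (3 / 4 : ℝ)) * (3 * 1 ^ 4 / u) := by gcongr
      _ = (3 * C + 9 * K) * (u ^ (3 / 4 : ℝ) / u) := by ring
      _ = _ := by rw [hpw]
  have m3 : ‖(2 * Real.pi : ℂ)⁻¹ * J - ∑ p ∈ PS X, (cod δ u p : ℂ) *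
      cexp (I * ((u * lam p : ℝ) : ℂ))‖ ≤ 3 * D * u⁻¹ := by
    have e : (2 * Real.pi : ℂ)⁻¹ * J - ∑ p ∈ PS X, (cod δ u p : ℂ) *
      cexp (I * ((u * lam p : ℝ) : ℂ)) = ((2 * Real.pi : ℂ)⁻¹ * J1 - ∑ p ∈ PS X, (TC u δ p : ℂ) *
        cexp (I * ((u * lam p : ℝ) : ℂ))) + (tq δ u : ℂ) * ((2 * Real.pi : ℂ)⁻¹ * J2 -
        ∑ p ∈ PS X, (TC u (-δ) p : ℂ) * cexp (I * ((u * lam p : ℝ) : ℂ))) := by
      rw [hJ, mul_sub, Finset.mul_sum]
      have e2 : ∑ p ∈ PS X, (cod δ u p : ℂ) * cexp (I * ((u * lam p : ℝ) : ℂ)) =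
          ∑ p ∈ PS X, (TC u δ p : ℂ) * cexp (I * ((u * lam p : ℝ) : ℂ)) +
          ∑ p ∈ PS X, (tq δ u : ℂ) * ((TC u (-δ) p : ℂ) * cexp (I * ((u * lam p : ℝ) : ℂ))) := by
        rw [← Finset.sum_add_distrib]
        refine Finset.sum_congr rfl fun p _ => ?_
        unfold cod
        push_cast
        ring
      rw [e2]
      ring
    rw [e]
    refine (norm_add_le _ _).trans ?_
    rw [norm_mul, norm_real, Real.norm_eq_abs, abs_of_nonneg htq0]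
    have h8 : 0 ≤ D * u⁻¹ := by positivity
    calc _ ≤ D * u⁻¹ + 2 * (D * u⁻¹) := by gcongr
      _ = _ := by ring
  have hui : u⁻¹ ≤ u ^ (-(1 / 4) : ℝ) := by
    rw [← Real.rpow_neg_one]
    exact Real.rpow_le_rpow_of_exponent_le hu (by norm_num)
  have h9 : 0 ≤ u ^ (-(1 / 4) : ℝ) := by positivity
  calc ‖(zd δ u : ℂ) - ∑ p ∈ PS X, (cod δ u p : ℂ) * cexp (I * ((u * lam p : ℝ) : ℂ))‖ =
      ‖((zd δ u : ℂ) - (zd δ u : ℂ) * qq u δ) + ((zd δ u : ℂ) * qq u δ - (2 * Real.pi : ℂ)⁻¹ * J) +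
        ((2 * Real.pi : ℂ)⁻¹ * J - ∑ p ∈ PS X, (cod δ u p : ℂ) *
          cexp (I * ((u * lam p : ℝ) : ℂ)))‖ := by congr 1; ring
    _ ≤ (3 * C + 9 * K) * u ^ (-(1 / 4) : ℝ) + C * u ^ (-(1 / 4) : ℝ) + 3 * D * u⁻¹ :=
        (norm_add₃_le).trans (add_le_add (add_le_add m2 m1) m3)
    _ ≤ (3 * C + 9 * K) * u ^ (-(1 / 4) : ℝ) + C * u ^ (-(1 / 4) : ℝ) +
        3 * D * u ^ (-(1 / 4) : ℝ) := by gcongr
    _ ≤ _ := by nlinarith

end Pool.Agent.Zk5
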