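import Pool.Agent.TH572.Saw4846
import Pool.Agent.Y969.GP.Def

set_option autoImplicit false

/-!
Slot B (helper5): the diagonal sums, through the Gaussian representation of the cutoff.
-/

namespace Pool.Agent.Zk5

open Complex Filter Topology MeasureTheory Set
open Pool.Agent.Y969.GP (V)

/-- zeta at a real point -/
noncomputable def zr (s : ℝ) : ℝ := (riemannZeta (s : ℂ)).re

/-- Euler-Maclaurin of order one, real form -/
theorem em_real (s c : ℝ) (hs : 0 < s) (hs1 : s ≠ 1) (hc : 0 < c) :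
    |zr s - ∑ n ∈ Finset.Icc 1 ⌊c⌋₊, (n : ℝ) ^ (-s) - c ^ (1 - s) / (s - 1)| ≤ c ^ (-s) := by
  have hsc : (s : ℂ) ≠ 1 := by exact_mod_cast hs1
  have h := Pool.Agent.TH572.Saw.em (s := (s : ℂ)) (by simpa using hs) hsc hc
  have hI : ‖∫ u in Ioi c, ((Int.fract u - 1 / 2 : ℝ) : ℂ) * (u : ℂ) ^ (-(s : ℂ) - 1)‖ ≤
      c ^ (-s) / (2 * s) := by
    have hint : IntegrableOn (fun u : ℝ => (1 / 2 : ℝ) * u ^ (-s - 1)) (Ioi c) :=
      (integrableOn_Ioi_rpow_of_lt (by linarith) hc).const_mul _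
    refine (norm_integral_le_of_norm_le hint ?_).trans ?_
    · rw [ae_restrict_iff' measurableSet_Ioi]
      refine Eventually.of_forall fun u hu => ?_
      have hu0 : 0 < u := hc.trans hu
      rw [norm_mul, Complex.norm_real, Real.norm_eq_abs, Complex.norm_cpow_eq_rpow_re_of_pos hu0]
      have e : (-(s : ℂ) - 1).re = -s - 1 := by simp
      rw [e]
      have h2 : |Int.fract u - 1 / 2| ≤ 1 / 2 := by
        have h3 := Int.fract_nonneg u
        have h4 := (Int.fract_lt_one u).le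
        rw [abs_le]
        constructor <;> linarith
      gcongr
    · rw [integral_const_mul, integral_Ioi_rpow_of_lt (by linarith) hc]
      apply le_of_eq
      have e1 : -s - 1 + 1 = -s := by ring
      rw [e1]
      field_simp
  have e1 : ((zr s - ∑ n ∈ Finset.Icc 1 ⌊c⌋₊, (n : ℝ) ^ (-s) - c ^ (1 - s) / (s - 1) : ℝ)) =
      (-((s : ℂ) * ∫ u in Ioi c, ((Int.fract u - 1 / 2 : ℝ) : ℂ) * (u : ℂ) ^ (-(s : ℂ) - 1)) +
        ((Int.fract c - 1 / 2 : ℝ) : ℂ) * (c : ℂ) ^ (-(s : ℂ))).re := by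
    rw [h]
    have e2 : ∀ n ∈ Finset.Icc 1 ⌊c⌋₊, ((n : ℕ) : ℂ) ^ (-(s : ℂ)) =
        (((n : ℝ) ^ (-s) : ℝ) : ℂ) := by
      intro n _
      rw [Complex.ofReal_cpow (Nat.cast_nonneg n)]
      push_cast
      rfl
    rw [Finset.sum_congr rfl e2]
    have e3 : (c : ℂ) ^ (1 - (s : ℂ)) = ((c ^ (1 - s) : ℝ) : ℂ) := by
      rw [Complex.ofReal_cpow hc.le]
      push_cast
      rfl
    rw [e3]
    have e4 : riemannZeta (s : ℂ) - ∑ n ∈ Finset.Icc 1 ⌊c⌋₊, (((n : ℝ) ^ (-s) : ℝ) : ℂ) +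
        ((c ^ (1 - s) : ℝ) : ℂ) / (1 - (s : ℂ)) -
        ((Int.fract c - 1 / 2 : ℝ) : ℂ) * (c : ℂ) ^ (-(s : ℂ)) +
        ((Int.fract c - 1 / 2 : ℝ) : ℂ) * (c : ℂ) ^ (-(s : ℂ)) = riemannZeta (s : ℂ) -
        ((∑ n ∈ Finset.Icc 1 ⌊c⌋₊, (n : ℝ) ^ (-s) + c ^ (1 - s) / (s - 1) : ℝ) : ℂ) := by
      have hs2 : (1 - (s : ℂ)) ≠ 0 := sub_ne_zero.2 hsc.symm
      have hs3 : ((s : ℂ) - 1) ≠ 0 := sub_ne_zero.2 hsc
      push_cast
      have : (((c ^ (1 - s) : ℝ) : ℂ)) / (1 - (s : ℂ)) =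
          -((((c ^ (1 - s) : ℝ) : ℂ)) / ((s : ℂ) - 1)) := by
        field_simp
        ring
      rw [this]
      ring
    rw [e4, sub_re, ofReal_re]
    unfold zr
    ring
  rw [e1]
  refine (abs_re_le_norm _).trans ((norm_add_le _ _).trans ?_)
  rw [norm_neg, norm_mul, norm_mul, Complex.norm_real, Complex.norm_real, Real.norm_eq_abs,
    Real.norm_eq_abs, abs_of_pos hs, Complex.norm_cpow_eq_rpow_re_of_pos hc]
  have e : (-(s : ℂ)).re = -s := by simp
  rw [e]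
  have h2 : |Int.fract c - 1 / 2| ≤ 1 / 2 := by
    have h3 := Int.fract_nonneg c
    have h4 := (Int.fract_lt_one c).le
    rw [abs_le]
    constructor <;> linarith
  have hcs : 0 ≤ c ^ (-s) := by positivity
  calc s * ‖∫ u in Ioi c, ((Int.fract u - 1 / 2 : ℝ) : ℂ) * (u : ℂ) ^ (-(s : ℂ) - 1)‖ +
        |Int.fract c - 1 / 2| * c ^ (-s)
      ≤ s * (c ^ (-s) / (2 * s)) + 1 / 2 * c ^ (-s) := by gcongr
    _ = c ^ (-s) := by field_simp; ring

/-- truncated version -/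
theorem HK_bound (s R A : ℝ) (K : ℕ) (hs : 0 < s) (hs1 : s ≠ 1) (hR : 0 < R) (hA : 0 ≤ A) :
    |∑ n ∈ (Finset.Icc 1 K).filter (fun n : ℕ => (n : ℝ) ≤ R), (n : ℝ) ^ (-s) -
      (zr s - R ^ (1 - s) / (s - 1))| ≤ R ^ (-s) + R ^ (1 + A) * ((K : ℝ) + 1) ^ (-A) := by
  have h1 := em_real s R hs hs1 hR
  have h2 : ∑ n ∈ Finset.Icc 1 ⌊R⌋₊, (n : ℝ) ^ (-s) - ∑ n ∈ (Finset.Icc 1 K).filter
      (fun n : ℕ => (n : ℝ) ≤ R), (n : ℝ) ^ (-s) ≤ R ^ (1 + A) * ((K : ℝ) + 1) ^ (-A) ∧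
      0 ≤ ∑ n ∈ Finset.Icc 1 ⌊R⌋₊, (n : ℝ) ^ (-s) - ∑ n ∈ (Finset.Icc 1 K).filter
      (fun n : ℕ => (n : ℝ) ≤ R), (n : ℝ) ^ (-s) := by
    have hsub : (Finset.Icc 1 K).filter (fun n : ℕ => (n : ℝ) ≤ R) ⊆ Finset.Icc 1 ⌊R⌋₊ := by
      intro n hn
      rw [Finset.mem_filter, Finset.mem_Icc] at hn
      rw [Finset.mem_Icc]
      exact ⟨hn.1.1, Nat.le_floor hn.2⟩
    rw [← Finset.sum_sdiff hsub, add_sub_cancel_right]
    constructor
    · rcases le_or_gt ((K : ℝ) + 1) R with h | h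
      · have hK1 : (0 : ℝ) < (K : ℝ) + 1 := by positivity
        calc ∑ n ∈ Finset.Icc 1 ⌊R⌋₊ \ (Finset.Icc 1 K).filter (fun n : ℕ => (n : ℝ) ≤ R),
              (n : ℝ) ^ (-s)
            ≤ ∑ n ∈ Finset.Icc 1 ⌊R⌋₊ \ (Finset.Icc 1 K).filter (fun n : ℕ => (n : ℝ) ≤ R),
              (1 : ℝ) := by
              refine Finset.sum_le_sum fun n hn => ?_
              rw [Finset.mem_sdiff, Finset.mem_Icc] at hn
              apply Real.rpow_le_one_of_one_le_of_nonpos (by exact_mod_cast hn.1.1) (by linarith)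
          _ ≤ ∑ n ∈ Finset.Icc 1 ⌊R⌋₊, (1 : ℝ) :=
              Finset.sum_le_sum_of_subset_of_nonneg Finset.sdiff_subset fun _ _ _ => zero_le_one
          _ = (⌊R⌋₊ : ℝ) := by simp
          _ ≤ R := Nat.floor_le hR.le
          _ = R * 1 := by ring
          _ ≤ R * (R ^ A * ((K : ℝ) + 1) ^ (-A)) := by
              gcongr
              rw [Real.rpow_neg hK1.le, ← div_eq_mul_inv, one_le_div (by positivity)]
              exact Real.rpow_le_rpow hK1.le h hA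
          _ = R ^ (1 + A) * ((K : ℝ) + 1) ^ (-A) := by
              rw [Real.rpow_add hR, Real.rpow_one]
              ring
      · have hempty : Finset.Icc 1 ⌊R⌋₊ \ (Finset.Icc 1 K).filter (fun n : ℕ => (n : ℝ) ≤ R) = ∅ := by
          rw [Finset.sdiff_eq_empty_iff_subset]
          intro n hn
          rw [Finset.mem_Icc] at hn
          rw [Finset.mem_filter, Finset.mem_Icc]
          have h3 : (n : ℝ) ≤ R := (Nat.le_floor_iff hR.le).1 hn.2
          refine ⟨⟨hn.1, ?_⟩, h3⟩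
          have : (n : ℝ) < K + 1 := h3.trans_lt h
          have h4 : n < K + 1 := by exact_mod_cast this
          omega
        rw [hempty, Finset.sum_empty]
        positivity
    · exact Finset.sum_nonneg fun n _ => by positivity
  rw [abs_le] at h1 ⊢
  constructor
  · linarith [h1.1, h1.2, h2.1, h2.2]
  · have : 0 ≤ R ^ (1 + A) * ((K : ℝ) + 1) ^ (-A) := by positivity
    linarith [h1.1, h1.2, h2.1, h2.2]

/-- the Gaussian density -/
noncomputable def gd (v : ℝ) : ℝ := (2 * √Real.pi)⁻¹ * Real.exp (-v ^ 2 / 4)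

theorem gd_int_exp (k : ℝ) : Integrable (fun v : ℝ => gd v * Real.exp (k * v)) ∧
    ∫ v : ℝ, gd v * Real.exp (k * v) = Real.exp (k ^ 2) := by
  have hpi := Real.pi_pos
  have e1 : (fun v : ℝ => gd v * Real.exp (k * v)) =
      fun v : ℝ => ((2 * √Real.pi)⁻¹ * Real.exp (k ^ 2)) *
        Real.exp (-(1 / 4) * (v + -(2 * k)) ^ 2) := by
    funext v
    unfold gd
    rw [mul_assoc, mul_assoc, ← Real.exp_add, ← Real.exp_add]
    congr 2
    ring
  have h0 := integrable_exp_neg_mul_sq (show (0 : ℝ) < 1 / 4 by norm_num)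
  have h1 : Integrable (fun v : ℝ => Real.exp (-(1 / 4) * (v + -(2 * k)) ^ 2)) :=
    h0.comp_add_right (-(2 * k))
  rw [e1]
  refine ⟨h1.const_mul _, ?_⟩
  rw [integral_const_mul, integral_add_right_eq_self
    (fun v : ℝ => Real.exp (-(1 / 4) * v ^ 2)) (-(2 * k)), integral_gaussian]
  have e2 : √(Real.pi / (1 / 4)) = 2 * √Real.pi := by
    rw [show Real.pi / (1 / 4) = 2 ^ 2 * Real.pi by ring, Real.sqrt_mul (by norm_num),
      Real.sqrt_sq (by norm_num)]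
  rw [e2]
  have h2 : 0 < √Real.pi := Real.sqrt_pos.2 hpi
  field_simp

theorem V_eq (z : ℝ) : V z = ∫ v : ℝ, (Ici (Real.log z)).indicator gd v := by
  rw [integral_indicator measurableSet_Ici, integral_Ici_eq_integral_Ioi]
  unfold V gd
  rw [integral_const_mul]

theorem gd_int : Integrable gd := by
  have := (gd_int_exp 0).1
  simpa using this

theorem gd_nonneg (v : ℝ) : 0 ≤ gd v := by unfold gd; positivity

/-- `R(v) = exp((v - log x)/2)` -/
noncomputable def Rv (x v : ℝ) : ℝ := Real.exp ((v - Real.log x) / 2)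

theorem Rv_pos (x v : ℝ) : 0 < Rv x v := Real.exp_pos _

theorem mem_iff (x v : ℝ) (r : ℕ) (hx : 0 < x) (hr : 1 ≤ r) :
    v ∈ Ici (Real.log (x * (r : ℝ) ^ 2)) ↔ (r : ℝ) ≤ Rv x v := by
  have hr0 : (0 : ℝ) < r := by exact_mod_cast hr
  rw [mem_Ici, Real.log_mul hx.ne' (by positivity), Real.log_pow]
  unfold Rv
  rw [← Real.log_le_iff_le_exp hr0]
  push_cast
  constructor <;> intro h <;> linarith

theorem V_sum (s x : ℝ) (K : ℕ) (hx : 0 < x) :
    ∑ r ∈ Finset.Icc 1 K, (r : ℝ) ^ (-s) * V (x * (r : ℝ) ^ 2) =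
      ∫ v : ℝ, gd v * ∑ r ∈ (Finset.Icc 1 K).filter (fun r : ℕ => (r : ℝ) ≤ Rv x v),
        (r : ℝ) ^ (-s) := by
  have h1 : ∀ r ∈ Finset.Icc 1 K, (r : ℝ) ^ (-s) * V (x * (r : ℝ) ^ 2) =
      ∫ v : ℝ, (r : ℝ) ^ (-s) * (Ici (Real.log (x * (r : ℝ) ^ 2))).indicator gd v := by
    intro r _
    rw [V_eq, integral_const_mul]
  rw [Finset.sum_congr rfl h1, ← integral_finsetSum]
  · refine integral_congr_ae (Eventually.of_forall fun v => ?_)
    beta_reduce
    rw [Finset.sum_filter, Finset.mul_sum]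
    refine Finset.sum_congr rfl fun r hr => ?_
    rw [Finset.mem_Icc] at hr
    by_cases h : (r : ℝ) ≤ Rv x v
    · rw [if_pos h, indicator_of_mem ((mem_iff x v r hx hr.1).2 h)]
      ring
    · rw [if_neg h, indicator_of_notMem (fun hh => h ((mem_iff x v r hx hr.1).1 hh))]
      ring
  · intro r _
    exact (gd_int.indicator measurableSet_Ici).const_mul _

theorem Rv_rpow (x v k : ℝ) (hx : 0 < x) :
    Rv x v ^ k = x ^ (-(k / 2)) * Real.exp (k / 2 * v) := by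
  unfold Rv
  rw [← Real.exp_mul, Real.rpow_def_of_pos hx, ← Real.exp_add]
  congr 1
  ring

end Pool.Agent.Zk5
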