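import Pool.Agent.Zk5.Dia

set_option autoImplicit false

namespace Pool.Agent.Zk5

open Complex Filter Topology MeasureTheory Set
open Pool.Agent.Y969.GP (V)

theorem gdR (x k : ℝ) (hx : 0 < x) : Integrable (fun v : ℝ => gd v * Rv x v ^ k) ∧
    ∫ v : ℝ, gd v * Rv x v ^ k = x ^ (-(k / 2)) * Real.exp ((k / 2) ^ 2) := by
  obtain ⟨h1, h2⟩ := gd_int_exp (k / 2)
  have e : (fun v : ℝ => gd v * Rv x v ^ k) =
      fun v : ℝ => x ^ (-(k / 2)) * (gd v * Real.exp (k / 2 * v)) := by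
    funext v
    rw [Rv_rpow x v k hx]
    ring
  rw [e]
  exact ⟨h1.const_mul _, by rw [integral_const_mul, h2]⟩

theorem IK_int (s x : ℝ) (K : ℕ) (hx : 0 < x) :
    Integrable (fun v : ℝ => gd v * ∑ r ∈ (Finset.Icc 1 K).filter (fun r : ℕ => (r : ℝ) ≤ Rv x v),
        (r : ℝ) ^ (-s)) := by
  have h : Integrable (fun v : ℝ => ∑ r ∈ Finset.Icc 1 K, (r : ℝ) ^ (-s) *
      (Ici (Real.log (x * (r : ℝ) ^ 2))).indicator gd v) :=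
    integrable_finsetSum _ fun r _ => (gd_int.indicator measurableSet_Ici).const_mul _
  refine h.congr (Eventually.of_forall fun v => ?_)
  beta_reduce
  rw [Finset.sum_filter, Finset.mul_sum]
  refine Finset.sum_congr rfl fun r hr => ?_
  rw [Finset.mem_Icc] at hr
  by_cases h : (r : ℝ) ≤ Rv x v
  · rw [if_pos h, indicator_of_mem ((mem_iff x v r hx hr.1).2 h)]
    ring
  · rw [if_neg h, indicator_of_notMem (fun hh => h ((mem_iff x v r hx hr.1).1 hh))]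
    ring

theorem dg (A : ℝ) (hA : 0 ≤ A) : ∃ C : ℝ, 0 < C ∧ ∀ (δ x : ℝ) (K : ℕ), 0 < δ → δ ≤ 1 / 8 →
    0 < x → x ≤ 1 →
    |∑ r ∈ Finset.Icc 1 K, (r : ℝ) ^ (-(1 + 2 * δ)) * V (x * (r : ℝ) ^ 2) +
      x ^ (2 * δ) * ∑ r ∈ Finset.Icc 1 K, (r : ℝ) ^ (-(1 - 2 * δ)) * V (x * (r : ℝ) ^ 2) -
      (zr (1 + 2 * δ) + x ^ (2 * δ) * zr (1 - 2 * δ))| ≤
      C * (x ^ (1 / 2 : ℝ) + x ^ (-((1 + A) / 2)) * ((K : ℝ) + 1) ^ (-A)) := by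
  refine ⟨2 * Real.exp 1 + 2 * Real.exp (((1 + A) / 2) ^ 2), by positivity,
    fun δ x K hδ hδ' hx hx1 => ?_⟩
  obtain ⟨I1, hI1⟩ : ∃ I1 : ℝ → ℝ, I1 = fun v => ∑ r ∈ (Finset.Icc 1 K).filter
    (fun r : ℕ => (r : ℝ) ≤ Rv x v), (r : ℝ) ^ (-(1 + 2 * δ)) := ⟨_, rfl⟩
  obtain ⟨I2, hI2⟩ : ∃ I2 : ℝ → ℝ, I2 = fun v => ∑ r ∈ (Finset.Icc 1 K).filter
    (fun r : ℕ => (r : ℝ) ≤ Rv x v), (r : ℝ) ^ (-(1 - 2 * δ)) := ⟨_, rfl⟩
  have v1 : ∑ r ∈ Finset.Icc 1 K, (r : ℝ) ^ (-(1 + 2 * δ)) * V (x * (r : ℝ) ^ 2) =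
      ∫ v : ℝ, gd v * I1 v := by rw [hI1]; exact V_sum (1 + 2 * δ) x K hx
  have v2 : ∑ r ∈ Finset.Icc 1 K, (r : ℝ) ^ (-(1 - 2 * δ)) * V (x * (r : ℝ) ^ 2) =
      ∫ v : ℝ, gd v * I2 v := by rw [hI2]; exact V_sum (1 - 2 * δ) x K hx
  have i1 : Integrable (fun v => gd v * I1 v) := by rw [hI1]; exact IK_int (1 + 2 * δ) x K hx
  have i2 : Integrable (fun v => gd v * I2 v) := by rw [hI2]; exact IK_int (1 - 2 * δ) x K hx
  obtain ⟨c0, hc0⟩ : ∃ c0 : ℝ, c0 = zr (1 + 2 * δ) + x ^ (2 * δ) * zr (1 - 2 * δ) := ⟨_, rfl⟩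
  -- the main terms cancel
  obtain ⟨m1, m2⟩ := gdR x (-(2 * δ)) hx
  obtain ⟨m3, m4⟩ := gdR x (2 * δ) hx
  have hg0 := gd_int_exp 0
  have hg1 : ∫ v : ℝ, gd v = 1 := by simpa using hg0.2
  have hmain : ∫ v : ℝ, gd v * ((-(Rv x v ^ (-(2 * δ))) + x ^ (2 * δ) * Rv x v ^ (2 * δ)) /
      (2 * δ)) = 0 := by
    have e : (fun v : ℝ => gd v * ((-(Rv x v ^ (-(2 * δ))) + x ^ (2 * δ) * Rv x v ^ (2 * δ)) /
      (2 * δ))) = fun v : ℝ => -(1 / (2 * δ)) * (gd v * Rv x v ^ (-(2 * δ))) +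
        (x ^ (2 * δ) / (2 * δ)) * (gd v * Rv x v ^ (2 * δ)) := by
      funext v
      ring
    rw [e, integral_add (m1.const_mul _) (m3.const_mul _), integral_const_mul, integral_const_mul,
      m2, m4]
    have e1 : x ^ (-(-(2 * δ) / 2)) = x ^ δ := by congr 1; ring
    have e2 : x ^ (2 * δ) * x ^ (-(2 * δ / 2)) = x ^ δ := by
      rw [← Real.rpow_add hx]
      congr 1
      ring
    have e3 : (-(2 * δ) / 2) ^ 2 = (2 * δ / 2) ^ 2 := by ring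
    rw [e1, e3, show x ^ (2 * δ) / (2 * δ) * (x ^ (-(2 * δ / 2)) * Real.exp ((2 * δ / 2) ^ 2)) =
      (x ^ (2 * δ) * x ^ (-(2 * δ / 2))) * Real.exp ((2 * δ / 2) ^ 2) / (2 * δ) by ring, e2]
    ring
  have im : Integrable (fun v : ℝ => gd v * ((-(Rv x v ^ (-(2 * δ))) +
      x ^ (2 * δ) * Rv x v ^ (2 * δ)) / (2 * δ))) := by
    have e : (fun v : ℝ => gd v * ((-(Rv x v ^ (-(2 * δ))) + x ^ (2 * δ) * Rv x v ^ (2 * δ)) /
      (2 * δ))) = fun v : ℝ => -(1 / (2 * δ)) * (gd v * Rv x v ^ (-(2 * δ))) +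
        (x ^ (2 * δ) / (2 * δ)) * (gd v * Rv x v ^ (2 * δ)) := by
      funext v
      ring
    rw [e]
    exact (m1.const_mul _).add (m3.const_mul _)
  have ic : Integrable (fun v : ℝ => c0 * gd v) := gd_int.const_mul c0
  have iF : Integrable (fun v : ℝ => gd v * I1 v + x ^ (2 * δ) * (gd v * I2 v)) :=
    i1.add (i2.const_mul _)
  have iG : Integrable (fun v : ℝ => c0 * gd v + gd v * ((-(Rv x v ^ (-(2 * δ))) +
      x ^ (2 * δ) * Rv x v ^ (2 * δ)) / (2 * δ))) := ic.add im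
  have hL : ∑ r ∈ Finset.Icc 1 K, (r : ℝ) ^ (-(1 + 2 * δ)) * V (x * (r : ℝ) ^ 2) +
      x ^ (2 * δ) * ∑ r ∈ Finset.Icc 1 K, (r : ℝ) ^ (-(1 - 2 * δ)) * V (x * (r : ℝ) ^ 2) -
      (zr (1 + 2 * δ) + x ^ (2 * δ) * zr (1 - 2 * δ)) =
      ∫ v : ℝ, ((gd v * I1 v + x ^ (2 * δ) * (gd v * I2 v)) -
        (c0 * gd v + gd v * ((-(Rv x v ^ (-(2 * δ))) +
      x ^ (2 * δ) * Rv x v ^ (2 * δ)) / (2 * δ)))) := by
    rw [integral_sub iF iG, integral_add i1 (i2.const_mul _), integral_add ic im,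
      integral_const_mul, integral_const_mul, hmain, hg1, v1, v2, hc0]
    ring
  rw [hL]
  obtain ⟨k1, k2⟩ := gdR x (-(1 + 2 * δ)) hx
  obtain ⟨k3, k4⟩ := gdR x (-(1 - 2 * δ)) hx
  obtain ⟨k5, k6⟩ := gdR x (1 + A) hx
  obtain ⟨P, hP⟩ : ∃ P : ℝ, P = ((K : ℝ) + 1) ^ (-A) := ⟨_, rfl⟩
  have hP0 : 0 ≤ P := by rw [hP]; positivity
  obtain ⟨y, hy⟩ : ∃ y : ℝ, y = x ^ (2 * δ) := ⟨_, rfl⟩
  have hy0 : 0 ≤ y := by rw [hy]; positivity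
  have hy1 : y ≤ 1 := by
    rw [hy]
    exact Real.rpow_le_one hx.le hx1 (by linarith)
  have hbi : Integrable (fun v : ℝ => gd v * Rv x v ^ (-(1 + 2 * δ)) +
      (y * (gd v * Rv x v ^ (-(1 - 2 * δ))) + (2 * P) * (gd v * Rv x v ^ (1 + A)))) :=
    k1.add ((k3.const_mul _).add (k5.const_mul _))
  have hb : ∀ v : ℝ, ‖((gd v * I1 v + x ^ (2 * δ) * (gd v * I2 v)) -
        (c0 * gd v + gd v * ((-(Rv x v ^ (-(2 * δ))) +
      x ^ (2 * δ) * Rv x v ^ (2 * δ)) / (2 * δ))))‖ ≤ gd v * Rv x v ^ (-(1 + 2 * δ)) +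
      (y * (gd v * Rv x v ^ (-(1 - 2 * δ))) + (2 * P) * (gd v * Rv x v ^ (1 + A))) := by
    intro v
    have b1 := HK_bound (1 + 2 * δ) (Rv x v) A K (by linarith) (by linarith) (Rv_pos x v) hA
    have b2 := HK_bound (1 - 2 * δ) (Rv x v) A K (by linarith) (by linarith) (Rv_pos x v) hA
    have s1 : (1 : ℝ) - (1 + 2 * δ) = -(2 * δ) := by ring
    have s2 : (1 : ℝ) + 2 * δ - 1 = 2 * δ := by ring
    have s3 : (1 : ℝ) - (1 - 2 * δ) = 2 * δ := by ring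
    have s4 : (1 : ℝ) - 2 * δ - 1 = -(2 * δ) := by ring
    rw [s1, s2, ← hP] at b1
    rw [s3, s4, ← hP] at b2
    have hI1v : I1 v = ∑ n ∈ (Finset.Icc 1 K).filter (fun n : ℕ => (n : ℝ) ≤ Rv x v),
        (n : ℝ) ^ (-(1 + 2 * δ)) := by rw [hI1]
    have hI2v : I2 v = ∑ n ∈ (Finset.Icc 1 K).filter (fun n : ℕ => (n : ℝ) ≤ Rv x v),
        (n : ℝ) ^ (-(1 - 2 * δ)) := by rw [hI2]
    rw [← hI1v] at b1
    rw [← hI2v] at b2
    have hg := gd_nonneg v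
    have hR0 := (Rv_pos x v)
    obtain ⟨D1, hD1⟩ : ∃ D1 : ℝ, D1 = I1 v - (zr (1 + 2 * δ) - Rv x v ^ (-(2 * δ)) / (2 * δ)) :=
      ⟨_, rfl⟩
    obtain ⟨D2, hD2⟩ : ∃ D2 : ℝ, D2 = I2 v - (zr (1 - 2 * δ) - Rv x v ^ (2 * δ) / (-(2 * δ))) :=
      ⟨_, rfl⟩
    rw [← hD1] at b1
    rw [← hD2] at b2
    have e : (gd v * I1 v + x ^ (2 * δ) * (gd v * I2 v)) -
        (c0 * gd v + gd v * ((-(Rv x v ^ (-(2 * δ))) +
      x ^ (2 * δ) * Rv x v ^ (2 * δ)) / (2 * δ))) = gd v * (D1 + y * D2) := by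
      rw [hD1, hD2, hc0, hy]
      field_simp
      ring
    rw [e, Real.norm_eq_abs, abs_mul, abs_of_nonneg hg]
    have h5 : |D1 + y * D2| ≤ (Rv x v ^ (-(1 + 2 * δ)) + Rv x v ^ (1 + A) * P) +
        y * (Rv x v ^ (-(1 - 2 * δ)) + Rv x v ^ (1 + A) * P) := by
      refine (abs_add_le _ _).trans ?_
      rw [abs_mul, abs_of_nonneg hy0]
      gcongr
    have h6 : y * (Rv x v ^ (1 + A) * P) ≤ 1 * (Rv x v ^ (1 + A) * P) := by gcongr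
    calc gd v * |D1 + y * D2| ≤ gd v * ((Rv x v ^ (-(1 + 2 * δ)) + Rv x v ^ (1 + A) * P) +
        y * (Rv x v ^ (-(1 - 2 * δ)) + Rv x v ^ (1 + A) * P)) := by gcongr
      _ = gd v * (Rv x v ^ (-(1 + 2 * δ)) + y * Rv x v ^ (-(1 - 2 * δ)) +
          Rv x v ^ (1 + A) * P + y * (Rv x v ^ (1 + A) * P)) := by ring
      _ ≤ gd v * (Rv x v ^ (-(1 + 2 * δ)) + y * Rv x v ^ (-(1 - 2 * δ)) +
          Rv x v ^ (1 + A) * P + 1 * (Rv x v ^ (1 + A) * P)) := by gcongr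
      _ = _ := by ring
  have h7 := norm_integral_le_of_norm_le hbi (Eventually.of_forall hb)
  rw [Real.norm_eq_abs] at h7
  refine h7.trans ?_
  have k35 : Integrable (fun v : ℝ => y * (gd v * Rv x v ^ (-(1 - 2 * δ))) +
      (2 * P) * (gd v * Rv x v ^ (1 + A))) := (k3.const_mul _).add (k5.const_mul _)
  rw [integral_add k1 k35,
    integral_add (k3.const_mul _) (k5.const_mul _), integral_const_mul, integral_const_mul, k2, k4,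
    k6]
  have q1 : x ^ (-(-(1 + 2 * δ) / 2)) ≤ x ^ (1 / 2 : ℝ) := by
    apply Real.rpow_le_rpow_of_exponent_ge hx hx1
    linarith
  have q2 : y * x ^ (-(-(1 - 2 * δ) / 2)) ≤ x ^ (1 / 2 : ℝ) := by
    rw [hy, ← Real.rpow_add hx]
    apply Real.rpow_le_rpow_of_exponent_ge hx hx1
    linarith
  have q3 : Real.exp ((-(1 + 2 * δ) / 2) ^ 2) ≤ Real.exp 1 := by
    apply Real.exp_le_exp.2
    nlinarith
  have q4 : Real.exp ((-(1 - 2 * δ) / 2) ^ 2) ≤ Real.exp 1 := by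
    apply Real.exp_le_exp.2
    nlinarith
  have q5 : 0 ≤ x ^ (1 / 2 : ℝ) := by positivity
  have q6 : 0 ≤ x ^ (-((1 + A) / 2)) := by positivity
  have q7 : 0 ≤ x ^ (-(-(1 - 2 * δ) / 2)) := by positivity
  rw [← hP]
  calc x ^ (-(-(1 + 2 * δ) / 2)) * Real.exp ((-(1 + 2 * δ) / 2) ^ 2) +
      (y * (x ^ (-(-(1 - 2 * δ) / 2)) * Real.exp ((-(1 - 2 * δ) / 2) ^ 2)) +
      2 * P * (x ^ (-((1 + A) / 2)) * Real.exp (((1 + A) / 2) ^ 2)))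
      = x ^ (-(-(1 + 2 * δ) / 2)) * Real.exp ((-(1 + 2 * δ) / 2) ^ 2) +
      ((y * x ^ (-(-(1 - 2 * δ) / 2))) * Real.exp ((-(1 - 2 * δ) / 2) ^ 2) +
      2 * P * (x ^ (-((1 + A) / 2)) * Real.exp (((1 + A) / 2) ^ 2))) := by ring
    _ ≤ x ^ (1 / 2 : ℝ) * Real.exp 1 + (x ^ (1 / 2 : ℝ) * Real.exp 1 +
      2 * P * (x ^ (-((1 + A) / 2)) * Real.exp (((1 + A) / 2) ^ 2))) := by gcongr
    _ = 2 * Real.exp 1 * x ^ (1 / 2 : ℝ) + 2 * Real.exp (((1 + A) / 2) ^ 2) *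
        (x ^ (-((1 + A) / 2)) * P) := by ring
    _ ≤ (2 * Real.exp 1 + 2 * Real.exp (((1 + A) / 2) ^ 2)) * x ^ (1 / 2 : ℝ) +
        (2 * Real.exp 1 + 2 * Real.exp (((1 + A) / 2) ^ 2)) * (x ^ (-((1 + A) / 2)) * P) := by
        gcongr
        · have := Real.exp_pos (((1 + A) / 2) ^ 2)
          linarith
        · have := Real.exp_pos 1
          linarith
    _ = _ := by ring

end Pool.Agent.Zk5
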