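import Pool.Agent.Zk5.Afe3

set_option autoImplicit false

/-!
Slot B (helper5): one integration by parts.
-/

namespace Pool.Agent.Zk5

open Complex Filter Topology MeasureTheory Set
open Pool.Agent.Y969.GP

theorem osc (f f' : ℝ → ℝ) (a b l : ℝ) (hab : a ≤ b) (hl : l ≠ 0)
    (hf : ∀ x ∈ Icc a b, HasDerivAt f (f' x) x) (hf' : ContinuousOn f' (Icc a b)) :
    ‖∫ u in a..b, (f u : ℂ) * cexp (I * ((u * l : ℝ) : ℂ))‖ ≤
      (|f a| + |f b| + ∫ u in a..b, |f' u|) * |l|⁻¹ := by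
  have hlc : (l : ℂ) ≠ 0 := by exact_mod_cast hl
  have hIl : (I * l : ℂ) ≠ 0 := mul_ne_zero I_ne_zero hlc
  have hv : ∀ x ∈ uIcc a b, HasDerivAt (fun u : ℝ => cexp (I * ((u * l : ℝ) : ℂ)) / (I * l))
      (cexp (I * ((x * l : ℝ) : ℂ))) x := by
    intro x _
    have h1 : HasDerivAt (fun u : ℝ => I * ((u * l : ℝ) : ℂ)) (I * l) x := by
      have h2 : HasDerivAt (fun u : ℝ => ((u * l : ℝ) : ℂ)) ((1 * l : ℝ) : ℂ) x :=
        ((hasDerivAt_id x).mul_const l).ofReal_comp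
      rw [one_mul] at h2
      exact h2.const_mul I
    have h3 := (h1.cexp).div_const (I * l)
    rwa [mul_div_cancel_right₀ _ hIl] at h3
  have hu : ∀ x ∈ uIcc a b, HasDerivAt (fun u : ℝ => (f u : ℂ)) ((f' x : ℝ) : ℂ) x := by
    intro x hx
    rw [uIcc_of_le hab] at hx
    exact (hf x hx).ofReal_comp
  have hci : IntervalIntegrable (fun x => ((f' x : ℝ) : ℂ)) volume a b := by
    apply ContinuousOn.intervalIntegrable
    rw [uIcc_of_le hab]
    exact Complex.continuous_ofReal.comp_continuousOn hf'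
  have hce : IntervalIntegrable (fun x : ℝ => cexp (I * ((x * l : ℝ) : ℂ))) volume a b := by
    apply Continuous.intervalIntegrable
    fun_prop
  rw [intervalIntegral.integral_mul_deriv_eq_deriv_mul hu hv hci hce]
  have hn : ∀ x : ℝ, ‖cexp (I * ((x * l : ℝ) : ℂ)) / (I * l)‖ = |l|⁻¹ := by
    intro x
    rw [norm_div, norm_mul, norm_I, one_mul, norm_real, Real.norm_eq_abs, norm_exp]
    have e : (I * ((x * l : ℝ) : ℂ)).re = 0 := by simp
    rw [e, Real.exp_zero, one_div]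
  have hi : ‖∫ x in a..b, ((f' x : ℝ) : ℂ) * (cexp (I * ((x * l : ℝ) : ℂ)) / (I * l))‖ ≤
      (∫ u in a..b, |f' u|) * |l|⁻¹ := by
    refine (intervalIntegral.norm_integral_le_integral_norm hab).trans ?_
    rw [← intervalIntegral.integral_mul_const]
    apply le_of_eq
    refine intervalIntegral.integral_congr fun x _ => ?_
    beta_reduce
    rw [norm_mul, hn, norm_real, Real.norm_eq_abs]
  refine (norm_sub_le _ _).trans ?_
  have h5 : ‖(f b : ℂ) * (cexp (I * ((b * l : ℝ) : ℂ)) / (I * l)) -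
      (f a : ℂ) * (cexp (I * ((a * l : ℝ) : ℂ)) / (I * l))‖ ≤ |f b| * |l|⁻¹ + |f a| * |l|⁻¹ := by
    refine (norm_sub_le _ _).trans ?_
    rw [norm_mul, norm_mul, hn, hn, norm_real, norm_real, Real.norm_eq_abs, Real.norm_eq_abs]
  calc _ ≤ (|f b| * |l|⁻¹ + |f a| * |l|⁻¹) + (∫ u in a..b, |f' u|) * |l|⁻¹ := add_le_add h5 hi
    _ = _ := by ring

theorem V1_nonpos (x : ℝ) (hx : 0 < x) : V1 x ≤ 0 := by
  unfold V1
  have : 0 ≤ (2 * √Real.pi)⁻¹ * Real.exp (-(Real.log x) ^ 2 / 4) / x := by positivity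
  linarith

theorem V1_cont : ContinuousOn V1 (Ioi 0) := by
  unfold V1
  have h : ∀ x ∈ Ioi (0 : ℝ), x ≠ 0 := fun x hx => (ne_of_gt hx)
  have h2 : ContinuousOn Real.log (Ioi 0) := Real.continuousOn_log.mono fun x hx => h x hx
  fun_prop (disch := assumption)

/-- the weight along the height -/
noncomputable def Wv (h u : ℝ) : ℝ := V (2 * Real.pi * h / u)

noncomputable def Wv' (h u : ℝ) : ℝ := V1 (2 * Real.pi * h / u) * (-(2 * Real.pi * h) / u ^ 2)

theorem Wv_deriv (hV : S_V) (h u : ℝ) (hh : 0 < h) (hu : 0 < u) :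
    HasDerivAt (Wv h) (Wv' h u) u := by
  have hpi := Real.pi_pos
  have h1 : HasDerivAt (fun u : ℝ => 2 * Real.pi * h / u) (-(2 * Real.pi * h) / u ^ 2) u := by
    have := (hasDerivAt_const u (2 * Real.pi * h)).div (hasDerivAt_id u) hu.ne'
    simp only [id, zero_mul, zero_sub, mul_one] at this
    exact this
  have h2 := hV.2.1 (2 * Real.pi * h / u) (by positivity)
  exact HasDerivAt.comp u h2 h1

theorem Wv'_nonneg (h u : ℝ) (hh : 0 < h) (hu : 0 < u) : 0 ≤ Wv' h u := by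
  have hpi := Real.pi_pos
  have h1 := V1_nonpos (2 * Real.pi * h / u) (by positivity)
  unfold Wv'
  apply mul_nonneg_of_nonpos_of_nonpos h1
  rw [neg_div]
  have : 0 ≤ 2 * Real.pi * h / u ^ 2 := by positivity
  linarith

theorem Wv_bd (hV : S_V) (h u : ℝ) (hh : 0 < h) (hu : 0 < u) : 0 ≤ Wv h u ∧ Wv h u ≤ 1 := by
  have hpi := Real.pi_pos
  exact hV.1 _ (by positivity)

theorem Wv'_cont (h a b : ℝ) (hh : 0 < h) (ha : 0 < a) : ContinuousOn (Wv' h) (Icc a b) := by
  have hpi := Real.pi_pos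
  unfold Wv'
  have h0 : ∀ x ∈ Icc a b, x ≠ 0 := fun x hx => (ha.trans_le hx.1).ne'
  have h1 : ContinuousOn (fun u : ℝ => 2 * Real.pi * h / u) (Icc a b) := by
    fun_prop (disch := assumption)
  refine ContinuousOn.mul (V1_cont.comp h1 fun x hx => ?_) ?_
  · have : 0 < x := ha.trans_le hx.1
    show 0 < 2 * Real.pi * h / x
    positivity
  · refine ContinuousOn.div (by fun_prop) (by fun_prop) fun x hx => pow_ne_zero 2 (h0 x hx)

theorem Wv'_int (hV : S_V) (h a b : ℝ) (hh : 0 < h) (ha : 0 < a) (hab : a ≤ b) :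
    ∫ u in a..b, Wv' h u ≤ 1 := by
  have h1 : ∫ u in a..b, Wv' h u = Wv h b - Wv h a := by
    apply intervalIntegral.integral_eq_sub_of_hasDerivAt
    · intro x hx
      rw [uIcc_of_le hab] at hx
      exact Wv_deriv hV h x hh (ha.trans_le hx.1)
    · apply ContinuousOn.intervalIntegrable
      rw [uIcc_of_le hab]
      exact Wv'_cont h a b hh ha
  rw [h1]
  have := (Wv_bd hV h b hh (ha.trans_le hab)).2
  have := (Wv_bd hV h a hh ha).1
  linarith

noncomputable def tq' (δ u : ℝ) : ℝ := tq δ u * (-(2 * δ) / u)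

theorem tq_deriv (δ u : ℝ) (hu : 0 < u) : HasDerivAt (tq δ) (tq' δ u) u := by
  have hpi := Real.pi_pos
  unfold tq'
  have h1 : HasDerivAt (fun u : ℝ => u / (2 * Real.pi)) (1 / (2 * Real.pi)) u :=
    (hasDerivAt_id u).div_const _
  have h2 := ((h1.log (by positivity)).const_mul (2 * δ)).neg.exp
  have e : tq δ u * (-(2 * δ) / u) = Real.exp (-(2 * δ * Real.log (u / (2 * Real.pi)))) *
      -(2 * δ * (1 / (2 * Real.pi) / (u / (2 * Real.pi)))) := by
    unfold tq
    field_simp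
  rw [e]
  exact h2

theorem tq'_nonpos (δ u : ℝ) (hδ : 0 ≤ δ) (hu : 0 < u) : tq' δ u ≤ 0 := by
  unfold tq'
  have h1 := tq_pos δ u
  have : 0 ≤ 2 * δ / u := by positivity
  rw [neg_div]
  nlinarith

theorem tq_cont (δ a b : ℝ) (ha : 0 < a) : ContinuousOn (tq δ) (Icc a b) := fun x hx =>
  (tq_deriv δ x (ha.trans_le hx.1)).continuousAt.continuousWithinAt

theorem tq'_cont (δ a b : ℝ) (ha : 0 < a) : ContinuousOn (tq' δ) (Icc a b) := by
  unfold tq'
  refine (tq_cont δ a b ha).mul ?_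
  exact ContinuousOn.div (by fun_prop) (by fun_prop) fun x hx => (ha.trans_le hx.1).ne'

theorem tq_le_two (δ u : ℝ) (hu : 1 ≤ u) (hδ : 0 ≤ δ) (hδ' : δ ≤ 1 / 8) : tq δ u ≤ 2 := by
  refine (tq_le δ u hu hδ hδ').trans ?_
  have : u ^ (-(2 * δ)) ≤ 1 := Real.rpow_le_one_of_one_le_of_nonpos hu (by linarith)
  linarith

theorem cod_osc (hV : S_V) (δ T l : ℝ) (p : ℕ × ℕ) (hT : 1 ≤ T) (hδ : 0 ≤ δ) (hδ' : δ ≤ 1 / 8)
    (hl : l ≠ 0) (h1 : 1 ≤ p.1) (h2 : 1 ≤ p.2) :
    ‖∫ u in T..(2 * T), (cod δ u p : ℂ) * cexp (I * ((u * l : ℝ) : ℂ))‖ ≤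
      11 * ht p ^ (-(1 / 2) + δ) * |l|⁻¹ := by
  have m0 : (1 : ℝ) ≤ p.1 := by exact_mod_cast h1
  have k0 : (1 : ℝ) ≤ p.2 := by exact_mod_cast h2
  have hh1 : 1 ≤ ht p := by unfold ht; nlinarith
  have hh : 0 < ht p := by linarith
  have hT0 : 0 < T := by linarith
  have hab : T ≤ 2 * T := by linarith
  have hne : ¬ (p.1 = 0 ∨ p.2 = 0) := by omega
  obtain ⟨α, hα⟩ : ∃ α : ℝ, α = ht p ^ (-(1 / 2) - δ) := ⟨_, rfl⟩
  obtain ⟨β, hβ⟩ : ∃ β : ℝ, β = ht p ^ (-(1 / 2) + δ) := ⟨_, rfl⟩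
  have hα0 : 0 ≤ α := by rw [hα]; positivity
  have hβ0 : 0 ≤ β := by rw [hβ]; positivity
  have hαβ : α ≤ β := by
    rw [hα, hβ]
    apply Real.rpow_le_rpow_of_exponent_le hh1
    linarith
  obtain ⟨f, hf⟩ : ∃ f : ℝ → ℝ, f = fun u => α * Wv (ht p) u + β * (tq δ u * Wv (ht p) u) :=
    ⟨_, rfl⟩
  obtain ⟨f', hf'⟩ : ∃ f' : ℝ → ℝ, f' = fun u => α * Wv' (ht p) u +
    β * (tq' δ u * Wv (ht p) u + tq δ u * Wv' (ht p) u) := ⟨_, rfl⟩
  have e1 : ∀ u, cod δ u p = f u := by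
    intro u
    rw [hf]
    unfold cod TC Wv
    rw [if_neg hne, if_neg hne, hα, hβ, sub_neg_eq_add]
    ring
  have e2 : (∫ u in T..(2 * T), (cod δ u p : ℂ) * cexp (I * ((u * l : ℝ) : ℂ))) =
      ∫ u in T..(2 * T), (f u : ℂ) * cexp (I * ((u * l : ℝ) : ℂ)) := by
    refine intervalIntegral.integral_congr fun u _ => ?_
    beta_reduce
    rw [e1 u]
  rw [e2]
  have hpos : ∀ x ∈ Icc T (2 * T), 0 < x := fun x hx => hT0.trans_le hx.1
  have hone : ∀ x ∈ Icc T (2 * T), 1 ≤ x := fun x hx => hT.trans hx.1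
  have cW : ContinuousOn (Wv (ht p)) (Icc T (2 * T)) := fun x hx =>
    (Wv_deriv hV (ht p) x hh (hpos x hx)).continuousAt.continuousWithinAt
  have cW' := Wv'_cont (ht p) T (2 * T) hh hT0
  have ct := tq_cont δ T (2 * T) hT0
  have ct' := tq'_cont δ T (2 * T) hT0
  have hfd : ∀ x ∈ Icc T (2 * T), HasDerivAt f (f' x) x := by
    intro x hx
    rw [hf, hf']
    have w := Wv_deriv hV (ht p) x hh (hpos x hx)
    have t := tq_deriv δ x (hpos x hx)
    exact (w.const_mul α).add ((t.mul w).const_mul β)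
  have hfc : ContinuousOn f' (Icc T (2 * T)) := by
    rw [hf']
    exact (continuousOn_const.mul cW').add (continuousOn_const.mul ((ct'.mul cW).add (ct.mul cW')))
  have hfb : ∀ x ∈ Icc T (2 * T), |f x| ≤ 3 * β := by
    intro x hx
    obtain ⟨w1, w2⟩ := Wv_bd hV (ht p) x hh (hpos x hx)
    have t1 := (tq_pos δ x).le
    have t2 := tq_le_two δ x (hone x hx) hδ hδ'
    rw [hf]
    simp only
    rw [abs_of_nonneg (by positivity)]
    have : tq δ x * Wv (ht p) x ≤ 2 * 1 := by gcongr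
    nlinarith
  have hfi : ∫ u in T..(2 * T), |f' u| ≤ 5 * β := by
    have i1 : IntervalIntegrable (Wv' (ht p)) volume T (2 * T) := by
      apply ContinuousOn.intervalIntegrable
      rw [uIcc_of_le hab]
      exact cW'
    have i2 : IntervalIntegrable (tq' δ) volume T (2 * T) := by
      apply ContinuousOn.intervalIntegrable
      rw [uIcc_of_le hab]
      exact ct'
    have i3 : IntervalIntegrable (fun u => |f' u|) volume T (2 * T) := by
      apply ContinuousOn.intervalIntegrable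
      rw [uIcc_of_le hab]
      exact hfc.abs
    have g1 : ∫ u in T..(2 * T), |f' u| ≤
        ∫ u in T..(2 * T), (3 * β * Wv' (ht p) u + -β * tq' δ u) := by
      apply intervalIntegral.integral_mono_on hab i3
      · exact (i1.const_mul (3 * β)).add (i2.const_mul (-β))
      · intro x hx
        obtain ⟨w1, w2⟩ := Wv_bd hV (ht p) x hh (hpos x hx)
        have w3 := Wv'_nonneg (ht p) x hh (hpos x hx)
        have t1 := (tq_pos δ x).le
        have t2 := tq_le_two δ x (hone x hx) hδ hδ'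
        have t3 := tq'_nonpos δ x hδ (hpos x hx)
        rw [hf']
        simp only
        rw [abs_le]
        have a1 : 0 ≤ α * Wv' (ht p) x := by positivity
        have a2 : α * Wv' (ht p) x ≤ β * Wv' (ht p) x := by gcongr
        have a3 : tq δ x * Wv' (ht p) x ≤ 2 * Wv' (ht p) x := by gcongr
        have a4 : 0 ≤ tq δ x * Wv' (ht p) x := by positivity
        have a5 : tq' δ x * Wv (ht p) x ≤ 0 := mul_nonpos_of_nonpos_of_nonneg t3 w1
        have a6 : tq' δ x ≤ tq' δ x * Wv (ht p) x := by nlinarith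
        constructor
        · nlinarith
        · nlinarith
    have g2 : ∫ u in T..(2 * T), (3 * β * Wv' (ht p) u + -β * tq' δ u) =
        3 * β * (∫ u in T..(2 * T), Wv' (ht p) u) + -β * ∫ u in T..(2 * T), tq' δ u := by
      rw [intervalIntegral.integral_add (i1.const_mul (3 * β)) (i2.const_mul (-β)),
        intervalIntegral.integral_const_mul, intervalIntegral.integral_const_mul]
    have g3 := Wv'_int hV (ht p) T (2 * T) hh hT0 hab
    have g4 : ∫ u in T..(2 * T), tq' δ u = tq δ (2 * T) - tq δ T := by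
      apply intervalIntegral.integral_eq_sub_of_hasDerivAt
      · intro x hx
        rw [uIcc_of_le hab] at hx
        exact tq_deriv δ x (hpos x hx)
      · exact i2
    have g5 := (tq_pos δ (2 * T)).le
    have g6 := tq_le_two δ T hT hδ hδ'
    rw [g2, g4] at g1
    nlinarith
  have hmain := osc f f' T (2 * T) l hab hl hfd hfc
  refine hmain.trans ?_
  have q1 := hfb T ⟨le_rfl, hab⟩
  have q2 := hfb (2 * T) ⟨hab, le_rfl⟩
  apply mul_le_mul_of_nonneg_right _ (by positivity)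
  linarith

end Pool.Agent.Zk5
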