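import Pool.Agent.Zk5.Dia2
import Pool.Agent.Zk5.Osc

set_option autoImplicit false

namespace Pool.Agent.Zk5

open Finset
open Pool.Agent.Y969.GP (ht lam PS V S_V)

/-- parametrisation of the diagonal -/
theorem diag_param (X h k : ℕ) (hh : 1 ≤ h) (hk : 1 ≤ k) (F : ℕ × ℕ → ℝ) :
    ∑ p ∈ (PS X).filter (fun p => p.1 * h = p.2 * k), F p =
      ∑ r ∈ Icc 1 (Nat.sqrt (X / ((h / Nat.gcd h k) * (k / Nat.gcd h k)))),
        F ((k / Nat.gcd h k) * r, (h / Nat.gcd h k) * r) := by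
  obtain ⟨g, hg⟩ : ∃ g : ℕ, g = Nat.gcd h k := ⟨_, rfl⟩
  have hg0 : 0 < g := by rw [hg]; exact Nat.gcd_pos_of_pos_left k hh
  obtain ⟨a, ha⟩ : ∃ a : ℕ, a = h / g := ⟨_, rfl⟩
  obtain ⟨b, hb⟩ : ∃ b : ℕ, b = k / g := ⟨_, rfl⟩
  have hha : h = g * a := by
    rw [ha]; exact (Nat.mul_div_cancel' (by rw [hg]; exact Nat.gcd_dvd_left h k)).symm
  have hkb : k = g * b := by
    rw [hb]; exact (Nat.mul_div_cancel' (by rw [hg]; exact Nat.gcd_dvd_right h k)).symm
  have ha0 : 0 < a := by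
    rcases Nat.eq_zero_or_pos a with h0 | h0
    · rw [h0] at hha; omega
    · exact h0
  have hb0 : 0 < b := by
    rcases Nat.eq_zero_or_pos b with h0 | h0
    · rw [h0] at hkb; omega
    · exact h0
  have hcop : Nat.Coprime a b := by
    rw [ha, hb, hg]
    exact Nat.coprime_div_gcd_div_gcd (by rw [← hg]; exact hg0)
  rw [← hg, ← ha, ← hb]
  have hab : 0 < a * b := Nat.mul_pos ha0 hb0
  refine Finset.sum_nbij' (fun p => p.1 / b) (fun r => (b * r, a * r)) ?_ ?_ ?_ ?_ ?_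
  · intro p hp
    rw [mem_filter] at hp
    obtain ⟨hp1, hp2⟩ := hp
    unfold PS at hp1
    rw [mem_filter, mem_product, mem_Icc, mem_Icc] at hp1
    obtain ⟨⟨⟨a1, _⟩, ⟨a2, _⟩⟩, a3⟩ := hp1
    have e1 : p.1 * a = p.2 * b := by
      have : g * (p.1 * a) = g * (p.2 * b) := by
        calc g * (p.1 * a) = p.1 * (g * a) := by ring
          _ = p.2 * (g * b) := by rw [← hha, ← hkb]; exact hp2
          _ = _ := by ring
      exact Nat.eq_of_mul_eq_mul_left hg0 this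
    have hdvd : b ∣ p.1 := by
      have h1 : b ∣ p.1 * a := by rw [e1]; exact Dvd.intro_left _ rfl
      exact (Nat.Coprime.dvd_of_dvd_mul_right hcop.symm h1)
    obtain ⟨r, hr⟩ := hdvd
    have e2 : p.2 = a * r := by
      rw [hr] at e1
      have : b * (a * r) = b * p.2 := by
        calc b * (a * r) = b * r * a := by ring
          _ = p.2 * b := e1
          _ = b * p.2 := by ring
      exact (Nat.eq_of_mul_eq_mul_left hb0 this).symm
    have hr1 : 1 ≤ r := by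
      rcases Nat.eq_zero_or_pos r with h0 | h0
      · rw [h0] at hr; omega
      · exact h0
    rw [mem_Icc, hr, Nat.mul_div_cancel_left r hb0]
    refine ⟨hr1, ?_⟩
    rw [Nat.le_sqrt, Nat.le_div_iff_mul_le hab]
    calc r * r * (a * b) = (b * r) * (a * r) := by ring
      _ = p.1 * p.2 := by rw [hr, e2]
      _ ≤ X := a3
  · intro r hr
    rw [mem_Icc, Nat.le_sqrt, Nat.le_div_iff_mul_le hab] at hr
    rw [mem_filter]
    unfold PS
    rw [mem_filter, mem_product, mem_Icc, mem_Icc]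
    have h1 : b * r * (a * r) ≤ X := by
      calc b * r * (a * r) = r * r * (a * b) := by ring
        _ ≤ X := hr.2
    have h2 : 1 ≤ b * r := Nat.mul_pos hb0 hr.1
    have h3 : 1 ≤ a * r := Nat.mul_pos ha0 hr.1
    refine ⟨⟨⟨⟨h2, (Nat.le_mul_of_pos_right _ h3).trans h1⟩,
      ⟨h3, (Nat.le_mul_of_pos_left _ h2).trans h1⟩⟩, h1⟩, ?_⟩
    simp only
    rw [hha, hkb]
    ring
  · intro p hp
    rw [mem_filter] at hp
    obtain ⟨hp1, hp2⟩ := hp
    have e1 : p.1 * a = p.2 * b := by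
      have : g * (p.1 * a) = g * (p.2 * b) := by
        calc g * (p.1 * a) = p.1 * (g * a) := by ring
          _ = p.2 * (g * b) := by rw [← hha, ← hkb]; exact hp2
          _ = _ := by ring
      exact Nat.eq_of_mul_eq_mul_left hg0 this
    have hdvd : b ∣ p.1 := by
      have h1 : b ∣ p.1 * a := by rw [e1]; exact Dvd.intro_left _ rfl
      exact (Nat.Coprime.dvd_of_dvd_mul_right hcop.symm h1)
    obtain ⟨r, hr⟩ := hdvd
    have e2 : p.2 = a * r := by
      rw [hr] at e1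
      have : b * (a * r) = b * p.2 := by
        calc b * (a * r) = b * r * a := by ring
          _ = p.2 * b := e1
          _ = b * p.2 := by ring
      exact (Nat.eq_of_mul_eq_mul_left hb0 this).symm
    have e3 : p.1 / b = r := by rw [hr, Nat.mul_div_cancel_left r hb0]
    rw [e3]
    ext
    · exact hr.symm
    · exact e2.symm
  · intro r _
    simp only
    rw [Nat.mul_div_cancel_left r hb0]
  · intro p hp
    rw [mem_filter] at hp
    obtain ⟨hp1, hp2⟩ := hp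
    have e1 : p.1 * a = p.2 * b := by
      have : g * (p.1 * a) = g * (p.2 * b) := by
        calc g * (p.1 * a) = p.1 * (g * a) := by ring
          _ = p.2 * (g * b) := by rw [← hha, ← hkb]; exact hp2
          _ = _ := by ring
      exact Nat.eq_of_mul_eq_mul_left hg0 this
    have hdvd : b ∣ p.1 := by
      have h1 : b ∣ p.1 * a := by rw [e1]; exact Dvd.intro_left _ rfl
      exact (Nat.Coprime.dvd_of_dvd_mul_right hcop.symm h1)
    obtain ⟨r, hr⟩ := hdvd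
    have e2 : p.2 = a * r := by
      rw [hr] at e1
      have : b * (a * r) = b * p.2 := by
        calc b * (a * r) = b * r * a := by ring
          _ = p.2 * b := e1
          _ = b * p.2 := by ring
      exact (Nat.eq_of_mul_eq_mul_left hb0 this).symm
    have e3 : p.1 / b = r := by rw [hr, Nat.mul_div_cancel_left r hb0]
    rw [e3]
    congr 1
    ext
    · exact hr
    · exact e2

/-- the value of the sum over the diagonal for one pair `(h, k)` -/
theorem diag_one (ε : ℝ) (hε : 0 < ε) : ∃ C : ℝ, 0 < C ∧ ∀ (δ u : ℝ) (X h k : ℕ),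
    0 < δ → δ ≤ 1 / 8 → 1 ≤ u → u ^ (1 + ε) ≤ X → 1 ≤ h → 1 ≤ k →
    2 * Real.pi * ((h : ℝ) * k) ≤ u →
    |∑ p ∈ (PS X).filter (fun p => p.1 * h = p.2 * k), cod δ u p -
      (zr (1 + 2 * δ) * (((h : ℝ) * k) / (Nat.gcd h k : ℝ) ^ 2) ^ (-(1 / 2) - δ) +
        tq δ u * zr (1 - 2 * δ) * (((h : ℝ) * k) / (Nat.gcd h k : ℝ) ^ 2) ^ (-(1 / 2) + δ))| ≤
      C * u ^ (-(1 / 2) : ℝ) := by
  obtain ⟨A, hA⟩ : ∃ A : ℝ, A = 4 / ε := ⟨_, rfl⟩
  have hA0 : 0 < A := by rw [hA]; positivity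
  obtain ⟨C, hC, hdg⟩ := dg A hA0.le
  refine ⟨6 * C, by positivity, fun δ u X h k hδ hδ' hu hX hh hk hhk => ?_⟩
  rw [diag_param X h k hh hk]
  obtain ⟨g, hg⟩ : ∃ g : ℕ, g = Nat.gcd h k := ⟨_, rfl⟩
  have hg0 : 0 < g := by rw [hg]; exact Nat.gcd_pos_of_pos_left k hh
  obtain ⟨a, ha⟩ : ∃ a : ℕ, a = h / g := ⟨_, rfl⟩
  obtain ⟨b, hb⟩ : ∃ b : ℕ, b = k / g := ⟨_, rfl⟩
  have hha : h = g * a := by
    rw [ha]; exact (Nat.mul_div_cancel' (by rw [hg]; exact Nat.gcd_dvd_left h k)).symm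
  have hkb : k = g * b := by
    rw [hb]; exact (Nat.mul_div_cancel' (by rw [hg]; exact Nat.gcd_dvd_right h k)).symm
  have ha0 : 0 < a := by
    rcases Nat.eq_zero_or_pos a with h0 | h0
    · rw [h0] at hha; omega
    · exact h0
  have hb0 : 0 < b := by
    rcases Nat.eq_zero_or_pos b with h0 | h0
    · rw [h0] at hkb; omega
    · exact h0
  rw [← hg, ← ha, ← hb]
  obtain ⟨q, hq⟩ : ∃ q : ℝ, q = (a : ℝ) * b := ⟨_, rfl⟩
  have har : (1 : ℝ) ≤ a := by exact_mod_cast ha0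
  have hbr : (1 : ℝ) ≤ b := by exact_mod_cast hb0
  have hgr : (1 : ℝ) ≤ g := by exact_mod_cast hg0
  have hq1 : 1 ≤ q := by rw [hq]; nlinarith
  have hq0 : 0 < q := by linarith
  have hqe : ((h : ℝ) * k) / (g : ℝ) ^ 2 = q := by
    rw [hha, hkb, hq]
    push_cast
    field_simp
  rw [hqe]
  have hpi := Real.pi_gt_three
  have hu0 : 0 < u := by linarith
  obtain ⟨x, hx⟩ : ∃ x : ℝ, x = 2 * Real.pi * q / u := ⟨_, rfl⟩
  have hx0 : 0 < x := by rw [hx]; positivity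
  have hqhk : q ≤ (h : ℝ) * k := by
    rw [← hqe]
    apply div_le_self (by positivity)
    exact one_le_pow₀ hgr
  have hx1 : x ≤ 1 := by
    rw [hx, div_le_one hu0]
    calc 2 * Real.pi * q ≤ 2 * Real.pi * ((h : ℝ) * k) := by gcongr
      _ ≤ u := hhk
  obtain ⟨K, hK⟩ : ∃ K : ℕ, K = Nat.sqrt (X / (a * b)) := ⟨_, rfl⟩
  rw [← hK]
  have htqx : x ^ (2 * δ) = q ^ (2 * δ) * tq δ u := by
    rw [hx, show 2 * Real.pi * q / u = q * (u / (2 * Real.pi))⁻¹ by field_simp,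
      Real.mul_rpow hq0.le (by positivity), Real.inv_rpow (by positivity)]
    congr 1
    unfold tq
    rw [← Real.rpow_neg (by positivity), Real.rpow_def_of_pos (by positivity)]
    congr 1
    ring
  -- the terms
  have hterm : ∀ r ∈ Icc 1 K, cod δ u (b * r, a * r) =
      q ^ (-(1 / 2) - δ) * ((r : ℝ) ^ (-(1 + 2 * δ)) * V (x * (r : ℝ) ^ 2)) +
      q ^ (-(1 / 2) - δ) * (x ^ (2 * δ) * ((r : ℝ) ^ (-(1 - 2 * δ)) * V (x * (r : ℝ) ^ 2))) := by
    intro r hr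
    rw [mem_Icc] at hr
    have hr0 : (0 : ℝ) < r := by exact_mod_cast hr.1
    have hne : ¬ (b * r = 0 ∨ a * r = 0) := by
      rintro (h0 | h0)
      · have := Nat.mul_pos hb0 hr.1; omega
      · have := Nat.mul_pos ha0 hr.1; omega
    have hhtr : ht (b * r, a * r) = q * (r : ℝ) ^ 2 := by
      unfold ht
      simp only
      push_cast
      rw [hq]
      ring
    unfold cod TC
    simp only
    rw [if_neg hne, if_neg hne, hhtr, sub_neg_eq_add,
      show 2 * Real.pi * (q * (r : ℝ) ^ 2) / u = x * (r : ℝ) ^ 2 by rw [hx]; ring,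
      Real.mul_rpow hq0.le (by positivity), Real.mul_rpow hq0.le (by positivity)]
    have e1 : ((r : ℝ) ^ 2) ^ (-(1 / 2) - δ) = (r : ℝ) ^ (-(1 + 2 * δ)) := by
      rw [← Real.rpow_natCast, ← Real.rpow_mul hr0.le]
      congr 1
      push_cast
      ring
    have e2 : ((r : ℝ) ^ 2) ^ (-(1 / 2) + δ) = (r : ℝ) ^ (-(1 - 2 * δ)) := by
      rw [← Real.rpow_natCast, ← Real.rpow_mul hr0.le]
      congr 1
      push_cast
      ring
    have e3 : q ^ (-(1 / 2) + δ) = q ^ (-(1 / 2) - δ) * q ^ (2 * δ) := by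
      rw [← Real.rpow_add hq0]
      congr 1
      ring
    rw [e1, e2, e3, htqx]
    ring
  rw [Finset.sum_congr rfl hterm, Finset.sum_add_distrib, ← Finset.mul_sum, ← Finset.mul_sum,
    ← Finset.mul_sum]
  have hd := hdg δ x K hδ hδ' hx0 hx1
  have e3 : q ^ (-(1 / 2) + δ) = q ^ (-(1 / 2) - δ) * q ^ (2 * δ) := by
    rw [← Real.rpow_add hq0]
    congr 1
    ring
  obtain ⟨S1, hS1⟩ : ∃ S1 : ℝ, S1 = ∑ r ∈ Icc 1 K, (r : ℝ) ^ (-(1 + 2 * δ)) *
    V (x * (r : ℝ) ^ 2) := ⟨_, rfl⟩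
  obtain ⟨S2, hS2⟩ : ∃ S2 : ℝ, S2 = ∑ r ∈ Icc 1 K, (r : ℝ) ^ (-(1 - 2 * δ)) *
    V (x * (r : ℝ) ^ 2) := ⟨_, rfl⟩
  rw [← hS1, ← hS2] at hd ⊢
  have e4 : q ^ (-(1 / 2) - δ) * S1 + q ^ (-(1 / 2) - δ) * (x ^ (2 * δ) * S2) -
      (zr (1 + 2 * δ) * q ^ (-(1 / 2) - δ) + tq δ u * zr (1 - 2 * δ) * q ^ (-(1 / 2) + δ)) =
      q ^ (-(1 / 2) - δ) * (S1 + x ^ (2 * δ) * S2 -
        (zr (1 + 2 * δ) + x ^ (2 * δ) * zr (1 - 2 * δ))) := by
    rw [e3, htqx]
    ring
  have hqp : 0 ≤ q ^ (-(1 / 2) - δ) := by positivity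
  rw [e4, abs_mul, abs_of_nonneg hqp]
  -- the tail term
  have hKX : (X : ℝ) / q ≤ ((K : ℝ) + 1) ^ 2 := by
    have h1 : X / (a * b) < (K + 1) * (K + 1) := by
      rw [hK]; exact Nat.lt_succ_sqrt _
    have h2 : X < (K + 1) * (K + 1) * (a * b) := (Nat.div_lt_iff_lt_mul (Nat.mul_pos ha0 hb0)).1 h1
    have h3 : (X : ℝ) < ((K : ℝ) + 1) * (K + 1) * (a * b) := by exact_mod_cast h2
    rw [div_le_iff₀ hq0, hq]
    nlinarith
  have hX0 : 0 < (X : ℝ) := lt_of_lt_of_le (by positivity) hX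
  have htail : x ^ (-((1 + A) / 2)) * ((K : ℝ) + 1) ^ (-A) ≤ x ^ (1 / 2 : ℝ) := by
    have hK1 : (0 : ℝ) < (K : ℝ) + 1 := by positivity
    have e5 : ((K : ℝ) + 1) ^ (-A) = (((K : ℝ) + 1) ^ 2) ^ (-(A / 2)) := by
      rw [← Real.rpow_natCast, ← Real.rpow_mul hK1.le]
      congr 1
      push_cast
      ring
    have e6 : (((K : ℝ) + 1) ^ 2) ^ (-(A / 2)) ≤ ((X : ℝ) / q) ^ (-(A / 2)) :=
      Real.rpow_le_rpow_of_nonpos (by positivity) hKX (by linarith)
    have e7 : x ^ (-((1 + A) / 2)) = x ^ (-(1 / 2) : ℝ) * x ^ (-(A / 2)) := by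
      rw [← Real.rpow_add hx0]
      congr 1
      ring
    have e8 : x ^ (-(A / 2)) * ((X : ℝ) / q) ^ (-(A / 2)) = (2 * Real.pi * (X / u)) ^ (-(A / 2)) := by
      rw [← Real.mul_rpow hx0.le (by positivity)]
      congr 1
      rw [hx]
      field_simp
    have e9 : (2 * Real.pi * (X / u)) ^ (-(A / 2)) ≤ (u ^ ε) ^ (-(A / 2)) := by
      apply Real.rpow_le_rpow_of_nonpos (by positivity) _ (by linarith)
      have : u ^ ε ≤ X / u := by
        rw [le_div_iff₀ hu0]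
        calc u ^ ε * u = u ^ (1 + ε) := by rw [Real.rpow_add hu0, Real.rpow_one]; ring
          _ ≤ X := hX
      have h0 : 0 ≤ (X : ℝ) / u := by positivity
      nlinarith
    have e10 : (u ^ ε) ^ (-(A / 2)) = u ^ (-2 : ℝ) := by
      rw [← Real.rpow_mul hu0.le]
      congr 1
      rw [hA]
      field_simp
      norm_num
    have e11 : u ^ (-2 : ℝ) ≤ x := by
      rw [hx, le_div_iff₀ hu0]
      calc u ^ (-2 : ℝ) * u = u ^ (-1 : ℝ) := by
            nth_rewrite 2 [← Real.rpow_one u]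
            rw [← Real.rpow_add hu0]
            norm_num
        _ ≤ 1 := Real.rpow_le_one_of_one_le_of_nonpos hu (by norm_num)
        _ ≤ 2 * Real.pi * q := by nlinarith
    calc x ^ (-((1 + A) / 2)) * ((K : ℝ) + 1) ^ (-A)
        ≤ x ^ (-((1 + A) / 2)) * ((X : ℝ) / q) ^ (-(A / 2)) := by
          rw [e5]
          gcongr
      _ = x ^ (-(1 / 2) : ℝ) * (x ^ (-(A / 2)) * ((X : ℝ) / q) ^ (-(A / 2))) := by
          rw [e7]; ring
      _ ≤ x ^ (-(1 / 2) : ℝ) * x := by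
          rw [e8]
          gcongr
          exact e9.trans (e10.le.trans e11)
      _ = x ^ (1 / 2 : ℝ) := by
          nth_rewrite 2 [← Real.rpow_one x]
          rw [← Real.rpow_add hx0]
          norm_num
  have hxh : 0 ≤ x ^ (1 / 2 : ℝ) := by positivity
  calc q ^ (-(1 / 2) - δ) * |S1 + x ^ (2 * δ) * S2 -
        (zr (1 + 2 * δ) + x ^ (2 * δ) * zr (1 - 2 * δ))|
      ≤ q ^ (-(1 / 2) - δ) * (C * (x ^ (1 / 2 : ℝ) + x ^ (-((1 + A) / 2)) *
        ((K : ℝ) + 1) ^ (-A))) := by gcongr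
    _ ≤ q ^ (-(1 / 2) : ℝ) * (C * (x ^ (1 / 2 : ℝ) + x ^ (1 / 2 : ℝ))) := by
        gcongr
        linarith
    _ = 2 * C * (q ^ (-(1 / 2) : ℝ) * x ^ (1 / 2 : ℝ)) := by ring
    _ = 2 * C * ((2 * Real.pi) ^ (1 / 2 : ℝ) * u ^ (-(1 / 2) : ℝ)) := by
        congr 1
        rw [hx, Real.div_rpow (by positivity) hu0.le, Real.mul_rpow (by positivity) hq0.le,
          Real.rpow_neg hu0.le, Real.rpow_neg hq0.le]
        field_simp
    _ ≤ 2 * C * (3 * u ^ (-(1 / 2) : ℝ)) := by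
        have : (2 * Real.pi) ^ (1 / 2 : ℝ) ≤ 3 := by
          rw [← Real.sqrt_eq_rpow]
          apply Real.sqrt_le_iff.2 ⟨by norm_num, ?_⟩
          have := Real.pi_lt_four
          linarith
        gcongr
    _ = _ := by ring

end Pool.Agent.Zk5
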