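import Pool.Agent.Zk5.Dia3

set_option autoImplicit false

namespace Pool.Agent.Zk5

open Finset
open Pool.Agent.Y969.GP (ht lam PS V S_V)

/-- first quadratic form -/
noncomputable def S1 (b : ℕ → ℝ) (N : ℕ) (δ : ℝ) : ℝ :=
  ∑ q ∈ Icc 1 N ×ˢ Icc 1 N, b q.1 * b q.2 * ((Nat.gcd q.1 q.2 : ℝ) ^ (1 + 2 * δ) *
    ((q.1 : ℝ) * q.2) ^ (-(1 + 2 * δ)))

/-- second quadratic form -/
noncomputable def S2 (b : ℕ → ℝ) (N : ℕ) (δ : ℝ) : ℝ :=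
  ∑ q ∈ Icc 1 N ×ˢ Icc 1 N, b q.1 * b q.2 * ((Nat.gcd q.1 q.2 : ℝ) ^ (1 - 2 * δ) *
    ((q.1 : ℝ) * q.2)⁻¹)

theorem sum_inv_sqrt (N : ℕ) : ∑ r ∈ Icc 1 N, (√(r : ℝ))⁻¹ ≤ 2 * √(N : ℝ) := by
  induction N with
  | zero => simp
  | succ k ih =>
    rw [Finset.sum_Icc_succ_top (by omega)]
    have h4 : (√((k : ℝ) + 1))⁻¹ ≤ 2 * (√((k : ℝ) + 1) - √(k : ℝ)) := by
      have h5 : 0 < √((k : ℝ) + 1) := Real.sqrt_pos.2 (by positivity)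
      have h6 : 0 ≤ √(k : ℝ) := Real.sqrt_nonneg _
      have h7 : √((k : ℝ) + 1) * √((k : ℝ) + 1) = k + 1 :=
        Real.mul_self_sqrt (by positivity)
      have h8 : √(k : ℝ) * √(k : ℝ) = k := Real.mul_self_sqrt (by positivity)
      rw [inv_le_iff_one_le_mul₀ h5]
      nlinarith [sq_nonneg (√((k : ℝ) + 1) - √(k : ℝ))]
    push_cast
    linarith

theorem sum_pairs_le (N : ℕ) (δ : ℝ) (hδ : 0 ≤ δ) :
    ∑ q ∈ Icc 1 N ×ˢ Icc 1 N, ((q.1 : ℝ) * q.2) ^ (-(1 / 2) - δ) ≤ 4 * N := by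
  have h1 : ∀ q ∈ Icc 1 N ×ˢ Icc 1 N, ((q.1 : ℝ) * q.2) ^ (-(1 / 2) - δ) ≤
      (√(q.1 : ℝ))⁻¹ * (√(q.2 : ℝ))⁻¹ := by
    intro q hq
    rw [mem_product, mem_Icc, mem_Icc] at hq
    have h1 : (1 : ℝ) ≤ q.1 := by exact_mod_cast hq.1.1
    have h2 : (1 : ℝ) ≤ q.2 := by exact_mod_cast hq.2.1
    have h3 : (1 : ℝ) ≤ (q.1 : ℝ) * q.2 := by nlinarith
    calc ((q.1 : ℝ) * q.2) ^ (-(1 / 2) - δ) ≤ ((q.1 : ℝ) * q.2) ^ (-(1 / 2) : ℝ) := by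
          apply Real.rpow_le_rpow_of_exponent_le h3
          linarith
      _ = _ := by
          rw [Real.rpow_neg (by positivity), ← Real.sqrt_eq_rpow, Real.sqrt_mul (by positivity),
            mul_inv]
  refine (Finset.sum_le_sum h1).trans ?_
  rw [Finset.sum_product]
  simp only
  rw [← Finset.sum_mul_sum]
  have h2 := sum_inv_sqrt N
  have h3 : 0 ≤ ∑ r ∈ Icc 1 N, (√(r : ℝ))⁻¹ := Finset.sum_nonneg fun r _ => by positivity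
  have h4 : √(N : ℝ) * √(N : ℝ) = N := Real.mul_self_sqrt (by positivity)
  calc (∑ r ∈ Icc 1 N, (√(r : ℝ))⁻¹) * ∑ r ∈ Icc 1 N, (√(r : ℝ))⁻¹
      ≤ (2 * √(N : ℝ)) * (2 * √(N : ℝ)) := by gcongr
    _ = 4 * (√(N : ℝ) * √(N : ℝ)) := by ring
    _ = 4 * N := by rw [h4]

theorem gy (y g a c : ℝ) (hy : 0 < y) (hg : 0 < g) :
    y ^ a * (y / g ^ 2) ^ c = g ^ (-(2 * c)) * y ^ (a + c) := by
  rw [Real.div_rpow hy.le (by positivity), Real.rpow_add hy, Real.rpow_neg hg.le]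
  have e : (g ^ 2) ^ c = g ^ (2 * c) := by
    rw [← Real.rpow_natCast, ← Real.rpow_mul hg.le]
    push_cast
    rfl
  rw [e]
  field_simp

/-- the diagonal part -/
noncomputable def DD (b : ℕ → ℝ) (X N : ℕ) (δ u : ℝ) : ℝ :=
  ∑ q ∈ Icc 1 N ×ˢ Icc 1 N, (b q.1 * b q.2 * ((q.1 : ℝ) * q.2) ^ (-(1 / 2) - δ)) *
    ∑ p ∈ (PS X).filter (fun p => p.1 * q.1 = p.2 * q.2), cod δ u p

theorem DD_eq (ε : ℝ) (hε : 0 < ε) : ∃ C : ℝ, 0 < C ∧ ∀ (b : ℕ → ℝ) (δ u : ℝ) (X N : ℕ),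
    (∀ n, |b n| ≤ 1) → 0 < δ → δ ≤ 1 / 8 → 1 ≤ u → u ^ (1 + ε) ≤ X →
    2 * Real.pi * ((N : ℝ) * N) ≤ u →
    |DD b X N δ u - (zr (1 + 2 * δ) * S1 b N δ + tq δ u * zr (1 - 2 * δ) * S2 b N δ)| ≤
      C * N * u ^ (-(1 / 2) : ℝ) := by
  obtain ⟨C, hC, hd⟩ := diag_one ε hε
  refine ⟨4 * C, by positivity, fun b δ u X N hb hδ hδ' hu hX hN => ?_⟩
  have hpi := Real.pi_pos
  have e : DD b X N δ u - (zr (1 + 2 * δ) * S1 b N δ + tq δ u * zr (1 - 2 * δ) * S2 b N δ) =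
      ∑ q ∈ Icc 1 N ×ˢ Icc 1 N, (b q.1 * b q.2 * ((q.1 : ℝ) * q.2) ^ (-(1 / 2) - δ)) *
        (∑ p ∈ (PS X).filter (fun p => p.1 * q.1 = p.2 * q.2), cod δ u p -
          (zr (1 + 2 * δ) * (((q.1 : ℝ) * q.2) / (Nat.gcd q.1 q.2 : ℝ) ^ 2) ^ (-(1 / 2) - δ) +
        tq δ u * zr (1 - 2 * δ) *
          (((q.1 : ℝ) * q.2) / (Nat.gcd q.1 q.2 : ℝ) ^ 2) ^ (-(1 / 2) + δ))) := by
    unfold DD S1 S2
    rw [Finset.mul_sum, Finset.mul_sum, ← Finset.sum_add_distrib, ← Finset.sum_sub_distrib]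
    refine Finset.sum_congr rfl fun q hq => ?_
    rw [mem_product, mem_Icc, mem_Icc] at hq
    have h1 : (0 : ℝ) < q.1 := by exact_mod_cast hq.1.1
    have h2 : (0 : ℝ) < q.2 := by exact_mod_cast hq.2.1
    have hg : (0 : ℝ) < (Nat.gcd q.1 q.2 : ℝ) := by
      exact_mod_cast Nat.gcd_pos_of_pos_left q.2 hq.1.1
    obtain ⟨y, hy⟩ : ∃ y : ℝ, y = (q.1 : ℝ) * q.2 := ⟨_, rfl⟩
    have hy0 : 0 < y := by rw [hy]; positivity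
    obtain ⟨g, hgg⟩ : ∃ g : ℝ, g = (Nat.gcd q.1 q.2 : ℝ) := ⟨_, rfl⟩
    rw [← hgg] at hg ⊢
    rw [← hy]
    have e1 : y ^ (-(1 / 2) - δ) * (y / g ^ 2) ^ (-(1 / 2) - δ) =
        g ^ (1 + 2 * δ) * y ^ (-(1 + 2 * δ)) := by
      rw [gy y g _ _ hy0 hg]
      congr 2 <;> ring
    have e2 : y ^ (-(1 / 2) - δ) * (y / g ^ 2) ^ (-(1 / 2) + δ) =
        g ^ (1 - 2 * δ) * y⁻¹ := by
      rw [gy y g _ _ hy0 hg, ← Real.rpow_neg_one y]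
      congr 2 <;> ring
    calc _ = (b q.1 * b q.2 * y ^ (-(1 / 2) - δ)) *
          ∑ p ∈ (PS X).filter (fun p => p.1 * q.1 = p.2 * q.2), cod δ u p -
          (zr (1 + 2 * δ) * (b q.1 * b q.2 * (g ^ (1 + 2 * δ) * y ^ (-(1 + 2 * δ)))) +
          tq δ u * zr (1 - 2 * δ) * (b q.1 * b q.2 * (g ^ (1 - 2 * δ) * y⁻¹))) := by ring
      _ = _ := by rw [← e1, ← e2]; ring
  rw [e]
  refine (Finset.abs_sum_le_sum_abs _ _).trans ?_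
  have h1 : ∀ q ∈ Icc 1 N ×ˢ Icc 1 N, |(b q.1 * b q.2 * ((q.1 : ℝ) * q.2) ^ (-(1 / 2) - δ)) *
        (∑ p ∈ (PS X).filter (fun p => p.1 * q.1 = p.2 * q.2), cod δ u p -
          (zr (1 + 2 * δ) * (((q.1 : ℝ) * q.2) / (Nat.gcd q.1 q.2 : ℝ) ^ 2) ^ (-(1 / 2) - δ) +
        tq δ u * zr (1 - 2 * δ) *
          (((q.1 : ℝ) * q.2) / (Nat.gcd q.1 q.2 : ℝ) ^ 2) ^ (-(1 / 2) + δ)))| ≤
      ((q.1 : ℝ) * q.2) ^ (-(1 / 2) - δ) * (C * u ^ (-(1 / 2) : ℝ)) := by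
    intro q hq
    rw [mem_product, mem_Icc, mem_Icc] at hq
    have h1 : (0 : ℝ) < q.1 := by exact_mod_cast hq.1.1
    have h2 : (0 : ℝ) < q.2 := by exact_mod_cast hq.2.1
    have h3 : (q.1 : ℝ) ≤ N := by exact_mod_cast hq.1.2
    have h4 : (q.2 : ℝ) ≤ N := by exact_mod_cast hq.2.2
    have h5 := hd δ u X q.1 q.2 hδ hδ' hu hX hq.1.1 hq.2.1 (by
      refine le_trans ?_ hN
      gcongr)
    have hy : 0 ≤ ((q.1 : ℝ) * q.2) ^ (-(1 / 2) - δ) := by positivity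
    rw [abs_mul, abs_mul, abs_mul, abs_of_nonneg hy]
    have h6 : |b q.1| * |b q.2| * ((q.1 : ℝ) * q.2) ^ (-(1 / 2) - δ) ≤
        1 * 1 * ((q.1 : ℝ) * q.2) ^ (-(1 / 2) - δ) := by
      gcongr
      · exact hb _
      · exact hb _
    rw [one_mul, one_mul] at h6
    exact mul_le_mul h6 h5 (abs_nonneg _) hy
  refine (Finset.sum_le_sum h1).trans ?_
  rw [← Finset.sum_mul]
  have h2 := sum_pairs_le N δ hδ.le
  calc (∑ q ∈ Icc 1 N ×ˢ Icc 1 N, ((q.1 : ℝ) * q.2) ^ (-(1 / 2) - δ)) *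
        (C * u ^ (-(1 / 2) : ℝ)) ≤ (4 * N) * (C * u ^ (-(1 / 2) : ℝ)) := by gcongr
    _ = _ := by ring

end Pool.Agent.Zk5
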