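import Pool.Agent.Y969.GP.Def
import Pool.Agent.H510R2.Div

set_option autoImplicit false

/-!
Slot B (helper5): the off-diagonal sum.
-/

namespace Pool.Agent.Zk5

open Finset
open Pool.Agent.Y969.GP (ht lam PS)

/-- sum over pairs with bounded product of `1/√(AB) · 1/log(B/A)` -/
theorem pair_sum (Y : ℕ) (hY : 1 ≤ Y) :
    ∑ w ∈ (Icc 1 Y ×ˢ Icc 1 Y).filter (fun w => w.1 < w.2 ∧ w.1 * w.2 ≤ Y),
      (√((w.1 : ℝ) * w.2))⁻¹ * (Real.log w.2 - Real.log w.1)⁻¹ ≤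
      3 * √(Y : ℝ) * (1 + Real.log Y) := by
  have hYr : (1 : ℝ) ≤ Y := by exact_mod_cast hY
  have hlY : 0 ≤ Real.log Y := Real.log_nonneg hYr
  obtain ⟨G, hG⟩ : ∃ G : (Σ _ : ℕ, ℕ) → ℝ, G = fun v => (v.2 : ℝ)⁻¹ +
    (√((v.2 : ℝ) * v.1))⁻¹ := ⟨_, rfl⟩
  have hG0 : ∀ v, 0 ≤ G v := by intro v; rw [hG]; positivity
  -- pointwise bound
  have h1 : ∀ w ∈ (Icc 1 Y ×ˢ Icc 1 Y).filter (fun w => w.1 < w.2 ∧ w.1 * w.2 ≤ Y),
      (√((w.1 : ℝ) * w.2))⁻¹ * (Real.log w.2 - Real.log w.1)⁻¹ ≤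
        G ⟨w.1, w.2 - w.1⟩ := by
    intro w hw
    rw [mem_filter, mem_product, mem_Icc, mem_Icc] at hw
    obtain ⟨⟨⟨a1, _⟩, ⟨_, _⟩⟩, hlt, _⟩ := hw
    obtain ⟨A, B⟩ := w
    simp only at a1 hlt ⊢
    obtain ⟨r, rfl⟩ : ∃ r, B = A + r := ⟨B - A, by omega⟩
    have hr : 1 ≤ r := by omega
    have e1 : A + r - A = r := by omega
    rw [e1, hG]
    simp only
    have hA : (0 : ℝ) < A := by exact_mod_cast a1
    have hr0 : (0 : ℝ) < r := by exact_mod_cast hr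
    push_cast
    have hlog : (r : ℝ) / (A + r) ≤ Real.log (A + r) - Real.log A := by
      rw [← Real.log_div (by positivity) hA.ne']
      have := Real.one_sub_inv_le_log_of_pos (show (0 : ℝ) < (A + r) / A by positivity)
      have e : 1 - ((A + r : ℝ) / A)⁻¹ = r / (A + r) := by
        field_simp
        ring
      linarith
    have hlog2 : (Real.log (A + r) - Real.log A)⁻¹ ≤ (A + r) / r := by
      calc _ ≤ ((r : ℝ) / (A + r))⁻¹ := by gcongr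
        _ = _ := by rw [inv_div]
    have hsq : (√((A : ℝ) * (A + r)))⁻¹ * ((A + r) / r) = √((A + r) / A) / r := by
      rw [Real.sqrt_mul hA.le, Real.sqrt_div (by positivity)]
      have h2 : √((A : ℝ) + r) * √((A : ℝ) + r) = A + r := Real.mul_self_sqrt (by positivity)
      have h3 : 0 < √((A : ℝ) + r) := Real.sqrt_pos.2 (by positivity)
      have h4 : 0 < √(A : ℝ) := Real.sqrt_pos.2 hA
      field_simp
      nlinarith
    have hs2 : √(((A : ℝ) + r) / A) ≤ 1 + √((r : ℝ) / A) := by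
      apply Real.sqrt_le_iff.2 ⟨by positivity, ?_⟩
      have h2 : √((r : ℝ) / A) ^ 2 = r / A := Real.sq_sqrt (by positivity)
      have h3 : 0 ≤ √((r : ℝ) / A) := Real.sqrt_nonneg _
      have e : ((A : ℝ) + r) / A = 1 + r / A := by field_simp
      rw [e]
      nlinarith
    have hs3 : √((r : ℝ) / A) / r = (√((r : ℝ) * A))⁻¹ := by
      rw [Real.sqrt_mul hr0.le, Real.sqrt_div hr0.le]
      have h2 : √(r : ℝ) * √(r : ℝ) = r := Real.mul_self_sqrt hr0.le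
      have h3 : 0 < √(r : ℝ) := Real.sqrt_pos.2 hr0
      have h4 : 0 < √(A : ℝ) := Real.sqrt_pos.2 hA
      field_simp
      nlinarith
    calc (√((A : ℝ) * (A + r)))⁻¹ * (Real.log (A + r) - Real.log A)⁻¹
        ≤ (√((A : ℝ) * (A + r)))⁻¹ * ((A + r) / r) := by gcongr
      _ = √((A + r) / A) / r := hsq
      _ ≤ (1 + √((r : ℝ) / A)) / r := by gcongr
      _ = (r : ℝ)⁻¹ + √((r : ℝ) / A) / r := by ring
      _ = _ := by rw [hs3]
  refine (Finset.sum_le_sum h1).trans ?_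
  -- reindex
  have hinj : Set.InjOn (fun w : ℕ × ℕ => (⟨w.1, w.2 - w.1⟩ : Σ _ : ℕ, ℕ))
      ((Icc 1 Y ×ˢ Icc 1 Y).filter (fun w => w.1 < w.2 ∧ w.1 * w.2 ≤ Y) : Finset (ℕ × ℕ)) := by
    intro w hw w' hw' h
    rw [mem_coe, mem_filter] at hw hw'
    simp only [Sigma.mk.injEq, heq_eq_eq] at h
    ext
    · exact h.1
    · have := hw.2.1
      have := hw'.2.1
      omega
  rw [← Finset.sum_image (f := G) hinj]
  have hsub : ((Icc 1 Y ×ˢ Icc 1 Y).filter (fun w => w.1 < w.2 ∧ w.1 * w.2 ≤ Y)).image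
      (fun w : ℕ × ℕ => (⟨w.1, w.2 - w.1⟩ : Σ _ : ℕ, ℕ)) ⊆
      (Icc 1 (Nat.sqrt Y)).sigma (fun A => Icc 1 (Y / A)) := by
    intro v hv
    rw [mem_image] at hv
    obtain ⟨w, hw, rfl⟩ := hv
    rw [mem_filter, mem_product, mem_Icc, mem_Icc] at hw
    obtain ⟨⟨⟨a1, _⟩, ⟨_, _⟩⟩, hlt, hle⟩ := hw
    rw [mem_sigma, mem_Icc, mem_Icc]
    refine ⟨⟨a1, ?_⟩, ⟨by simp only; omega, ?_⟩⟩
    · rw [Nat.le_sqrt]
      exact (Nat.mul_le_mul_left _ hlt.le).trans hle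
    · simp only
      rw [Nat.le_div_iff_mul_le (by omega)]
      calc (w.2 - w.1) * w.1 ≤ w.2 * w.1 := Nat.mul_le_mul_right _ (by omega)
        _ = w.1 * w.2 := mul_comm _ _
        _ ≤ Y := hle
  refine (Finset.sum_le_sum_of_subset_of_nonneg hsub fun v _ _ => hG0 v).trans ?_
  rw [Finset.sum_sigma]
  have hsqY : ((Nat.sqrt Y : ℕ) : ℝ) ≤ √(Y : ℝ) := Real.nat_sqrt_le_real_sqrt
  have hin : ∀ A ∈ Icc 1 (Nat.sqrt Y), ∑ r ∈ Icc 1 (Y / A), G ⟨A, r⟩ ≤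
      (1 + Real.log Y) + 2 * √(Y : ℝ) * (A : ℝ)⁻¹ := by
    intro A hA
    rw [mem_Icc] at hA
    have hA0 : (0 : ℝ) < A := by exact_mod_cast hA.1
    rw [hG]
    simp only
    rw [Finset.sum_add_distrib]
    have hM : ((Y / A : ℕ) : ℝ) ≤ Y / A := Nat.cast_div_le
    have hYA : 1 ≤ Y / A := by
      rw [Nat.one_le_div_iff (by omega)]
      exact hA.2.trans (Nat.sqrt_le_self Y)
    have t1 : ∑ r ∈ Icc 1 (Y / A), (r : ℝ)⁻¹ ≤ 1 + Real.log Y := by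
      have h := harmonic_le_one_add_log (Y / A)
      rw [harmonic_eq_sum_Icc] at h
      push_cast at h
      refine h.trans ?_
      have : Real.log ((Y / A : ℕ) : ℝ) ≤ Real.log Y := by
        apply Real.log_le_log (by exact_mod_cast hYA)
        exact_mod_cast Nat.div_le_self Y A
      linarith
    have t2 : ∑ r ∈ Icc 1 (Y / A), (√((r : ℝ) * A))⁻¹ ≤ 2 * √(Y : ℝ) * (A : ℝ)⁻¹ := by
      have h3 : ∀ M : ℕ, ∑ r ∈ Icc 1 M, (√(r : ℝ))⁻¹ ≤ 2 * √(M : ℝ) := by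
        intro M
        induction M with
        | zero => simp
        | succ k ih =>
          rw [Finset.sum_Icc_succ_top (by omega)]
          have h4 : (√((k : ℝ) + 1))⁻¹ ≤ 2 * (√((k : ℝ) + 1) - √(k : ℝ)) := by
            have h5 : 0 < √((k : ℝ) + 1) := Real.sqrt_pos.2 (by positivity)
            have h6 : 0 ≤ √(k : ℝ) := Real.sqrt_nonneg _
            have h7 : √((k : ℝ) + 1) * √((k : ℝ) + 1) = k + 1 :=
              Real.mul_self_sqrt (by positivity)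
            have h8 : √(k : ℝ) * √(k : ℝ) = k := Real.mul_self_sqrt (by positivity)
            rw [inv_le_iff_one_le_mul₀ h5]
            nlinarith [sq_nonneg (√((k : ℝ) + 1) - √(k : ℝ))]
          push_cast
          linarith
      have h4 : ∀ r ∈ Icc 1 (Y / A), (√((r : ℝ) * A))⁻¹ = (√(A : ℝ))⁻¹ * (√(r : ℝ))⁻¹ := by
        intro r _
        rw [Real.sqrt_mul (by positivity), mul_inv, mul_comm]
      rw [Finset.sum_congr rfl h4, ← Finset.mul_sum]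
      have h5 : √((Y / A : ℕ) : ℝ) ≤ √(Y : ℝ) / √(A : ℝ) := by
        rw [← Real.sqrt_div (by positivity)]
        exact Real.sqrt_le_sqrt hM
      have h6 : 0 < √(A : ℝ) := Real.sqrt_pos.2 hA0
      have h7 : √(A : ℝ) * √(A : ℝ) = A := Real.mul_self_sqrt hA0.le
      calc (√(A : ℝ))⁻¹ * ∑ r ∈ Icc 1 (Y / A), (√(r : ℝ))⁻¹
          ≤ (√(A : ℝ))⁻¹ * (2 * √((Y / A : ℕ) : ℝ)) := by gcongr; exact h3 _
        _ ≤ (√(A : ℝ))⁻¹ * (2 * (√(Y : ℝ) / √(A : ℝ))) := by gcongr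
        _ = 2 * √(Y : ℝ) * (√(A : ℝ) * √(A : ℝ))⁻¹ := by
            rw [mul_inv]; ring
        _ = _ := by rw [h7]
    exact add_le_add t1 t2
  refine (Finset.sum_le_sum hin).trans ?_
  rw [Finset.sum_add_distrib, Finset.sum_const, ← Finset.mul_sum, Nat.card_Icc, nsmul_eq_mul]
  have t3 : ∑ A ∈ Icc 1 (Nat.sqrt Y), (A : ℝ)⁻¹ ≤ 1 + Real.log Y := by
    have h := harmonic_le_one_add_log (Nat.sqrt Y)
    rw [harmonic_eq_sum_Icc] at h
    push_cast at h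
    refine h.trans ?_
    have h2 : 1 ≤ Nat.sqrt Y := Nat.le_sqrt.2 (by omega)
    have : Real.log ((Nat.sqrt Y : ℕ) : ℝ) ≤ Real.log Y := by
      apply Real.log_le_log (by exact_mod_cast h2)
      exact_mod_cast Nat.sqrt_le_self Y
    linarith
  have hs0 : 0 ≤ √(Y : ℝ) := Real.sqrt_nonneg _
  have e1 : ((Nat.sqrt Y + 1 - 1 : ℕ) : ℝ) = (Nat.sqrt Y : ℕ) := by
    congr 1
  rw [e1]
  calc ((Nat.sqrt Y : ℕ) : ℝ) * (1 + Real.log Y) + 2 * √(Y : ℝ) *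
        ∑ A ∈ Icc 1 (Nat.sqrt Y), (A : ℝ)⁻¹
      ≤ √(Y : ℝ) * (1 + Real.log Y) + 2 * √(Y : ℝ) * (1 + Real.log Y) := by gcongr
    _ = _ := by ring

/-- the set of off-diagonal quadruples -/
def offS (X N : ℕ) : Finset ((ℕ × ℕ) × (ℕ × ℕ)) :=
  (PS X ×ˢ (Icc 1 N ×ˢ Icc 1 N)).filter (fun z => z.1.1 * z.2.1 ≠ z.1.2 * z.2.2)

theorem off_sum (κ : ℝ) (hκ : 0 < κ) : ∃ C : ℝ, 0 < C ∧ ∀ X N : ℕ, 1 ≤ X → 1 ≤ N →
    ∑ z ∈ offS X N, (√(ht z.1 * ht z.2))⁻¹ * |lam z.1 + lam z.2|⁻¹ ≤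
      C * (((X * N ^ 2 : ℕ) : ℝ)) ^ (1 / 2 + κ) := by
  classical
  obtain ⟨D, hD, hd⟩ := Pool.Agent.H510R2.divisor_bound (κ / 4) (by positivity)
  obtain ⟨E, hE, hlog⟩ : ∃ E : ℝ, 0 < E ∧ ∀ x : ℝ, 1 ≤ x → 1 + Real.log x ≤ E * x ^ (κ / 2) := by
    refine ⟨1 + 2 / κ, by positivity, fun x hx => ?_⟩
    have h1 : Real.log x ≤ x ^ (κ / 2) / (κ / 2) := Real.log_le_rpow_div (by linarith) (by positivity)
    have h2 : 1 ≤ x ^ (κ / 2) := Real.one_le_rpow hx (by positivity)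
    have e : x ^ (κ / 2) / (κ / 2) = 2 / κ * x ^ (κ / 2) := by field_simp
    rw [e] at h1
    linarith
  refine ⟨6 * D ^ 2 * E, by positivity, fun X N hX hN => ?_⟩
  obtain ⟨Y, hY⟩ : ∃ Y : ℕ, Y = X * N ^ 2 := ⟨_, rfl⟩
  have hY1 : 1 ≤ Y := by
    rw [hY]
    exact Nat.one_le_iff_ne_zero.2 (by positivity)
  have hYr : (1 : ℝ) ≤ Y := by exact_mod_cast hY1
  rw [← hY]
  obtain ⟨F, hF⟩ : ∃ F : ℕ × ℕ → ℝ, F = fun w => (√((w.1 : ℝ) * w.2))⁻¹ *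
    |Real.log w.2 - Real.log w.1|⁻¹ := ⟨_, rfl⟩
  have hF0 : ∀ w, 0 ≤ F w := by intro w; rw [hF]; positivity
  obtain ⟨φ, hφ⟩ : ∃ φ : (ℕ × ℕ) × (ℕ × ℕ) → ℕ × ℕ, φ = fun z => (z.1.1 * z.2.1, z.1.2 * z.2.2) :=
    ⟨_, rfl⟩
  have hmem : ∀ z ∈ offS X N, (1 ≤ z.1.1 ∧ 1 ≤ z.1.2 ∧ 1 ≤ z.2.1 ∧ 1 ≤ z.2.2) ∧
      z.1.1 * z.1.2 ≤ X ∧ z.2.1 ≤ N ∧ z.2.2 ≤ N ∧ z.1.1 * z.2.1 ≠ z.1.2 * z.2.2 := by
    intro z hz
    unfold offS at hz
    rw [mem_filter, mem_product, mem_product, mem_Icc, mem_Icc] at hz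
    unfold PS at hz
    rw [mem_filter, mem_product, mem_Icc, mem_Icc] at hz
    obtain ⟨⟨⟨⟨⟨a1, _⟩, ⟨a2, _⟩⟩, a3⟩, ⟨a4, a5⟩, ⟨a6, a7⟩⟩, a8⟩ := hz
    exact ⟨⟨a1, a2, a4, a6⟩, a3, a5, a7, a8⟩
  have h1 : ∀ z ∈ offS X N, (√(ht z.1 * ht z.2))⁻¹ * |lam z.1 + lam z.2|⁻¹ = F (φ z) := by
    intro z hz
    obtain ⟨⟨a1, a2, a3, a4⟩, -⟩ := hmem z hz
    have b1 : (0 : ℝ) < z.1.1 := by exact_mod_cast a1
    have b2 : (0 : ℝ) < z.1.2 := by exact_mod_cast a2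
    have b3 : (0 : ℝ) < z.2.1 := by exact_mod_cast a3
    have b4 : (0 : ℝ) < z.2.2 := by exact_mod_cast a4
    rw [hF, hφ]
    simp only
    unfold ht lam
    push_cast
    rw [Real.log_mul b1.ne' b3.ne', Real.log_mul b2.ne' b4.ne']
    congr 2
    · congr 1; ring
    · congr 1; ring
  rw [Finset.sum_congr rfl h1, Finset.sum_comp F φ]
  -- fibres
  have h2 : ∀ w ∈ (offS X N).image φ, (((offS X N).filter (fun z => φ z = w)).card : ℝ) ≤
      D ^ 2 * (Y : ℝ) ^ (κ / 2) ∧ w ∈ (Icc 1 Y ×ˢ Icc 1 Y).filter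
        (fun w => w.1 ≠ w.2 ∧ w.1 * w.2 ≤ Y) := by
    intro w hw
    rw [mem_image] at hw
    obtain ⟨z, hz, rfl⟩ := hw
    obtain ⟨⟨a1, a2, a3, a4⟩, a5, a6, a7, a8⟩ := hmem z hz
    have hw1 : 1 ≤ (φ z).1 := by
      rw [hφ]
      exact Nat.mul_pos a1 a3
    have hw2 : 1 ≤ (φ z).2 := by
      rw [hφ]
      exact Nat.mul_pos a2 a4
    have hprod : (φ z).1 * (φ z).2 ≤ Y := by
      rw [hφ, hY]
      simp only
      calc z.1.1 * z.2.1 * (z.1.2 * z.2.2) = (z.1.1 * z.1.2) * (z.2.1 * z.2.2) := by ring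
        _ ≤ X * (N * N) := Nat.mul_le_mul a5 (Nat.mul_le_mul a6 a7)
        _ = X * N ^ 2 := by ring
    have hne : (φ z).1 ≠ (φ z).2 := by
      rw [hφ]
      exact a8
    have hw1Y : (φ z).1 ≤ Y := (Nat.le_mul_of_pos_right _ hw2).trans hprod
    have hw2Y : (φ z).2 ≤ Y := (Nat.le_mul_of_pos_left _ hw1).trans hprod
    refine ⟨?_, ?_⟩
    · have hcard : ((offS X N).filter (fun z' => φ z' = φ z)).card ≤
          (Nat.divisors (φ z).1 ×ˢ Nat.divisors (φ z).2).card := by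
        refine Finset.card_le_card_of_injOn (fun z' => (z'.1.1, z'.1.2)) ?_ ?_
        · intro z' hz'
          rw [mem_coe, mem_filter] at hz'
          rw [mem_coe, mem_product, Nat.mem_divisors, Nat.mem_divisors]
          obtain ⟨hz1, hz2⟩ := hz'
          rw [hφ] at hz2
          have e1 := congrArg Prod.fst hz2
          have e2 := congrArg Prod.snd hz2
          simp only at e1 e2
          refine ⟨⟨?_, by omega⟩, ⟨?_, by omega⟩⟩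
          · rw [hφ]
            simp only
            rw [← e1]
            exact Dvd.intro _ rfl
          · rw [hφ]
            simp only
            rw [← e2]
            exact Dvd.intro _ rfl
        · intro x hx y hy hxy
          rw [mem_coe, mem_filter] at hx hy
          obtain ⟨⟨c1, c2, _, _⟩, -⟩ := hmem x hx.1
          obtain ⟨hx1, hx2⟩ := hx
          obtain ⟨hy1, hy2⟩ := hy
          have e3 : φ x = φ y := hx2.trans hy2.symm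
          rw [hφ] at e3
          simp only [Prod.mk.injEq] at e3 hxy
          obtain ⟨f1, f2⟩ := hxy
          obtain ⟨g1, g2⟩ := e3
          rw [← f1] at g1
          rw [← f2] at g2
          have k1 := Nat.eq_of_mul_eq_mul_left (by omega) g1
          have k2 := Nat.eq_of_mul_eq_mul_left (by omega) g2
          ext <;> assumption
      rw [Finset.card_product] at hcard
      have hc : (((offS X N).filter (fun z' => φ z' = φ z)).card : ℝ) ≤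
          ((Nat.divisors (φ z).1).card : ℝ) * ((Nat.divisors (φ z).2).card : ℝ) := by
        exact_mod_cast hcard
      refine hc.trans ?_
      have d1 := hd (φ z).1 hw1
      have d2 := hd (φ z).2 hw2
      have hY4 : 0 ≤ (Y : ℝ) ^ (κ / 4) := by positivity
      have d3 : ((φ z).1 : ℝ) ^ (κ / 4) ≤ (Y : ℝ) ^ (κ / 4) := by
        apply Real.rpow_le_rpow (by positivity) (by exact_mod_cast hw1Y) (by positivity)
      have d4 : ((φ z).2 : ℝ) ^ (κ / 4) ≤ (Y : ℝ) ^ (κ / 4) := by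
        apply Real.rpow_le_rpow (by positivity) (by exact_mod_cast hw2Y) (by positivity)
      calc ((Nat.divisors (φ z).1).card : ℝ) * ((Nat.divisors (φ z).2).card : ℝ)
          ≤ (D * (Y : ℝ) ^ (κ / 4)) * (D * (Y : ℝ) ^ (κ / 4)) := by
            apply mul_le_mul (d1.trans (by gcongr)) (d2.trans (by gcongr)) (by positivity)
              (by positivity)
        _ = D ^ 2 * ((Y : ℝ) ^ (κ / 4) * (Y : ℝ) ^ (κ / 4)) := by ring
        _ = D ^ 2 * (Y : ℝ) ^ (κ / 2) := by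
            rw [← Real.rpow_add (by linarith)]
            congr 2
            ring
    · rw [mem_filter, mem_product, mem_Icc, mem_Icc]
      exact ⟨⟨⟨hw1, hw1Y⟩, ⟨hw2, hw2Y⟩⟩, hne, hprod⟩
  have h3 : ∑ w ∈ (offS X N).image φ, ((offS X N).filter (fun z => φ z = w)).card • F w ≤
      D ^ 2 * (Y : ℝ) ^ (κ / 2) * ∑ w ∈ (Icc 1 Y ×ˢ Icc 1 Y).filter
        (fun w => w.1 ≠ w.2 ∧ w.1 * w.2 ≤ Y), F w := by
    calc ∑ w ∈ (offS X N).image φ, ((offS X N).filter (fun z => φ z = w)).card • F w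
        ≤ ∑ w ∈ (offS X N).image φ, D ^ 2 * (Y : ℝ) ^ (κ / 2) * F w := by
          refine Finset.sum_le_sum fun w hw => ?_
          rw [nsmul_eq_mul]
          exact mul_le_mul_of_nonneg_right (h2 w hw).1 (hF0 w)
      _ ≤ ∑ w ∈ (Icc 1 Y ×ˢ Icc 1 Y).filter
            (fun w => w.1 ≠ w.2 ∧ w.1 * w.2 ≤ Y), D ^ 2 * (Y : ℝ) ^ (κ / 2) * F w := by
          refine Finset.sum_le_sum_of_subset_of_nonneg (fun w hw => (h2 w hw).2) fun w _ _ => ?_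
          have := hF0 w
          positivity
      _ = _ := by rw [Finset.mul_sum]
  refine h3.trans ?_
  -- split the pairs
  have hps := pair_sum Y hY1
  have h4 : ∑ w ∈ (Icc 1 Y ×ˢ Icc 1 Y).filter (fun w => w.1 ≠ w.2 ∧ w.1 * w.2 ≤ Y), F w ≤
      2 * (3 * √(Y : ℝ) * (1 + Real.log Y)) := by
    have e1 : (Icc 1 Y ×ˢ Icc 1 Y).filter (fun w => w.1 ≠ w.2 ∧ w.1 * w.2 ≤ Y) =
        (Icc 1 Y ×ˢ Icc 1 Y).filter (fun w => w.1 < w.2 ∧ w.1 * w.2 ≤ Y) ∪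
        (Icc 1 Y ×ˢ Icc 1 Y).filter (fun w => w.2 < w.1 ∧ w.1 * w.2 ≤ Y) := by
      ext w
      simp only [mem_union, mem_filter, mem_product, mem_Icc]
      constructor
      · rintro ⟨h1, h2, h3⟩
        rcases lt_or_gt_of_ne h2 with h | h
        · exact Or.inl ⟨h1, h, h3⟩
        · exact Or.inr ⟨h1, h, h3⟩
      · rintro (⟨h1, h2, h3⟩ | ⟨h1, h2, h3⟩)
        · exact ⟨h1, h2.ne, h3⟩
        · exact ⟨h1, h2.ne', h3⟩
    have e2 : ∑ w ∈ (Icc 1 Y ×ˢ Icc 1 Y).filter (fun w => w.2 < w.1 ∧ w.1 * w.2 ≤ Y), F w =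
        ∑ w ∈ (Icc 1 Y ×ˢ Icc 1 Y).filter (fun w => w.1 < w.2 ∧ w.1 * w.2 ≤ Y), F w := by
      refine Finset.sum_nbij' Prod.swap Prod.swap ?_ ?_ ?_ ?_ ?_
      · intro w hw
        simp only [mem_filter, mem_product, mem_Icc, Prod.fst_swap, Prod.snd_swap] at hw ⊢
        refine ⟨⟨hw.1.2, hw.1.1⟩, hw.2.1, ?_⟩
        rw [mul_comm]
        exact hw.2.2
      · intro w hw
        simp only [mem_filter, mem_product, mem_Icc, Prod.fst_swap, Prod.snd_swap] at hw ⊢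
        refine ⟨⟨hw.1.2, hw.1.1⟩, hw.2.1, ?_⟩
        rw [mul_comm]
        exact hw.2.2
      · intro w _; simp
      · intro w _; simp
      · intro w _
        rw [hF]
        simp only [Prod.fst_swap, Prod.snd_swap]
        rw [abs_sub_comm, mul_comm (w.1 : ℝ)]
    have e3 : ∑ w ∈ (Icc 1 Y ×ˢ Icc 1 Y).filter (fun w => w.1 < w.2 ∧ w.1 * w.2 ≤ Y), F w =
        ∑ w ∈ (Icc 1 Y ×ˢ Icc 1 Y).filter (fun w => w.1 < w.2 ∧ w.1 * w.2 ≤ Y),
        (√((w.1 : ℝ) * w.2))⁻¹ * (Real.log w.2 - Real.log w.1)⁻¹ := by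
      refine Finset.sum_congr rfl fun w hw => ?_
      simp only [mem_filter, mem_product, mem_Icc] at hw
      rw [hF]
      simp only
      rw [abs_of_nonneg]
      have h5 : (0 : ℝ) < w.1 := by exact_mod_cast hw.1.1.1
      have h6 : (w.1 : ℝ) ≤ w.2 := by exact_mod_cast hw.2.1.le
      have := Real.log_le_log h5 h6
      linarith
    rw [e1]
    have e5 := Finset.sum_union_inter (s₁ := (Icc 1 Y ×ˢ Icc 1 Y).filter
      (fun w => w.1 < w.2 ∧ w.1 * w.2 ≤ Y)) (s₂ := (Icc 1 Y ×ˢ Icc 1 Y).filter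
      (fun w => w.2 < w.1 ∧ w.1 * w.2 ≤ Y)) (f := F)
    have e6 : 0 ≤ ∑ w ∈ (Icc 1 Y ×ˢ Icc 1 Y).filter (fun w => w.1 < w.2 ∧ w.1 * w.2 ≤ Y) ∩
      (Icc 1 Y ×ˢ Icc 1 Y).filter (fun w => w.2 < w.1 ∧ w.1 * w.2 ≤ Y), F w :=
      Finset.sum_nonneg fun w _ => hF0 w
    linarith
  have hYp : 0 < (Y : ℝ) := by linarith
  have hl := hlog Y hYr
  have hs0 : 0 ≤ √(Y : ℝ) := Real.sqrt_nonneg _
  calc D ^ 2 * (Y : ℝ) ^ (κ / 2) * ∑ w ∈ (Icc 1 Y ×ˢ Icc 1 Y).filter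
        (fun w => w.1 ≠ w.2 ∧ w.1 * w.2 ≤ Y), F w
      ≤ D ^ 2 * (Y : ℝ) ^ (κ / 2) * (2 * (3 * √(Y : ℝ) * (1 + Real.log Y))) := by gcongr
    _ ≤ D ^ 2 * (Y : ℝ) ^ (κ / 2) * (2 * (3 * √(Y : ℝ) * (E * (Y : ℝ) ^ (κ / 2)))) := by gcongr
    _ = 6 * D ^ 2 * E * (√(Y : ℝ) * ((Y : ℝ) ^ (κ / 2) * (Y : ℝ) ^ (κ / 2))) := by ring
    _ = 6 * D ^ 2 * E * (Y : ℝ) ^ (1 / 2 + κ) := by
        rw [Real.sqrt_eq_rpow, ← Real.rpow_add hYp, ← Real.rpow_add hYp]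
        congr 2
        ring

end Pool.Agent.Zk5
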