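import Pool.Agent.Zk5.Dia4
import Pool.Agent.Zk5.Off

set_option autoImplicit false

/-!
Slot B (helper5): the mollified second moment on the line `1/2 + δ`.
-/

namespace Pool.Agent.Zk5

open Complex Filter Topology MeasureTheory
open Finset (Icc mem_Icc mem_product mem_filter)
open Pool.Agent.Y969.GP (ht lam PS V S_V S_CHI)

/-- the mollifier -/
noncomputable def Mb (b : ℕ → ℝ) (N : ℕ) (δ u : ℝ) : ℂ :=
  ∑ h ∈ Icc 1 N, (b h : ℂ) * (h : ℂ) ^ (-(1 / 2 + δ + I * u))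

/-- coefficients of `|M|²` -/
noncomputable def be (b : ℕ → ℝ) (δ : ℝ) (q : ℕ × ℕ) : ℝ :=
  b q.1 * b q.2 * ((q.1 : ℝ) * q.2) ^ (-(1 / 2) - δ)

theorem cpw (h : ℕ) (hh : 1 ≤ h) (δ u : ℝ) : (h : ℂ) ^ (-(1 / 2 + δ + I * u)) =
    (((h : ℝ) ^ (-(1 / 2) - δ) : ℝ) : ℂ) * cexp (I * ((-(u * Real.log h) : ℝ) : ℂ)) := by
  have h0 : (0 : ℝ) < h := by exact_mod_cast hh
  have hc : (h : ℂ) ≠ 0 := by exact_mod_cast h0.ne'
  rw [Complex.cpow_def_of_ne_zero hc, ← Complex.natCast_log, Real.rpow_def_of_pos h0, ofReal_exp,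
    ← Complex.exp_add]
  congr 1
  push_cast
  ring

theorem Mb_sq (b : ℕ → ℝ) (N : ℕ) (δ u : ℝ) : ((‖Mb b N δ u‖ ^ 2 : ℝ) : ℂ) =
    ∑ q ∈ Icc 1 N ×ˢ Icc 1 N, (be b δ q : ℂ) * cexp (I * ((u * lam q : ℝ) : ℂ)) := by
  have h1 : ((‖Mb b N δ u‖ ^ 2 : ℝ) : ℂ) = Mb b N δ u * (starRingEnd ℂ) (Mb b N δ u) := by
    rw [mul_conj, normSq_eq_norm_sq]
  rw [h1]
  unfold Mb
  rw [map_sum, Finset.sum_mul_sum, ← Finset.sum_product']
  refine Finset.sum_congr rfl fun q hq => ?_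
  rw [mem_product, mem_Icc, mem_Icc] at hq
  rw [cpw q.1 hq.1.1, cpw q.2 hq.2.1, map_mul, map_mul, ← Complex.exp_conj, map_mul, conj_I,
    conj_ofReal, conj_ofReal, conj_ofReal]
  unfold be lam
  have h0 : (0 : ℝ) < q.1 := by exact_mod_cast hq.1.1
  have h2 : (0 : ℝ) < q.2 := by exact_mod_cast hq.2.1
  rw [Real.mul_rpow h0.le h2.le]
  have e : cexp (I * ((-(u * Real.log q.1) : ℝ) : ℂ)) * cexp (-I * ((-(u * Real.log q.2) : ℝ) : ℂ)) =
      cexp (I * ((u * (Real.log q.2 - Real.log q.1) : ℝ) : ℂ)) := by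
    rw [← Complex.exp_add]
    congr 1
    push_cast
    ring
  rw [← e]
  push_cast
  ring

theorem be_abs (b : ℕ → ℝ) (δ : ℝ) (hb : ∀ n, |b n| ≤ 1) (hδ : 0 ≤ δ) (q : ℕ × ℕ) (h1 : 1 ≤ q.1)
    (h2 : 1 ≤ q.2) : |be b δ q| ≤ (√(ht q))⁻¹ := by
  unfold be ht
  have h3 : (1 : ℝ) ≤ q.1 := by exact_mod_cast h1
  have h4 : (1 : ℝ) ≤ q.2 := by exact_mod_cast h2
  have h5 : (1 : ℝ) ≤ (q.1 : ℝ) * q.2 := by nlinarith
  rw [abs_mul, abs_mul, abs_of_nonneg (by positivity : 0 ≤ ((q.1 : ℝ) * q.2) ^ (-(1 / 2) - δ))]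
  calc |b q.1| * |b q.2| * ((q.1 : ℝ) * q.2) ^ (-(1 / 2) - δ)
      ≤ 1 * 1 * ((q.1 : ℝ) * q.2) ^ (-(1 / 2) : ℝ) := by
        gcongr
        · exact hb _
        · exact hb _
        · linarith
    _ = _ := by
        rw [one_mul, one_mul, Real.rpow_neg (by positivity), Real.sqrt_eq_rpow]

theorem Mb_cont (b : ℕ → ℝ) (N : ℕ) (δ : ℝ) : Continuous (Mb b N δ) := by
  unfold Mb
  refine continuous_finsetSum _ fun h hh => ?_
  rw [mem_Icc] at hh
  have hc : (h : ℂ) ≠ 0 := by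
    have : h ≠ 0 := by omega
    exact_mod_cast this
  refine Continuous.mul (by fun_prop) ?_
  exact Continuous.const_cpow (by fun_prop) (Or.inl hc)

/-- mean square of the mollifier -/
theorem Mb_mean : ∃ C : ℝ, 0 < C ∧ ∀ (b : ℕ → ℝ) (N : ℕ) (δ T : ℝ), (∀ n, |b n| ≤ 1) → 0 ≤ δ →
    1 ≤ N → (N : ℝ) ≤ T → 1 ≤ T →
    ∫ u in T..(2 * T), ‖Mb b N δ u‖ ^ 2 ≤ C * T * (1 + Real.log T) := by
  refine ⟨100, by norm_num, fun b N δ T hb hδ hN hNT hT => ?_⟩
  have hT0 : 0 < T := by linarith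
  have hab : T ≤ 2 * T := by linarith
  have hNr : (1 : ℝ) ≤ N := by exact_mod_cast hN
  have hlN : 0 ≤ Real.log N := Real.log_nonneg hNr
  have hlT : Real.log N ≤ Real.log T := Real.log_le_log (by linarith) hNT
  have h1 : ((∫ u in T..(2 * T), ‖Mb b N δ u‖ ^ 2 : ℝ) : ℂ) =
      ∑ q ∈ Icc 1 N ×ˢ Icc 1 N, (be b δ q : ℂ) *
        ∫ u in T..(2 * T), cexp (I * ((u * lam q : ℝ) : ℂ)) := by
    rw [← intervalIntegral.integral_ofReal]
    have e : ∀ u : ℝ, ((‖Mb b N δ u‖ ^ 2 : ℝ) : ℂ) =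
      ∑ q ∈ Icc 1 N ×ˢ Icc 1 N, (be b δ q : ℂ) * cexp (I * ((u * lam q : ℝ) : ℂ)) :=
      fun u => Mb_sq b N δ u
    simp only [e]
    rw [intervalIntegral.integral_finsetSum]
    · refine Finset.sum_congr rfl fun q _ => ?_
      rw [intervalIntegral.integral_const_mul]
    · intro q _
      apply Continuous.intervalIntegrable
      fun_prop
  have h2 : ∀ q ∈ Icc 1 N ×ˢ Icc 1 N, ‖(be b δ q : ℂ) *
        ∫ u in T..(2 * T), cexp (I * ((u * lam q : ℝ) : ℂ))‖ ≤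
      (if q.1 = q.2 then T * (q.1 : ℝ)⁻¹ else 0) + (if q.1 < q.2 then
        2 * ((√((q.1 : ℝ) * q.2))⁻¹ * (Real.log q.2 - Real.log q.1)⁻¹) else 0) +
        (if q.2 < q.1 then
        2 * ((√((q.2 : ℝ) * q.1))⁻¹ * (Real.log q.1 - Real.log q.2)⁻¹) else 0) := by
    intro q hq
    rw [mem_product, mem_Icc, mem_Icc] at hq
    have hb1 := be_abs b δ hb hδ q hq.1.1 hq.2.1
    have hq1 : (0 : ℝ) < q.1 := by exact_mod_cast hq.1.1
    have hq2 : (0 : ℝ) < q.2 := by exact_mod_cast hq.2.1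
    rw [norm_mul, norm_real, Real.norm_eq_abs]
    by_cases h : q.1 = q.2
    · rw [if_pos h, if_neg (by omega), if_neg (by omega), add_zero, add_zero]
      have hl : lam q = 0 := by unfold lam; rw [h, sub_self]
      rw [hl]
      have e1 : ∫ u in T..(2 * T), cexp (I * ((u * 0 : ℝ) : ℂ)) = (T : ℂ) := by
        simp
        ring
      rw [e1, norm_real, Real.norm_eq_abs, abs_of_pos hT0, mul_comm]
      have e2 : (√(ht q))⁻¹ = (q.1 : ℝ)⁻¹ := by
        unfold ht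
        rw [← h, Real.sqrt_mul_self hq1.le]
      rw [e2] at hb1
      gcongr
    · have hl : lam q ≠ 0 := by
        unfold lam
        intro h0
        have h3 : Real.log q.2 = Real.log q.1 := by linarith
        have h4 := Real.log_injOn_pos (Set.mem_Ioi.2 hq2) (Set.mem_Ioi.2 hq1) h3
        exact h (by exact_mod_cast h4.symm)
      have ho := osc (fun _ => 1) (fun _ => 0) T (2 * T) (lam q) hab hl
        (fun x _ => hasDerivAt_const x 1) continuousOn_const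
      have ho2 : ‖∫ u in T..(2 * T), cexp (I * ((u * lam q : ℝ) : ℂ))‖ ≤ 2 * |lam q|⁻¹ := by
        refine le_trans (le_of_eq ?_) (ho.trans (le_of_eq ?_))
        · congr 1
          refine intervalIntegral.integral_congr fun u _ => ?_
          beta_reduce
          rw [ofReal_one, one_mul]
        · simp
          left
          norm_num
      rw [if_neg h, zero_add]
      have hm : |be b δ q| * ‖∫ u in T..(2 * T), cexp (I * ((u * lam q : ℝ) : ℂ))‖ ≤
          (√(ht q))⁻¹ * (2 * |lam q|⁻¹) := by gcongr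
      rcases lt_or_gt_of_ne h with h5 | h5
      · rw [if_pos h5, if_neg (by omega), add_zero]
        refine hm.trans (le_of_eq ?_)
        have h6 : Real.log q.1 ≤ Real.log q.2 :=
          Real.log_le_log hq1 (by exact_mod_cast h5.le)
        unfold ht lam
        rw [abs_of_nonneg (by linarith)]
        ring
      · rw [if_neg (by omega), if_pos h5, zero_add]
        refine hm.trans (le_of_eq ?_)
        have h6 : Real.log q.2 ≤ Real.log q.1 :=
          Real.log_le_log hq2 (by exact_mod_cast h5.le)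
        unfold ht lam
        rw [abs_of_nonpos (by linarith), mul_comm (q.1 : ℝ)]
        have : -(Real.log q.2 - Real.log q.1) = Real.log q.1 - Real.log q.2 := by ring
        rw [this]
        ring
  have hps := pair_sum (N * N) (Nat.mul_pos hN hN)
  have hYN : √(((N * N : ℕ)) : ℝ) = N := by
    push_cast
    exact Real.sqrt_mul_self (by positivity)
  have hlNN : Real.log (((N * N : ℕ)) : ℝ) = 2 * Real.log N := by
    push_cast
    rw [Real.log_mul (by positivity) (by positivity)]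
    ring
  rw [hYN, hlNN] at hps
  have hF0 : ∀ w ∈ (Icc 1 (N * N) ×ˢ Icc 1 (N * N)).filter (fun w => w.1 < w.2 ∧ w.1 * w.2 ≤ N * N),
      0 ≤ (√((w.1 : ℝ) * w.2))⁻¹ * (Real.log w.2 - Real.log w.1)⁻¹ := by
    intro w hw
    rw [mem_filter, mem_product, mem_Icc, mem_Icc] at hw
    have h5 : (0 : ℝ) < w.1 := by exact_mod_cast hw.1.1.1
    have h6 : (w.1 : ℝ) ≤ w.2 := by exact_mod_cast hw.2.1.le
    have h7 := Real.log_le_log h5 h6
    have h8 : 0 ≤ Real.log w.2 - Real.log w.1 := by linarith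
    positivity
  have t2 : ∑ q ∈ Icc 1 N ×ˢ Icc 1 N, (if q.1 < q.2 then
        2 * ((√((q.1 : ℝ) * q.2))⁻¹ * (Real.log q.2 - Real.log q.1)⁻¹) else 0) ≤
      6 * N * (1 + 2 * Real.log N) := by
    rw [← Finset.sum_filter, ← Finset.mul_sum]
    have hsub : (Icc 1 N ×ˢ Icc 1 N).filter (fun q => q.1 < q.2) ⊆
        (Icc 1 (N * N) ×ˢ Icc 1 (N * N)).filter (fun w => w.1 < w.2 ∧ w.1 * w.2 ≤ N * N) := by
      intro w hw
      rw [mem_filter, mem_product, mem_Icc, mem_Icc] at hw ⊢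
      have hNN : N ≤ N * N := Nat.le_mul_of_pos_left N hN
      exact ⟨⟨⟨hw.1.1.1, hw.1.1.2.trans hNN⟩, ⟨hw.1.2.1, hw.1.2.2.trans hNN⟩⟩, hw.2,
        Nat.mul_le_mul hw.1.1.2 hw.1.2.2⟩
    have := Finset.sum_le_sum_of_subset_of_nonneg hsub fun w hw _ => hF0 w hw
    nlinarith
  have t3 : ∑ q ∈ Icc 1 N ×ˢ Icc 1 N, (if q.2 < q.1 then
        2 * ((√((q.2 : ℝ) * q.1))⁻¹ * (Real.log q.1 - Real.log q.2)⁻¹) else 0) ≤
      6 * N * (1 + 2 * Real.log N) := by
    refine le_trans (le_of_eq ?_) t2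
    refine Finset.sum_nbij' Prod.swap Prod.swap ?_ ?_ ?_ ?_ ?_
    · intro w hw
      rw [mem_product] at hw ⊢
      exact ⟨hw.2, hw.1⟩
    · intro w hw
      rw [mem_product] at hw ⊢
      exact ⟨hw.2, hw.1⟩
    · intro w _; simp
    · intro w _; simp
    · intro w _; rfl
  have t1 : ∑ q ∈ Icc 1 N ×ˢ Icc 1 N, (if q.1 = q.2 then T * (q.1 : ℝ)⁻¹ else 0) ≤
      T * (1 + Real.log N) := by
    rw [Finset.sum_product]
    have e1 : ∀ x ∈ Icc 1 N, ∑ y ∈ Icc 1 N, (if x = y then T * (x : ℝ)⁻¹ else 0) =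
        T * (x : ℝ)⁻¹ := by
      intro x hx
      rw [Finset.sum_ite_eq, if_pos hx]
    simp only
    rw [Finset.sum_congr rfl e1, ← Finset.mul_sum]
    have h := harmonic_le_one_add_log N
    rw [harmonic_eq_sum_Icc] at h
    push_cast at h
    gcongr
  have h3 : ‖((∫ u in T..(2 * T), ‖Mb b N δ u‖ ^ 2 : ℝ) : ℂ)‖ ≤ T * (1 + Real.log N) +
      6 * N * (1 + 2 * Real.log N) + 6 * N * (1 + 2 * Real.log N) := by
    rw [h1]
    refine (norm_sum_le _ _).trans ((Finset.sum_le_sum h2).trans ?_)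
    rw [Finset.sum_add_distrib, Finset.sum_add_distrib]
    linarith
  rw [norm_real, Real.norm_eq_abs] at h3
  have h4 := (le_abs_self _).trans h3
  refine h4.trans ?_
  have h5 : (N : ℝ) * (1 + 2 * Real.log N) ≤ T * (1 + 2 * Real.log T) := by gcongr
  have h6 : T * (1 + Real.log N) ≤ T * (1 + Real.log T) := by gcongr
  have h7 : 0 ≤ T * Real.log T := by
    have := hlN.trans hlT
    positivity
  nlinarith

end Pool.Agent.Zk5
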