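import Pool.Agent.Zk5.Mom
import Pool.Agent.Y587.GP.Chi
import Pool.Agent.Y587.GP.V

set_option autoImplicit false

namespace Pool.Agent.Zk5

open Complex Filter Topology MeasureTheory
open Finset (Icc mem_Icc mem_product mem_filter)
open Pool.Agent.Y969.GP (ht lam PS V S_V S_CHI)

theorem mem_PS {X : ℕ} {p : ℕ × ℕ} (hp : p ∈ PS X) : 1 ≤ p.1 ∧ 1 ≤ p.2 ∧ p.1 * p.2 ≤ X := by
  unfold PS at hp
  rw [mem_filter, mem_product, mem_Icc, mem_Icc] at hp
  exact ⟨hp.1.1.1, hp.1.2.1, hp.2⟩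

theorem cod_cont (hV : S_V) (δ T : ℝ) (p : ℕ × ℕ) (hT : 0 < T) (h1 : 1 ≤ p.1) (h2 : 1 ≤ p.2) :
    ContinuousOn (fun u => cod δ u p) (Set.Icc T (2 * T)) := by
  have m0 : (1 : ℝ) ≤ p.1 := by exact_mod_cast h1
  have k0 : (1 : ℝ) ≤ p.2 := by exact_mod_cast h2
  have hh1 : 1 ≤ ht p := by unfold ht; nlinarith
  have hh : 0 < ht p := by linarith
  have hne : ¬ (p.1 = 0 ∨ p.2 = 0) := by omega
  have e : (fun u => cod δ u p) = fun u => ht p ^ (-(1 / 2) - δ) * Wv (ht p) u +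
      tq δ u * (ht p ^ (-(1 / 2) - -δ) * Wv (ht p) u) := by
    funext u
    unfold cod TC Wv
    rw [if_neg hne, if_neg hne]
  rw [e]
  have cW : ContinuousOn (Wv (ht p)) (Set.Icc T (2 * T)) := fun x hx =>
    (Wv_deriv hV (ht p) x hh (hT.trans_le hx.1)).continuousAt.continuousWithinAt
  have ct := tq_cont δ T (2 * T) hT
  exact (continuousOn_const.mul cW).add (ct.mul (continuousOn_const.mul cW))

theorem zd_cont (δ T : ℝ) (hT : 0 < T) : ContinuousOn (zd δ) (Set.Icc T (2 * T)) := by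
  unfold zd
  refine ContinuousOn.pow (ContinuousOn.norm ?_) 2
  intro u hu
  have hu0 : 0 < u := hT.trans_le hu.1
  have hne : (1 / 2 + (δ : ℂ) + I * u) ≠ 1 := by
    intro h
    have := congrArg Complex.im h
    simp at this
    linarith
  apply ContinuousAt.continuousWithinAt
  exact ContinuousAt.comp (f := fun u : ℝ => (1 / 2 + (δ : ℂ) + I * u))
    (differentiableAt_riemannZeta hne).continuousAt (Continuous.continuousAt (by fun_prop))

theorem off_part (hV : S_V) (κ : ℝ) (hκ : 0 < κ) : ∃ C : ℝ, 0 < C ∧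
    ∀ (b : ℕ → ℝ) (X N : ℕ) (δ T : ℝ), (∀ n, |b n| ≤ 1) → 0 ≤ δ → δ ≤ 1 / 8 → 1 ≤ T → 1 ≤ X →
    1 ≤ N →
    ‖∑ z ∈ offS X N, (be b δ z.2 : ℂ) * ∫ u in T..(2 * T), (cod δ u z.1 : ℂ) *
      cexp (I * ((u * (lam z.1 + lam z.2) : ℝ) : ℂ))‖ ≤
      C * (X : ℝ) ^ δ * (((X * N ^ 2 : ℕ) : ℝ)) ^ (1 / 2 + κ) := by
  obtain ⟨C, hC, hoff⟩ := off_sum κ hκ
  refine ⟨11 * C, by positivity, fun b X N δ T hb hδ hδ' hT hX hN => ?_⟩
  have hXr : (1 : ℝ) ≤ X := by exact_mod_cast hX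
  have h1 : ∀ z ∈ offS X N, ‖(be b δ z.2 : ℂ) * ∫ u in T..(2 * T), (cod δ u z.1 : ℂ) *
      cexp (I * ((u * (lam z.1 + lam z.2) : ℝ) : ℂ))‖ ≤
      (11 * (X : ℝ) ^ δ) * ((√(ht z.1 * ht z.2))⁻¹ * |lam z.1 + lam z.2|⁻¹) := by
    intro z hz
    unfold offS at hz
    rw [mem_filter, mem_product, mem_product, mem_Icc, mem_Icc] at hz
    obtain ⟨⟨hp, ⟨a4, a5⟩, ⟨a6, a7⟩⟩, a8⟩ := hz
    obtain ⟨a1, a2, a3⟩ := mem_PS hp
    have b1 : (0 : ℝ) < z.1.1 := by exact_mod_cast a1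
    have b2 : (0 : ℝ) < z.1.2 := by exact_mod_cast a2
    have b3 : (0 : ℝ) < z.2.1 := by exact_mod_cast a4
    have b4 : (0 : ℝ) < z.2.2 := by exact_mod_cast a6
    have hl : lam z.1 + lam z.2 ≠ 0 := by
      unfold lam
      intro h0
      have h3 : Real.log (z.1.1 * z.2.1) = Real.log (z.1.2 * z.2.2) := by
        rw [Real.log_mul b1.ne' b3.ne', Real.log_mul b2.ne' b4.ne']
        linarith
      have h4 := Real.log_injOn_pos (Set.mem_Ioi.2 (mul_pos b1 b3))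
        (Set.mem_Ioi.2 (mul_pos b2 b4)) h3
      exact a8 (by exact_mod_cast h4)
    have ho := cod_osc hV δ T (lam z.1 + lam z.2) z.1 hT hδ hδ' hl a1 a2
    have hbe := be_abs b δ hb hδ z.2 a4 a6
    have hhp : 1 ≤ ht z.1 := by
      unfold ht
      have c1 : (1 : ℝ) ≤ z.1.1 := by exact_mod_cast a1
      have c2 : (1 : ℝ) ≤ z.1.2 := by exact_mod_cast a2
      nlinarith
    have hhq : 0 < ht z.2 := by unfold ht; positivity
    have hhX : ht z.1 ≤ X := by
      unfold ht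
      exact_mod_cast a3
    have hh0 : 0 < ht z.1 := by linarith
    have e1 : ht z.1 ^ (-(1 / 2) + δ) ≤ (√(ht z.1))⁻¹ * (X : ℝ) ^ δ := by
      rw [Real.rpow_add hh0, Real.rpow_neg hh0.le, ← Real.sqrt_eq_rpow]
      gcongr
    rw [norm_mul, norm_real, Real.norm_eq_abs]
    calc |be b δ z.2| * ‖∫ u in T..(2 * T), (cod δ u z.1 : ℂ) *
        cexp (I * ((u * (lam z.1 + lam z.2) : ℝ) : ℂ))‖
        ≤ (√(ht z.2))⁻¹ * (11 * ht z.1 ^ (-(1 / 2) + δ) * |lam z.1 + lam z.2|⁻¹) := by gcongr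
      _ ≤ (√(ht z.2))⁻¹ * (11 * ((√(ht z.1))⁻¹ * (X : ℝ) ^ δ) * |lam z.1 + lam z.2|⁻¹) := by
          gcongr
      _ = _ := by
          rw [Real.sqrt_mul hh0.le, mul_inv]
          ring
  refine (norm_sum_le _ _).trans ((Finset.sum_le_sum h1).trans ?_)
  rw [← Finset.mul_sum]
  have h2 := hoff X N hX hN
  calc 11 * (X : ℝ) ^ δ * ∑ z ∈ offS X N, (√(ht z.1 * ht z.2))⁻¹ * |lam z.1 + lam z.2|⁻¹
      ≤ 11 * (X : ℝ) ^ δ * (C * (((X * N ^ 2 : ℕ) : ℝ)) ^ (1 / 2 + κ)) := by gcongr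
    _ = _ := by ring

/-- the expansion of the moment into the diagonal and the off-diagonal part -/
theorem expand (hV : S_V) (b : ℕ → ℝ) (X N : ℕ) (δ T : ℝ) (hT : 1 ≤ T) :
    ∫ u in T..(2 * T), (∑ p ∈ PS X, (cod δ u p : ℂ) * cexp (I * ((u * lam p : ℝ) : ℂ))) *
      ((‖Mb b N δ u‖ ^ 2 : ℝ) : ℂ) =
    ((∫ u in T..(2 * T), DD b X N δ u : ℝ) : ℂ) +
      ∑ z ∈ offS X N, (be b δ z.2 : ℂ) * ∫ u in T..(2 * T), (cod δ u z.1 : ℂ) *
      cexp (I * ((u * (lam z.1 + lam z.2) : ℝ) : ℂ)) := by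
  classical
  have hT0 : 0 < T := by linarith
  have hab : T ≤ 2 * T := by linarith
  obtain ⟨Z, hZ⟩ : ∃ Z : Finset ((ℕ × ℕ) × (ℕ × ℕ)), Z = PS X ×ˢ (Icc 1 N ×ˢ Icc 1 N) := ⟨_, rfl⟩
  have hii : ∀ p ∈ PS X, IntervalIntegrable (fun u => cod δ u p) volume T (2 * T) := by
    intro p hp
    obtain ⟨a1, a2, -⟩ := mem_PS hp
    apply ContinuousOn.intervalIntegrable
    rw [Set.uIcc_of_le hab]
    exact cod_cont hV δ T p hT0 a1 a2
  have hint : ∀ z ∈ Z, IntervalIntegrable (fun u => (be b δ z.2 : ℂ) * ((cod δ u z.1 : ℂ) *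
      cexp (I * ((u * (lam z.1 + lam z.2) : ℝ) : ℂ)))) volume T (2 * T) := by
    intro z hz
    rw [hZ, mem_product] at hz
    obtain ⟨a1, a2, -⟩ := mem_PS hz.1
    apply ContinuousOn.intervalIntegrable
    rw [Set.uIcc_of_le hab]
    refine continuousOn_const.mul ((Complex.continuous_ofReal.comp_continuousOn
      (cod_cont hV δ T z.1 hT0 a1 a2)).mul ?_)
    exact Continuous.continuousOn (by fun_prop)
  have h1 : ∫ u in T..(2 * T), (∑ p ∈ PS X, (cod δ u p : ℂ) * cexp (I * ((u * lam p : ℝ) : ℂ))) *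
      ((‖Mb b N δ u‖ ^ 2 : ℝ) : ℂ) = ∑ z ∈ Z, (be b δ z.2 : ℂ) * ∫ u in T..(2 * T),
        (cod δ u z.1 : ℂ) * cexp (I * ((u * (lam z.1 + lam z.2) : ℝ) : ℂ)) := by
    have e1 : ∀ u : ℝ, (∑ p ∈ PS X, (cod δ u p : ℂ) * cexp (I * ((u * lam p : ℝ) : ℂ))) *
      ((‖Mb b N δ u‖ ^ 2 : ℝ) : ℂ) = ∑ z ∈ Z, (be b δ z.2 : ℂ) * ((cod δ u z.1 : ℂ) *
        cexp (I * ((u * (lam z.1 + lam z.2) : ℝ) : ℂ))) := by
      intro u
      rw [Mb_sq, Finset.sum_mul_sum, hZ, ← Finset.sum_product']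
      refine Finset.sum_congr rfl fun z _ => ?_
      have e2 : cexp (I * ((u * (lam z.1 + lam z.2) : ℝ) : ℂ)) =
          cexp (I * ((u * lam z.1 : ℝ) : ℂ)) * cexp (I * ((u * lam z.2 : ℝ) : ℂ)) := by
        rw [← Complex.exp_add]
        congr 1
        push_cast
        ring
      rw [e2]
      ring
    simp only [e1]
    rw [intervalIntegral.integral_finsetSum hint]
    refine Finset.sum_congr rfl fun z _ => ?_
    rw [intervalIntegral.integral_const_mul]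
  rw [h1, ← Finset.sum_filter_add_sum_filter_not Z (fun z => z.1.1 * z.2.1 = z.1.2 * z.2.2)]
  congr 1
  · -- the diagonal
    have e3 : ∫ u in T..(2 * T), DD b X N δ u = ∑ q ∈ Icc 1 N ×ˢ Icc 1 N, be b δ q *
        ∑ p ∈ (PS X).filter (fun p => p.1 * q.1 = p.2 * q.2),
          ∫ u in T..(2 * T), cod δ u p := by
      unfold DD
      rw [intervalIntegral.integral_finsetSum]
      · refine Finset.sum_congr rfl fun q _ => ?_
        rw [intervalIntegral.integral_const_mul, intervalIntegral.integral_finsetSum]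
        · rfl
        · intro p hp
          exact hii p (mem_filter.1 hp).1
      · intro q _
        apply IntervalIntegrable.const_mul
        have : IntervalIntegrable (∑ p ∈ (PS X).filter (fun p => p.1 * q.1 = p.2 * q.2),
            fun u => cod δ u p) volume T (2 * T) :=
          IntervalIntegrable.sum _ fun p hp => hii p (mem_filter.1 hp).1
        convert this using 1
        funext u
        simp
    rw [e3, hZ, Finset.sum_filter, Finset.sum_product_right]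
    push_cast
    refine Finset.sum_congr rfl fun q hq => ?_
    rw [Finset.mul_sum, Finset.sum_filter]
    refine Finset.sum_congr rfl fun p hp => ?_
    by_cases h : p.1 * q.1 = p.2 * q.2
    · rw [if_pos h, if_pos h, ← intervalIntegral.integral_ofReal]
      congr 1
      refine intervalIntegral.integral_congr fun u _ => ?_
      beta_reduce
      rw [mem_product, mem_Icc, mem_Icc] at hq
      obtain ⟨a1, a2, -⟩ := mem_PS hp
      have b1 : (0 : ℝ) < p.1 := by exact_mod_cast a1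
      have b2 : (0 : ℝ) < p.2 := by exact_mod_cast a2
      have b3 : (0 : ℝ) < q.1 := by exact_mod_cast hq.1.1
      have b4 : (0 : ℝ) < q.2 := by exact_mod_cast hq.2.1
      have hl : lam p + lam q = 0 := by
        unfold lam
        have h5 : (p.1 : ℝ) * q.1 = p.2 * q.2 := by exact_mod_cast h
        have h3 := congrArg Real.log h5
        rw [Real.log_mul b1.ne' b3.ne', Real.log_mul b2.ne' b4.ne'] at h3
        linarith
      rw [← ofReal_add, hl, ofReal_zero, mul_zero, mul_zero, Complex.exp_zero, mul_one]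
    · rw [if_neg h, if_neg h]
  · refine Finset.sum_congr ?_ fun z _ => rfl
    rw [hZ]
    rfl

end Pool.Agent.Zk5
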