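import Pool.Agent.Zk5.Mom2

set_option autoImplicit false

namespace Pool.Agent.Zk5

open Complex Filter Topology MeasureTheory
open Finset (Icc mem_Icc mem_product mem_filter)
open Pool.Agent.Y969.GP (ht lam PS V S_V S_CHI)

theorem tq_anti (δ u v : ℝ) (hu : 0 < u) (huv : u ≤ v) (hδ : 0 ≤ δ) : tq δ v ≤ tq δ u := by
  unfold tq
  have hpi := Real.pi_pos
  apply Real.exp_le_exp.2
  have h1 : Real.log (u / (2 * Real.pi)) ≤ Real.log (v / (2 * Real.pi)) := by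
    apply Real.log_le_log (by positivity)
    gcongr
  nlinarith

theorem mom (θ a0 : ℝ) (hθ : 0 < θ) (hθ' : θ < 1 / 2) (ha : 0 < a0) :
    ∃ η C T0 : ℝ, 0 < η ∧ 0 < C ∧ 8 ≤ T0 ∧ ∀ (b : ℕ → ℝ) (N : ℕ) (δ T : ℝ), T0 ≤ T →
    (∀ n, |b n| ≤ 1) → 0 < δ → δ * Real.log T ≤ a0 → 1 ≤ N → (N : ℝ) ≤ T ^ θ →
    zr (1 - 2 * δ) ≤ 0 → 0 ≤ S2 b N δ →
    ∫ u in T..(2 * T), zd δ u * ‖Mb b N δ u‖ ^ 2 ≤
      T * (zr (1 + 2 * δ) * S1 b N δ + tq δ (2 * T) * zr (1 - 2 * δ) * S2 b N δ) +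
        C * T ^ (1 - η) := by
  have hV : S_V := Pool.Agent.Y587.GP.t_V
  have hCHI : S_CHI := Pool.Agent.Y587.GP.Chi.t_CHI
  obtain ⟨β, hβ⟩ : ∃ β : ℝ, β = 1 / 2 - θ := ⟨_, rfl⟩
  have hβ0 : 0 < β := by rw [hβ]; linarith
  have hβ1 : β < 1 / 2 := by rw [hβ]; linarith
  obtain ⟨ε, hε⟩ : ∃ ε : ℝ, ε = β / 8 := ⟨_, rfl⟩
  have hε0 : 0 < ε := by rw [hε]; positivity
  have hε1 : ε < 1 / 16 := by rw [hε]; linarith
  obtain ⟨C1, hC1, hafe⟩ := afe hV hCHI ε hε0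
  obtain ⟨C2, hC2, hmm⟩ := Mb_mean
  obtain ⟨C3, hC3, hoff⟩ := off_part hV ε hε0
  obtain ⟨C4, hC4, hdd⟩ := DD_eq ε hε0
  -- thresholds
  obtain ⟨T1, hT1⟩ : ∃ T1 : ℝ, ∀ T : ℝ, T1 ≤ T → 2 * Real.pi ≤ T ^ (2 * β) := by
    have := (tendsto_rpow_atTop (show 0 < 2 * β by positivity)).eventually_ge_atTop (2 * Real.pi)
    exact eventually_atTop.1 this
  obtain ⟨T2, hT2⟩ : ∃ T2 : ℝ, ∀ T : ℝ, T2 ≤ T → 8 * a0 ≤ Real.log T := by
    exact eventually_atTop.1 (Real.tendsto_log_atTop.eventually_ge_atTop (8 * a0))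
  obtain ⟨KX, hKX⟩ : ∃ KX : ℝ, KX = 2 * Real.exp (2 * a0) := ⟨_, rfl⟩
  have hKX0 : 0 < KX := by rw [hKX]; positivity
  refine ⟨β / 4, C1 * C2 * 9 + C3 * KX * 8 + C4, max 8 (max T1 T2), by positivity, by positivity,
    le_max_left _ _, fun b N δ T hT hb hδ hδa hN hNT hz hS2 => ?_⟩
  have hT8 : 8 ≤ T := (le_max_left _ _).trans hT
  have hTT1 := hT1 T (((le_max_left _ _).trans (le_max_right _ _)).trans hT)
  have hTT2 := hT2 T (((le_max_right _ _).trans (le_max_right _ _)).trans hT)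
  have hT0 : 0 < T := by linarith
  have hT1' : 1 ≤ T := by linarith
  have hab : T ≤ 2 * T := by linarith
  have hlT : 0 < Real.log T := Real.log_pos (by linarith)
  have hδ8 : δ ≤ 1 / 8 := by
    have : δ * (8 * a0) ≤ δ * Real.log T := by gcongr
    nlinarith
  have hNr : (1 : ℝ) ≤ N := by exact_mod_cast hN
  have hNT' : (N : ℝ) ≤ T := hNT.trans (by
    calc T ^ θ ≤ T ^ (1 : ℝ) := Real.rpow_le_rpow_of_exponent_le hT1' (by linarith)
      _ = T := Real.rpow_one T)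
  have hNN : 2 * Real.pi * ((N : ℝ) * N) ≤ T := by
    calc 2 * Real.pi * ((N : ℝ) * N) ≤ T ^ (2 * β) * (T ^ θ * T ^ θ) := by gcongr
      _ = T ^ (2 * β + (θ + θ)) := by rw [← Real.rpow_add hT0, ← Real.rpow_add hT0]
      _ = T := by
          rw [hβ, show 2 * (1 / 2 - θ) + (θ + θ) = 1 by ring, Real.rpow_one]
  -- the length of the approximate functional equation
  obtain ⟨X, hX⟩ : ∃ X : ℕ, X = ⌈(2 * T) ^ (1 + ε)⌉₊ := ⟨_, rfl⟩
  have hXl : (2 * T) ^ (1 + ε) ≤ X := by rw [hX]; exact Nat.le_ceil _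
  have hXu : (X : ℝ) ≤ 8 * T ^ (1 + ε) := by
    have h1 : (X : ℝ) < (2 * T) ^ (1 + ε) + 1 := by
      rw [hX]; exact Nat.ceil_lt_add_one (by positivity)
    have h2 : (2 * T) ^ (1 + ε) = 2 ^ (1 + ε) * T ^ (1 + ε) :=
      Real.mul_rpow (by norm_num) hT0.le
    have h3 : (2 : ℝ) ^ (1 + ε) ≤ 4 := by
      calc (2 : ℝ) ^ (1 + ε) ≤ 2 ^ (2 : ℝ) :=
            Real.rpow_le_rpow_of_exponent_le (by norm_num) (by linarith)
        _ = 4 := by norm_num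
    have h4 : 1 ≤ T ^ (1 + ε) := Real.one_le_rpow hT1' (by linarith)
    nlinarith
  have hX1r : (1 : ℝ) ≤ X := by
    refine le_trans ?_ hXl
    exact Real.one_le_rpow (by linarith) (by linarith)
  have hX1 : 1 ≤ X := by exact_mod_cast hX1r
  have hXδ : (X : ℝ) ^ δ ≤ KX := by
    have h1 : (X : ℝ) ≤ 8 * T ^ (2 : ℝ) := hXu.trans (by
      gcongr
      linarith)
    calc (X : ℝ) ^ δ ≤ (8 * T ^ (2 : ℝ)) ^ δ := by gcongr
      _ = 8 ^ δ * T ^ (2 * δ) := by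
          rw [Real.mul_rpow (by norm_num) (by positivity), ← Real.rpow_mul hT0.le]
      _ ≤ 2 * Real.exp (2 * a0) := by
          have h2 : (8 : ℝ) ^ δ ≤ 2 := by
            calc (8 : ℝ) ^ δ ≤ 8 ^ (1 / 3 : ℝ) :=
                  Real.rpow_le_rpow_of_exponent_le (by norm_num) (by linarith)
              _ = 2 := by
                  rw [show (8 : ℝ) = 2 ^ (3 : ℝ) by norm_num, ← Real.rpow_mul (by norm_num)]
                  norm_num
          have h3 : T ^ (2 * δ) ≤ Real.exp (2 * a0) := by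
            rw [Real.rpow_def_of_pos hT0]
            apply Real.exp_le_exp.2
            nlinarith
          gcongr
      _ = KX := hKX.symm
  have hu1 : ∀ u ∈ Set.Icc T (2 * T), 6 ≤ u ∧ 1 ≤ u ∧ 0 < u ∧ u ^ (1 + ε) ≤ X := by
    intro u hu
    refine ⟨by linarith [hu.1], by linarith [hu.1], by linarith [hu.1], ?_⟩
    refine le_trans ?_ hXl
    exact Real.rpow_le_rpow (by linarith [hu.1]) hu.2 (by linarith)
  -- the error of the approximate functional equation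
  obtain ⟨P, hP⟩ : ∃ P : ℝ → ℂ, P = fun u => ∑ p ∈ PS X, (cod δ u p : ℂ) *
    cexp (I * ((u * lam p : ℝ) : ℂ)) := ⟨_, rfl⟩
  have hPc : ContinuousOn P (Set.Icc T (2 * T)) := by
    rw [hP]
    refine continuousOn_finsetSum _ fun p hp => ?_
    obtain ⟨a1, a2, -⟩ := mem_PS hp
    refine (Complex.continuous_ofReal.comp_continuousOn (cod_cont hV δ T p hT0 a1 a2)).mul ?_
    exact Continuous.continuousOn (by fun_prop)
  have hMc : ContinuousOn (fun u => ‖Mb b N δ u‖ ^ 2) (Set.Icc T (2 * T)) :=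
    ((Mb_cont b N δ).norm.pow 2).continuousOn
  have hMcc : ContinuousOn (fun u => ((‖Mb b N δ u‖ ^ 2 : ℝ) : ℂ)) (Set.Icc T (2 * T)) :=
    Complex.continuous_ofReal.comp_continuousOn hMc
  have hzc : ContinuousOn (fun u => ((zd δ u : ℝ) : ℂ)) (Set.Icc T (2 * T)) :=
    Complex.continuous_ofReal.comp_continuousOn (zd_cont δ T hT0)
  have i1 : IntervalIntegrable (fun u => P u * ((‖Mb b N δ u‖ ^ 2 : ℝ) : ℂ)) volume T (2 * T) := by
    apply ContinuousOn.intervalIntegrable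
    rw [Set.uIcc_of_le hab]
    exact hPc.mul hMcc
  have i2 : IntervalIntegrable (fun u => ((zd δ u : ℝ) - P u) * ((‖Mb b N δ u‖ ^ 2 : ℝ) : ℂ))
      volume T (2 * T) := by
    apply ContinuousOn.intervalIntegrable
    rw [Set.uIcc_of_le hab]
    exact (hzc.sub hPc).mul hMcc
  have i3 : IntervalIntegrable (fun u => ‖Mb b N δ u‖ ^ 2) volume T (2 * T) := by
    apply ContinuousOn.intervalIntegrable
    rw [Set.uIcc_of_le hab]
    exact hMc
  have hsplit : ((∫ u in T..(2 * T), zd δ u * ‖Mb b N δ u‖ ^ 2 : ℝ) : ℂ) =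
      (∫ u in T..(2 * T), P u * ((‖Mb b N δ u‖ ^ 2 : ℝ) : ℂ)) +
      ∫ u in T..(2 * T), ((zd δ u : ℝ) - P u) * ((‖Mb b N δ u‖ ^ 2 : ℝ) : ℂ) := by
    rw [← intervalIntegral.integral_add i1 i2, ← intervalIntegral.integral_ofReal]
    refine intervalIntegral.integral_congr fun u _ => ?_
    beta_reduce
    push_cast
    ring
  have hmean := hmm b N δ T hb hδ.le hN hNT' hT1'
  have herr : ‖∫ u in T..(2 * T), ((zd δ u : ℝ) - P u) * ((‖Mb b N δ u‖ ^ 2 : ℝ) : ℂ)‖ ≤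
      C1 * T ^ (-(1 / 4) : ℝ) * (C2 * T * (1 + Real.log T)) := by
    have hb1 : ∀ u ∈ Set.Icc T (2 * T), ‖((zd δ u : ℝ) - P u) *
        ((‖Mb b N δ u‖ ^ 2 : ℝ) : ℂ)‖ ≤ C1 * T ^ (-(1 / 4) : ℝ) * ‖Mb b N δ u‖ ^ 2 := by
      intro u hu
      obtain ⟨h6, h1, h0, hXX⟩ := hu1 u hu
      have h7 := hafe u δ X h6 hδ.le hδ8 hXX
      rw [norm_mul, norm_real, Real.norm_eq_abs, abs_of_nonneg (by positivity)]
      have h8 : u ^ (-(1 / 4) : ℝ) ≤ T ^ (-(1 / 4) : ℝ) :=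
        Real.rpow_le_rpow_of_nonpos hT0 hu.1 (by norm_num)
      have h9 : ‖(zd δ u : ℂ) - P u‖ ≤ C1 * T ^ (-(1 / 4) : ℝ) := by
        rw [hP]
        exact h7.trans (by gcongr)
      gcongr
    calc ‖∫ u in T..(2 * T), ((zd δ u : ℝ) - P u) * ((‖Mb b N δ u‖ ^ 2 : ℝ) : ℂ)‖
        ≤ ∫ u in T..(2 * T), ‖((zd δ u : ℝ) - P u) * ((‖Mb b N δ u‖ ^ 2 : ℝ) : ℂ)‖ :=
          intervalIntegral.norm_integral_le_integral_norm hab
      _ ≤ ∫ u in T..(2 * T), C1 * T ^ (-(1 / 4) : ℝ) * ‖Mb b N δ u‖ ^ 2 :=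
          intervalIntegral.integral_mono_on hab i2.norm (i3.const_mul _) hb1
      _ = C1 * T ^ (-(1 / 4) : ℝ) * ∫ u in T..(2 * T), ‖Mb b N δ u‖ ^ 2 := by
          rw [intervalIntegral.integral_const_mul]
      _ ≤ _ := by gcongr
  have hexp := expand hV b X N δ T hT1'
  have hPe : (fun u => P u * ((‖Mb b N δ u‖ ^ 2 : ℝ) : ℂ)) = fun u =>
      (∑ p ∈ PS X, (cod δ u p : ℂ) * cexp (I * ((u * lam p : ℝ) : ℂ))) *
      ((‖Mb b N δ u‖ ^ 2 : ℝ) : ℂ) := by rw [hP]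
  rw [hPe, hexp] at hsplit
  have hofp := hoff b X N δ T hb hδ.le hδ8 hT1' hX1 hN
  -- the diagonal
  obtain ⟨Q, hQ⟩ : ∃ Q : ℝ, Q = zr (1 + 2 * δ) * S1 b N δ + tq δ (2 * T) * zr (1 - 2 * δ) *
    S2 b N δ := ⟨_, rfl⟩
  rw [← hQ]
  have hDDc : ContinuousOn (DD b X N δ) (Set.Icc T (2 * T)) := by
    unfold DD
    refine continuousOn_finsetSum _ fun q _ => continuousOn_const.mul ?_
    refine continuousOn_finsetSum _ fun p hp => ?_
    obtain ⟨a1, a2, -⟩ := mem_PS (mem_filter.1 hp).1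
    exact cod_cont hV δ T p hT0 a1 a2
  have hdiag : ∫ u in T..(2 * T), DD b X N δ u ≤ T * Q + C4 * N * T ^ (-(1 / 2) : ℝ) * T := by
    have h1 : ∫ u in T..(2 * T), DD b X N δ u ≤
        ∫ _ in T..(2 * T), (Q + C4 * N * T ^ (-(1 / 2) : ℝ)) := by
      apply intervalIntegral.integral_mono_on hab
      · apply ContinuousOn.intervalIntegrable
        rw [Set.uIcc_of_le hab]
        exact hDDc
      · exact intervalIntegrable_const
      · intro u hu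
        obtain ⟨h6, h1, h0, hXX⟩ := hu1 u hu
        have h7 := hdd b δ u X N hb hδ hδ8 h1 hXX (hNN.trans hu.1)
        have h8 : u ^ (-(1 / 2) : ℝ) ≤ T ^ (-(1 / 2) : ℝ) :=
          Real.rpow_le_rpow_of_nonpos hT0 hu.1 (by norm_num)
        have h9 := tq_anti δ u (2 * T) h0 hu.2 hδ.le
        have h10 : tq δ u * zr (1 - 2 * δ) * S2 b N δ ≤
            tq δ (2 * T) * zr (1 - 2 * δ) * S2 b N δ := by
          have : zr (1 - 2 * δ) * S2 b N δ ≤ 0 := mul_nonpos_of_nonpos_of_nonneg hz hS2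
          nlinarith
        have h11 := (abs_le.1 h7).2
        have h12 : C4 * N * u ^ (-(1 / 2) : ℝ) ≤ C4 * N * T ^ (-(1 / 2) : ℝ) := by gcongr
        rw [hQ]
        linarith
    refine h1.trans (le_of_eq ?_)
    rw [intervalIntegral.integral_const, smul_eq_mul]
    ring
  -- collect
  have hre := congrArg Complex.re hsplit
  rw [ofReal_re, add_re, add_re, ofReal_re] at hre
  have hr1 := (Complex.re_le_norm _).trans hofp
  have hr2 := (Complex.re_le_norm _).trans herr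
  have hlog : Real.log T ≤ 8 * T ^ (1 / 8 : ℝ) := by
    have := Real.log_le_rpow_div hT0.le (show (0 : ℝ) < 1 / 8 by norm_num)
    linarith
  have hone : 1 ≤ T ^ (1 / 8 : ℝ) := Real.one_le_rpow hT1' (by norm_num)
  have b1 : C1 * T ^ (-(1 / 4) : ℝ) * (C2 * T * (1 + Real.log T)) ≤
      C1 * C2 * 9 * T ^ (1 - β / 4) := by
    calc C1 * T ^ (-(1 / 4) : ℝ) * (C2 * T * (1 + Real.log T))
        ≤ C1 * T ^ (-(1 / 4) : ℝ) * (C2 * T * (T ^ (1 / 8 : ℝ) + 8 * T ^ (1 / 8 : ℝ))) := by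
          gcongr
      _ = C1 * C2 * 9 * (T ^ (-(1 / 4) : ℝ) * T ^ (1 : ℝ) * T ^ (1 / 8 : ℝ)) := by
          rw [Real.rpow_one]; ring
      _ = C1 * C2 * 9 * T ^ (-(1 / 4) + 1 + 1 / 8 : ℝ) := by
          rw [← Real.rpow_add hT0, ← Real.rpow_add hT0]
      _ ≤ C1 * C2 * 9 * T ^ (1 - β / 4) := by
          gcongr
          linarith
  have b2 : C3 * (X : ℝ) ^ δ * (((X * N ^ 2 : ℕ) : ℝ)) ^ (1 / 2 + ε) ≤
      C3 * KX * 8 * T ^ (1 - β / 4) := by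
    have h1 : (((X * N ^ 2 : ℕ) : ℝ)) ≤ 8 * T ^ (1 + ε + 2 * θ) := by
      push_cast
      calc (X : ℝ) * (N : ℝ) ^ 2 ≤ (8 * T ^ (1 + ε)) * (T ^ θ) ^ 2 := by gcongr
        _ = 8 * T ^ (1 + ε + 2 * θ) := by
            rw [Real.rpow_add hT0 (1 + ε), mul_comm (2 : ℝ) θ, Real.rpow_mul hT0.le]
            norm_num
            ring
    have h2 : (((X * N ^ 2 : ℕ) : ℝ)) ^ (1 / 2 + ε) ≤ 8 * T ^ (1 - β / 4) := by
      calc (((X * N ^ 2 : ℕ) : ℝ)) ^ (1 / 2 + ε) ≤ (8 * T ^ (1 + ε + 2 * θ)) ^ (1 / 2 + ε) := by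
            gcongr
        _ = 8 ^ (1 / 2 + ε) * T ^ ((1 + ε + 2 * θ) * (1 / 2 + ε)) := by
            rw [Real.mul_rpow (by norm_num) (by positivity), ← Real.rpow_mul hT0.le]
        _ ≤ 8 * T ^ (1 - β / 4) := by
            have h3 : (8 : ℝ) ^ (1 / 2 + ε) ≤ 8 := by
              calc (8 : ℝ) ^ (1 / 2 + ε) ≤ 8 ^ (1 : ℝ) :=
                    Real.rpow_le_rpow_of_exponent_le (by norm_num) (by linarith)
                _ = 8 := by norm_num
            have h4 : (1 + ε + 2 * θ) * (1 / 2 + ε) ≤ 1 - β / 4 := by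
              have e1 : θ = 1 / 2 - β := by rw [hβ]; ring
              rw [e1, hε]
              nlinarith
            gcongr
    calc C3 * (X : ℝ) ^ δ * (((X * N ^ 2 : ℕ) : ℝ)) ^ (1 / 2 + ε)
        ≤ C3 * KX * (8 * T ^ (1 - β / 4)) := by gcongr
      _ = _ := by ring
  have b3 : C4 * N * T ^ (-(1 / 2) : ℝ) * T ≤ C4 * T ^ (1 - β / 4) := by
    calc C4 * N * T ^ (-(1 / 2) : ℝ) * T ≤ C4 * T ^ θ * T ^ (-(1 / 2) : ℝ) * T := by gcongr
      _ = C4 * (T ^ θ * T ^ (-(1 / 2) : ℝ) * T ^ (1 : ℝ)) := by rw [Real.rpow_one]; ring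
      _ = C4 * T ^ (θ + -(1 / 2) + 1) := by rw [← Real.rpow_add hT0, ← Real.rpow_add hT0]
      _ ≤ C4 * T ^ (1 - β / 4) := by
          gcongr
          rw [hβ]; linarith
  rw [hre]
  calc _ ≤ (T * Q + C4 * N * T ^ (-(1 / 2) : ℝ) * T) +
        C3 * (X : ℝ) ^ δ * (((X * N ^ 2 : ℕ) : ℝ)) ^ (1 / 2 + ε) +
        C1 * T ^ (-(1 / 4) : ℝ) * (C2 * T * (1 + Real.log T)) :=
        add_le_add (add_le_add hdiag hr1) hr2
    _ ≤ (T * Q + C4 * T ^ (1 - β / 4)) + C3 * KX * 8 * T ^ (1 - β / 4) +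
        C1 * C2 * 9 * T ^ (1 - β / 4) := by gcongr
    _ = _ := by ring

end Pool.Agent.Zk5
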