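import Pool.Agent.Zk5.Qf2
import Pool.Agent.Zk5.Mom3

set_option autoImplicit false

namespace Pool.Agent.Zk5

open Complex Filter Topology MeasureTheory
open Finset (Icc mem_Icc mem_product mem_filter)

/-- the mollifier coefficients -/
noncomputable def bb (N : ℕ) (δ : ℝ) (h : ℕ) : ℝ := cc (1 + 2 * δ) N h * (h : ℝ) ^ (1 + 2 * δ)

theorem bb_abs (N : ℕ) (δ : ℝ) (hδ : 0 < δ) (hN : 1 ≤ N) (h : ℕ) : |bb N δ h| ≤ 1 := by
  unfold bb
  rcases Nat.eq_zero_or_pos h with h0 | h0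
  · subst h0
    rw [cc_zero _ _ _ (by simp)]
    simp
  · rw [abs_mul, abs_of_nonneg (by positivity : (0 : ℝ) ≤ (h : ℝ) ^ (1 + 2 * δ))]
    exact cc_abs (1 + 2 * δ) (by linarith) N h h0 hN

theorem bb_one (N : ℕ) (δ : ℝ) (hδ : 0 < δ) (hN : 1 ≤ N) : bb N δ 1 = 1 := by
  unfold bb
  rw [cc_one _ (by linarith) N hN]
  simp

theorem S1_bb (N : ℕ) (δ : ℝ) (hδ : 0 < δ) (hN : 1 ≤ N) :
    S1 (bb N δ) N δ = (GG (1 + 2 * δ) N)⁻¹ := by
  rw [← cc_form (1 + 2 * δ) (by linarith) N hN]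
  unfold S1 bb
  refine Finset.sum_congr rfl fun q hq => ?_
  rw [mem_product, mem_Icc, mem_Icc] at hq
  have h1 : (0 : ℝ) < q.1 := by exact_mod_cast hq.1.1
  have h2 : (0 : ℝ) < q.2 := by exact_mod_cast hq.2.1
  have h3 : ((q.1 : ℝ) * q.2) ^ (-(1 + 2 * δ)) =
      ((q.1 : ℝ) ^ (1 + 2 * δ) * (q.2 : ℝ) ^ (1 + 2 * δ))⁻¹ := by
    rw [Real.rpow_neg (by positivity), Real.mul_rpow h1.le h2.le]
  rw [h3]
  have h4 : 0 < (q.1 : ℝ) ^ (1 + 2 * δ) := by positivity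
  have h5 : 0 < (q.2 : ℝ) ^ (1 + 2 * δ) := by positivity
  field_simp

theorem S2_bb (N : ℕ) (δ : ℝ) (hδ : 0 < δ) (hδ' : δ < 1 / 2) (hN : 1 ≤ N) :
    1 ≤ S2 (bb N δ) N δ * GG (1 - 2 * δ) N := by
  have h := form_lower N (1 - 2 * δ) (by linarith) hN (fun h => bb N δ h / h) (by
    intro h hh
    simp only [bb]
    rw [cc_zero _ _ _ hh]
    simp) (by
    simp only [Nat.cast_one, div_one]
    exact bb_one N δ hδ hN)
  have e : ∑ q ∈ Icc 1 N ×ˢ Icc 1 N, (fun h : ℕ => bb N δ h / h) q.1 *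
      (fun h : ℕ => bb N δ h / h) q.2 * (Nat.gcd q.1 q.2 : ℝ) ^ (1 - 2 * δ) =
      S2 (bb N δ) N δ := by
    unfold S2
    refine Finset.sum_congr rfl fun q hq => ?_
    rw [mem_product, mem_Icc, mem_Icc] at hq
    have h1 : (0 : ℝ) < q.1 := by exact_mod_cast hq.1.1
    have h2 : (0 : ℝ) < q.2 := by exact_mod_cast hq.2.1
    simp only
    field_simp
  rw [e] at h
  exact h

theorem zr_near (s : ℝ) (hs : 0 < s) (hs1 : s ≠ 1) : zr s ≤ 2 + 1 / (s - 1) := by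
  have h := em_real s 1 hs hs1 one_pos
  rw [Nat.floor_one] at h
  simp only [Finset.Icc_self, Finset.sum_singleton, Nat.cast_one, Real.one_rpow] at h
  have := (abs_le.1 h).2
  linarith

/-- the bound for the main term in terms of `x = N^(2δ)` -/
theorem main_le (C : ℝ) (N : ℕ) (δ a T : ℝ) (hN : 2 ≤ N) (hδ : 0 < δ) (hδ' : δ ≤ 1 / 8)
    (hC : 0 < C)
    (hT : 1 ≤ T) (haT : δ * Real.log T = a)
    (h1 : (1 - (N : ℝ) ^ (1 - (1 + 2 * δ))) / ((1 + 2 * δ) - 1) ≤ GG (1 + 2 * δ) N)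
    (h2 : GG (1 - 2 * δ) N ≤ ((N : ℝ) ^ (1 - (1 - 2 * δ)) - 1) / (1 - (1 - 2 * δ)) +
      C * (N : ℝ) ^ (1 - (1 - 2 * δ))) :
    zr (1 + 2 * δ) * S1 (bb N δ) N δ + tq δ (2 * T) * zr (1 - 2 * δ) * S2 (bb N δ) N δ ≤
      (1 + 4 * δ) / (1 - ((N : ℝ) ^ (2 * δ))⁻¹) - Real.exp (-(2 * a)) * ((1 - 4 * δ) /
        ((N : ℝ) ^ (2 * δ) - 1 + 2 * δ * C * (N : ℝ) ^ (2 * δ))) := by
  have hNr : (2 : ℝ) ≤ N := by exact_mod_cast hN
  obtain ⟨x, hx⟩ : ∃ x : ℝ, x = (N : ℝ) ^ (2 * δ) := ⟨_, rfl⟩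
  have hx1 : 1 < x := by
    rw [hx]; exact Real.one_lt_rpow (by linarith) (by linarith)
  have e1 : (N : ℝ) ^ (1 - (1 + 2 * δ)) = x⁻¹ := by
    rw [hx, ← Real.rpow_neg (by linarith)]; congr 1; ring
  have e2 : (N : ℝ) ^ (1 - (1 - 2 * δ)) = x := by
    rw [hx]; congr 1; ring
  rw [e1, show (1 + 2 * δ) - 1 = 2 * δ by ring] at h1
  rw [e2, show 1 - (1 - 2 * δ) = 2 * δ by ring] at h2
  rw [← hx]
  have hxi : x⁻¹ < 1 := inv_lt_one_of_one_lt₀ hx1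
  have hxi0 : 0 < x⁻¹ := by positivity
  have hS1 := S1_bb N δ hδ (by omega)
  have hS2 := S2_bb N δ hδ (by linarith) (by omega)
  have hG2 : 1 ≤ GG (1 - 2 * δ) N := GG_pos _ (by linarith) N (by omega)
  have hz1 := zr_near (1 + 2 * δ) (by linarith) (by linarith)
  have hz2 := zr_near (1 - 2 * δ) (by linarith) (by linarith)
  rw [show (1 + 2 * δ) - 1 = 2 * δ by ring] at hz1
  rw [show (1 - 2 * δ) - 1 = -(2 * δ) by ring] at hz2
  -- the first term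
  have hg : 0 < (1 - x⁻¹) / (2 * δ) := div_pos (by linarith) (by linarith)
  have hfirst : zr (1 + 2 * δ) * S1 (bb N δ) N δ ≤ (1 + 4 * δ) / (1 - x⁻¹) := by
    rw [hS1]
    have hb0 : 0 ≤ (GG (1 + 2 * δ) N)⁻¹ := inv_nonneg.2 (hg.le.trans h1)
    have hb1 : (GG (1 + 2 * δ) N)⁻¹ ≤ ((1 - x⁻¹) / (2 * δ))⁻¹ := inv_anti₀ hg h1
    calc zr (1 + 2 * δ) * (GG (1 + 2 * δ) N)⁻¹ ≤ (2 + 1 / (2 * δ)) * (GG (1 + 2 * δ) N)⁻¹ := by
          gcongr
      _ ≤ (2 + 1 / (2 * δ)) * ((1 - x⁻¹) / (2 * δ))⁻¹ := by gcongr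
      _ = (1 + 4 * δ) / (1 - x⁻¹) := by
          rw [inv_div]
          have h3 : (1 - x⁻¹) ≠ 0 := by linarith
          field_simp
          ring
  -- the second term
  obtain ⟨D, hD⟩ : ∃ D : ℝ, D = x - 1 + 2 * δ * C * x := ⟨_, rfl⟩
  have hD0 : 0 < D := by
    rw [hD]
    have : 0 < 2 * δ * C * x := by positivity
    linarith
  have hGD : GG (1 - 2 * δ) N ≤ D / (2 * δ) := by
    refine h2.trans (le_of_eq ?_)
    rw [hD]
    field_simp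
  have hS2l : 2 * δ / D ≤ S2 (bb N δ) N δ := by
    have h4 : 0 < S2 (bb N δ) N δ := by
      by_contra hcon
      push Not at hcon
      have : S2 (bb N δ) N δ * GG (1 - 2 * δ) N ≤ 0 :=
        mul_nonpos_of_nonpos_of_nonneg hcon (by linarith)
      linarith
    have h5 : 1 ≤ S2 (bb N δ) N δ * (D / (2 * δ)) := hS2.trans (by gcongr)
    rw [div_le_iff₀ hD0]
    have h6 : S2 (bb N δ) N δ * (D / (2 * δ)) * (2 * δ) = S2 (bb N δ) N δ * D := by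
      field_simp
    rw [← h6]
    nlinarith
  have htq : Real.exp (-(2 * a)) ≤ tq δ (2 * T) := by
    unfold tq
    apply Real.exp_le_exp.2
    have hpi := Real.pi_pos
    have hpi2 := Real.two_le_pi
    have h7 : Real.log (2 * T / (2 * Real.pi)) ≤ Real.log T := by
      apply Real.log_le_log (by positivity)
      rw [div_le_iff₀ (by positivity)]
      nlinarith
    rw [← haT]
    nlinarith
  have hz2' : zr (1 - 2 * δ) ≤ -((1 - 4 * δ) / (2 * δ)) := by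
    refine hz2.trans (le_of_eq ?_)
    field_simp
    ring
  have hk : 0 ≤ (1 - 4 * δ) / (2 * δ) := div_nonneg (by linarith) (by linarith)
  have hsecond : tq δ (2 * T) * zr (1 - 2 * δ) * S2 (bb N δ) N δ ≤
      -(Real.exp (-(2 * a)) * ((1 - 4 * δ) / D)) := by
    have htq0 := tq_pos δ (2 * T)
    have hS20 : 0 ≤ 2 * δ / D := by positivity
    have h8 : Real.exp (-(2 * a)) * ((1 - 4 * δ) / (2 * δ)) * (2 * δ / D) ≤
        tq δ (2 * T) * (-zr (1 - 2 * δ)) * S2 (bb N δ) N δ := by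
      have h9 : (1 - 4 * δ) / (2 * δ) ≤ -zr (1 - 2 * δ) := by linarith
      have h10 : 0 ≤ -zr (1 - 2 * δ) := hk.trans h9
      gcongr
    have h11 : Real.exp (-(2 * a)) * ((1 - 4 * δ) / (2 * δ)) * (2 * δ / D) =
        Real.exp (-(2 * a)) * ((1 - 4 * δ) / D) := by
      field_simp
    rw [h11] at h8
    linarith
  rw [hD] at hsecond
  linarith

end Pool.Agent.Zk5
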