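import Pool.Agent.Zk5.Msq1

set_option autoImplicit false

namespace Pool.Agent.Zk5

open Complex Filter Topology MeasureTheory
open Finset (Icc mem_Icc mem_product mem_filter)

/-- `⌊T^θ⌋^(2a/log T) → e^(2aθ)` -/
theorem floor_pow_tendsto (a θ : ℝ) (hθ : 0 < θ) :
    Tendsto (fun T : ℝ => ((⌊T ^ θ⌋₊ : ℕ) : ℝ) ^ (2 * (a / Real.log T))) atTop
      (𝓝 (Real.exp (2 * a * θ))) := by
  have h1 : Tendsto (fun T : ℝ => ((⌊T ^ θ⌋₊ : ℕ) : ℝ) / T ^ θ) atTop (𝓝 1) :=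
    (tendsto_nat_floor_div_atTop (R := ℝ)).comp (tendsto_rpow_atTop hθ)
  have h2 : Tendsto (fun T : ℝ => Real.log (((⌊T ^ θ⌋₊ : ℕ) : ℝ) / T ^ θ)) atTop (𝓝 0) := by
    have := (Real.continuousAt_log one_ne_zero).tendsto.comp h1
    rw [Real.log_one] at this
    exact this
  have h3 : Tendsto (fun T : ℝ => Real.log (((⌊T ^ θ⌋₊ : ℕ) : ℝ) / T ^ θ) / Real.log T) atTop
      (𝓝 0) := h2.div_atTop Real.tendsto_log_atTop
  have h4 : Tendsto (fun T : ℝ => Real.exp (2 * a * (θ +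
      Real.log (((⌊T ^ θ⌋₊ : ℕ) : ℝ) / T ^ θ) / Real.log T))) atTop
      (𝓝 (Real.exp (2 * a * (θ + 0)))) :=
    (Real.continuous_exp.tendsto _).comp ((tendsto_const_nhds.add h3).const_mul (2 * a))
  rw [add_zero] at h4
  refine h4.congr' ?_
  have hev : ∀ᶠ T : ℝ in atTop, 1 ≤ T ^ θ :=
    (tendsto_rpow_atTop hθ).eventually_ge_atTop 1
  filter_upwards [hev, eventually_gt_atTop (1 : ℝ)] with T hT1 hT2
  have hf : 1 ≤ ⌊T ^ θ⌋₊ := Nat.le_floor (by simpa using hT1)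
  have hf' : (0 : ℝ) < ((⌊T ^ θ⌋₊ : ℕ) : ℝ) := by exact_mod_cast hf
  have hTθ : 0 < T ^ θ := by linarith
  have hlT : 0 < Real.log T := Real.log_pos hT2
  rw [Real.rpow_def_of_pos hf']
  congr 1
  rw [Real.log_div hf'.ne' hTθ.ne', Real.log_rpow (by linarith)]
  field_simp
  ring

theorem delta_tendsto (a : ℝ) : Tendsto (fun T : ℝ => a / Real.log T) atTop (𝓝 0) :=
  tendsto_const_nhds.div_atTop Real.tendsto_log_atTop

theorem main_tendsto (C a θ : ℝ) (ha : 0 < a) (hθ : 0 < θ) :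
    Tendsto (fun T : ℝ => (1 + 4 * (a / Real.log T)) /
      (1 - (((⌊T ^ θ⌋₊ : ℕ) : ℝ) ^ (2 * (a / Real.log T)))⁻¹) -
      Real.exp (-(2 * a)) * ((1 - 4 * (a / Real.log T)) /
        (((⌊T ^ θ⌋₊ : ℕ) : ℝ) ^ (2 * (a / Real.log T)) - 1 +
          2 * (a / Real.log T) * C * ((⌊T ^ θ⌋₊ : ℕ) : ℝ) ^ (2 * (a / Real.log T))))) atTop
      (𝓝 (1 + (1 - Real.exp (-2 * a)) / (Real.exp (2 * θ * a) - 1))) := by
  have hx := floor_pow_tendsto a θ hθ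
  have hd := delta_tendsto a
  have hE : 1 < Real.exp (2 * a * θ) := Real.one_lt_exp_iff.2 (by positivity)
  have hEi : (Real.exp (2 * a * θ))⁻¹ < 1 := inv_lt_one_of_one_lt₀ hE
  have h1 : Tendsto (fun T : ℝ => 1 + 4 * (a / Real.log T)) atTop (𝓝 (1 + 4 * 0)) :=
    (hd.const_mul 4).const_add 1
  have h2 : Tendsto (fun T : ℝ => 1 - (((⌊T ^ θ⌋₊ : ℕ) : ℝ) ^ (2 * (a / Real.log T)))⁻¹) atTop
      (𝓝 (1 - (Real.exp (2 * a * θ))⁻¹)) := (hx.inv₀ (Real.exp_pos _).ne').const_sub 1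
  have h3 : Tendsto (fun T : ℝ => 1 - 4 * (a / Real.log T)) atTop (𝓝 (1 - 4 * 0)) :=
    (hd.const_mul 4).const_sub 1
  have h4 : Tendsto (fun T : ℝ => ((⌊T ^ θ⌋₊ : ℕ) : ℝ) ^ (2 * (a / Real.log T)) - 1 +
          2 * (a / Real.log T) * C * ((⌊T ^ θ⌋₊ : ℕ) : ℝ) ^ (2 * (a / Real.log T))) atTop
      (𝓝 (Real.exp (2 * a * θ) - 1 + 2 * 0 * C * Real.exp (2 * a * θ))) :=
    (hx.sub_const 1).add ((((hd.const_mul 2).mul_const C)).mul hx)
  have h5 := (h1.div h2 (by linarith)).sub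
    ((h3.div h4 (by linarith)).const_mul (Real.exp (-(2 * a))))
  have e : (1 + 4 * 0) / (1 - (Real.exp (2 * a * θ))⁻¹) -
          Real.exp (-(2 * a)) * ((1 - 4 * 0) /
            (Real.exp (2 * a * θ) - 1 + 2 * 0 * C * Real.exp (2 * a * θ))) =
      1 + (1 - Real.exp (-2 * a)) / (Real.exp (2 * θ * a) - 1) := by
    rw [show 2 * θ * a = 2 * a * θ by ring, show -2 * a = -(2 * a) by ring]
    have h6 : Real.exp (2 * a * θ) ≠ 0 := (Real.exp_pos _).ne'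
    have h7 : Real.exp (2 * a * θ) - 1 ≠ 0 := by linarith
    have h8 : 1 - (Real.exp (2 * a * θ))⁻¹ ≠ 0 := by linarith
    have h9 : 1 - (Real.exp (2 * a * θ))⁻¹ =
        (Real.exp (2 * a * θ) - 1) / Real.exp (2 * a * θ) := by
      field_simp
    rw [h9]
    simp only [mul_zero, add_zero, sub_zero, zero_mul]
    field_simp
    ring
  rw [e] at h5
  exact h5

theorem zd_Mb_eq (b : ℕ → ℝ) (N : ℕ) (δ u : ℝ) :
    zd δ u * ‖Mb b N δ u‖ ^ 2 = ‖riemannZeta (((1 / 2 + δ : ℝ) : ℂ) + I * u) *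
      ∑ n ∈ Icc 1 N, ((b n : ℝ) : ℂ) * (n : ℂ) ^ (-(((1 / 2 + δ : ℝ) : ℂ) + I * u))‖ ^ 2 := by
  have e : ((1 / 2 + δ : ℝ) : ℂ) = 1 / 2 + (δ : ℂ) := by push_cast; ring
  rw [e]
  unfold zd Mb
  rw [norm_mul, mul_pow]

/-- **mollified second moment** to the right of the critical line, in terms of the two elementary
sums -/
theorem msq_of
    (hmsg : ∀ (s : ℝ) (N : ℕ), 1 < s → 1 ≤ N → (1 - (N : ℝ) ^ (1 - s)) / (s - 1) ≤ GG s N)
    (hmsv : ∃ C : ℝ, 0 < C ∧ ∀ (s : ℝ) (N : ℕ), 3 / 4 ≤ s → s < 1 → 1 ≤ N →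
      GG s N ≤ ((N : ℝ) ^ (1 - s) - 1) / (1 - s) + C * (N : ℝ) ^ (1 - s))
    (a th eps : ℝ) (ha : 0 < a) (hth : 0 < th) (hth' : th < 1 / 2) (heps : 0 < eps) :
    ∃ T0 : ℝ, ∀ T : ℝ, T0 ≤ T → ∃ (N : ℕ) (b : ℕ → ℂ), 1 ≤ N ∧ (N : ℝ) ≤ T ∧ b 1 = 1 ∧
      (∀ n, ‖b n‖ ≤ 1) ∧
      ∫ t in T..(2 * T), ‖riemannZeta (((1 / 2 + a / Real.log T : ℝ) : ℂ) + I * t) *
        ∑ n ∈ Icc 1 N, b n * (n : ℂ) ^ (-(((1 / 2 + a / Real.log T : ℝ) : ℂ) + I * t))‖ ^ 2 ≤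
      T * (1 + (1 - Real.exp (-2 * a)) / (Real.exp (2 * th * a) - 1) + eps) := by
  obtain ⟨C, hC, hmsv⟩ := hmsv
  obtain ⟨η, C1, T1, hη, hC1, hT18, hmom⟩ := mom th a hth hth' ha
  obtain ⟨lim, hlim⟩ : ∃ lim : ℝ, lim = 1 + (1 - Real.exp (-2 * a)) /
    (Real.exp (2 * th * a) - 1) := ⟨_, rfl⟩
  have ht := main_tendsto C a th ha hth
  rw [← hlim] at ht
  have hev1 := ht.eventually_le_const (show lim < lim + eps / 2 by linarith)
  have hev2 : ∀ᶠ T : ℝ in atTop, 2 ≤ T ^ th := (tendsto_rpow_atTop hth).eventually_ge_atTop 2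
  have hev3 : ∀ᶠ T : ℝ in atTop, 8 * a ≤ Real.log T :=
    Real.tendsto_log_atTop.eventually_ge_atTop _
  have hev4 : ∀ᶠ T : ℝ in atTop, 2 * C1 / eps ≤ T ^ η :=
    (tendsto_rpow_atTop hη).eventually_ge_atTop _
  obtain ⟨T2, hT2⟩ := eventually_atTop.1 (hev1.and (hev2.and (hev3.and hev4)))
  refine ⟨max T1 T2, fun T hT => ?_⟩
  have hTT1 : T1 ≤ T := (le_max_left _ _).trans hT
  have hT8 : 8 ≤ T := hT18.trans hTT1
  have hT0 : 0 < T := by linarith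
  obtain ⟨g1, g2, g3, g4⟩ := hT2 T ((le_max_right _ _).trans hT)
  obtain ⟨N, hN⟩ : ∃ N : ℕ, N = ⌊T ^ th⌋₊ := ⟨_, rfl⟩
  obtain ⟨δ, hδ⟩ : ∃ δ : ℝ, δ = a / Real.log T := ⟨_, rfl⟩
  rw [← hN, ← hδ] at g1
  have hlT : 0 < Real.log T := Real.log_pos (by linarith)
  have hδ0 : 0 < δ := by rw [hδ]; positivity
  have hδa : δ * Real.log T = a := by rw [hδ]; field_simp
  have hδ8 : δ ≤ 1 / 8 := by
    rw [hδ, div_le_iff₀ hlT]; linarith
  have hN2 : 2 ≤ N := by rw [hN]; exact Nat.le_floor (by exact_mod_cast g2)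
  have hNT : (N : ℝ) ≤ T ^ th := by rw [hN]; exact Nat.floor_le (by positivity)
  have hz : zr (1 - 2 * δ) ≤ 0 := by
    have h := zr_near (1 - 2 * δ) (by linarith) (by linarith)
    rw [show (1 - 2 * δ) - 1 = -(2 * δ) by ring] at h
    have h2 : 1 / -(2 * δ) ≤ -2 := by
      rw [div_neg]
      have : 2 ≤ 1 / (2 * δ) := by
        rw [le_div_iff₀ (by positivity)]; linarith
      linarith
    linarith
  have hS2 : 0 ≤ S2 (bb N δ) N δ := by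
    have h := S2_bb N δ hδ0 (by linarith) (by omega)
    have hG2 : 1 ≤ GG (1 - 2 * δ) N := GG_pos _ (by linarith) N (by omega)
    by_contra hcon
    push Not at hcon
    have : S2 (bb N δ) N δ * GG (1 - 2 * δ) N ≤ 0 :=
      mul_nonpos_of_nonpos_of_nonneg hcon.le (by linarith)
    linarith
  have hm := hmom (bb N δ) N δ T hTT1 (bb_abs N δ hδ0 (by omega)) hδ0 hδa.le (by omega) hNT hz hS2
  have hmain := main_le C N δ a T hN2 hδ0 hδ8 hC (by linarith) hδa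
    (hmsg (1 + 2 * δ) N (by linarith) (by omega))
    (hmsv (1 - 2 * δ) N (by linarith) (by linarith) (by omega))
  have herr : C1 * T ^ (1 - η) ≤ eps / 2 * T := by
    rw [Real.rpow_sub hT0, Real.rpow_one]
    have hTη : 0 < T ^ η := by positivity
    rw [← mul_div_assoc, div_le_iff₀ hTη]
    rw [div_le_iff₀ heps] at g4
    nlinarith
  refine ⟨N, fun n => ((bb N δ n : ℝ) : ℂ), by omega, ?_, ?_, ?_, ?_⟩
  · refine hNT.trans ?_
    calc T ^ th ≤ T ^ (1 : ℝ) := Real.rpow_le_rpow_of_exponent_le (by linarith) (by linarith)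
      _ = T := Real.rpow_one T
  · simp only
    rw [bb_one N δ hδ0 (by omega)]
    simp
  · intro n
    rw [Complex.norm_real, Real.norm_eq_abs]
    exact bb_abs N δ hδ0 (by omega) n
  · rw [← hδ]
    have e : (fun t : ℝ => ‖riemannZeta (((1 / 2 + δ : ℝ) : ℂ) + I * t) *
        ∑ n ∈ Icc 1 N, (fun n : ℕ => ((bb N δ n : ℝ) : ℂ)) n *
          (n : ℂ) ^ (-(((1 / 2 + δ : ℝ) : ℂ) + I * t))‖ ^ 2) =
        fun t : ℝ => zd δ t * ‖Mb (bb N δ) N δ t‖ ^ 2 := by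
      funext t
      rw [zd_Mb_eq]
    rw [e, ← hlim]
    calc _ ≤ T * (zr (1 + 2 * δ) * S1 (bb N δ) N δ + tq δ (2 * T) * zr (1 - 2 * δ) *
          S2 (bb N δ) N δ) + C1 * T ^ (1 - η) := hm
      _ ≤ T * (lim + eps / 2) + eps / 2 * T := by
          refine add_le_add ?_ herr
          exact mul_le_mul_of_nonneg_left (hmain.trans g1) hT0.le
      _ = T * (lim + eps) := by ring

end Pool.Agent.Zk5
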