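import Mathlib

set_option autoImplicit false

/-!
Slot B (helper5): diagonalisation of the quadratic forms of the mollifier.
-/

namespace Pool.Agent.Zk5

open Finset

/-- `∏ (p^s - 1)` -/
noncomputable def psi (s : ℝ) (d : ℕ) : ℝ := ∏ p ∈ d.primeFactors, ((p : ℝ) ^ s - 1)

open Classical in
/-- `μ²(d) ∏ (p^s - 1)⁻¹` -/
noncomputable def ww (s : ℝ) (d : ℕ) : ℝ :=
  if Squarefree d then ∏ p ∈ d.primeFactors, ((p : ℝ) ^ s - 1)⁻¹ else 0

theorem pf_pos (s : ℝ) (hs : 0 < s) (p : ℕ) (hp : p.Prime) : 0 < (p : ℝ) ^ s - 1 := by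
  have : (1 : ℝ) < p := by exact_mod_cast hp.one_lt
  have := Real.one_lt_rpow this hs
  linarith

theorem psi_pos (s : ℝ) (hs : 0 < s) (d : ℕ) : 0 < psi s d :=
  Finset.prod_pos fun p hp => pf_pos s hs p (Nat.prime_of_mem_primeFactors hp)

theorem ww_nonneg (s : ℝ) (hs : 0 < s) (d : ℕ) : 0 ≤ ww s d := by
  unfold ww
  split_ifs
  · exact Finset.prod_nonneg fun p hp =>
      (inv_pos.2 (pf_pos s hs p (Nat.prime_of_mem_primeFactors hp))).le
  · exact le_rfl

theorem ww_psi (s : ℝ) (hs : 0 < s) (d : ℕ) (hd : Squarefree d) : ww s d = (psi s d)⁻¹ := by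
  unfold ww psi
  rw [if_pos hd, Finset.prod_inv_distrib]

theorem ww_one (s : ℝ) : ww s 1 = 1 := by
  unfold ww
  rw [if_pos squarefree_one]
  simp

theorem ww_not (s : ℝ) (d : ℕ) (hd : ¬ Squarefree d) : ww s d = 0 := by
  unfold ww
  rw [if_neg hd]

theorem ww_mul (s : ℝ) (a b : ℕ) (h : Nat.Coprime a b) : ww s (a * b) = ww s a * ww s b := by
  unfold ww
  by_cases ha : Squarefree a
  · by_cases hb : Squarefree b
    · rw [if_pos ha, if_pos hb, if_pos ((Nat.squarefree_mul h).2 ⟨ha, hb⟩),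
        h.primeFactors_mul, Finset.prod_union h.disjoint_primeFactors]
    · rw [if_neg hb, if_neg (fun hh => hb ((Nat.squarefree_mul h).1 hh).2), mul_zero]
  · rw [if_neg ha, if_neg (fun hh => ha ((Nat.squarefree_mul h).1 hh).1), zero_mul]

/-- `g^s = ∑ ψ(d)` over the divisors of a squarefree `g` -/
theorem psi_sum (s : ℝ) (g : ℕ) (hg : Squarefree g) : ∑ d ∈ g.divisors, psi s d = (g : ℝ) ^ s := by
  obtain ⟨f, hf⟩ : ∃ f : ArithmeticFunction ℝ,
    f = ArithmeticFunction.prodPrimeFactors (fun p => (p : ℝ) ^ s - 1) := ⟨_, rfl⟩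
  have hm : f.IsMultiplicative := by
    rw [hf]; exact ArithmeticFunction.IsMultiplicative.prodPrimeFactors _
  have h1 := hm.prodPrimeFactors_one_add_of_squarefree hg
  have h2 : ∀ d ∈ g.divisors, f d = psi s d := by
    intro d hd
    rw [hf, ArithmeticFunction.prodPrimeFactors_apply (Nat.pos_of_mem_divisors hd).ne']
    rfl
  rw [Finset.sum_congr rfl h2] at h1
  rw [← h1]
  have h3 : ∀ p ∈ g.primeFactors, 1 + f p = (p : ℝ) ^ s := by
    intro p hp
    have hpp := Nat.prime_of_mem_primeFactors hp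
    rw [hf, ArithmeticFunction.prodPrimeFactors_apply hpp.ne_zero, hpp.primeFactors]
    simp
  rw [Finset.prod_congr rfl h3, Real.finsetProd_rpow _ _ (fun p _ => by positivity)]
  congr 1
  rw [← Nat.cast_prod, Nat.prod_primeFactors_of_squarefree hg]

/-- `∑ w(l)` over the divisors of a squarefree `h` -/
theorem ww_sum (s : ℝ) (hs : 0 < s) (h : ℕ) (hh : Squarefree h) :
    ∑ l ∈ h.divisors, ww s l = (h : ℝ) ^ s * ww s h := by
  obtain ⟨f, hf⟩ : ∃ f : ArithmeticFunction ℝ,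
    f = ArithmeticFunction.prodPrimeFactors (fun p => ((p : ℝ) ^ s - 1)⁻¹) := ⟨_, rfl⟩
  have hm : f.IsMultiplicative := by
    rw [hf]; exact ArithmeticFunction.IsMultiplicative.prodPrimeFactors _
  have h1 := hm.prodPrimeFactors_one_add_of_squarefree hh
  have h2 : ∀ d ∈ h.divisors, f d = ww s d := by
    intro d hd
    rw [hf, ArithmeticFunction.prodPrimeFactors_apply (Nat.pos_of_mem_divisors hd).ne']
    unfold ww
    rw [if_pos (hh.squarefree_of_dvd (Nat.dvd_of_mem_divisors hd))]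
  rw [Finset.sum_congr rfl h2] at h1
  rw [← h1]
  have h3 : ∀ p ∈ h.primeFactors, 1 + f p = (p : ℝ) ^ s * ((p : ℝ) ^ s - 1)⁻¹ := by
    intro p hp
    have hpp := Nat.prime_of_mem_primeFactors hp
    rw [hf, ArithmeticFunction.prodPrimeFactors_apply hpp.ne_zero, hpp.primeFactors]
    have := pf_pos s hs p hpp
    simp only [prod_singleton]
    field_simp
    ring
  rw [Finset.prod_congr rfl h3, Finset.prod_mul_distrib]
  congr 1
  · rw [Real.finsetProd_rpow _ _ (fun p _ => by positivity)]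
    congr 1
    rw [← Nat.cast_prod, Nat.prod_primeFactors_of_squarefree hh]
  · unfold ww
    rw [if_pos hh]

/-- diagonalisation -/
theorem form_eq (N : ℕ) (s : ℝ) (c : ℕ → ℝ) (hc : ∀ h, ¬ Squarefree h → c h = 0) :
    ∑ q ∈ Icc 1 N ×ˢ Icc 1 N, c q.1 * c q.2 * (Nat.gcd q.1 q.2 : ℝ) ^ s =
      ∑ d ∈ Icc 1 N, psi s d * (∑ h ∈ (Icc 1 N).filter (fun h => d ∣ h), c h) ^ 2 := by
  have h1 : ∀ d ∈ Icc 1 N, psi s d * (∑ h ∈ (Icc 1 N).filter (fun h => d ∣ h), c h) ^ 2 =
      ∑ q ∈ Icc 1 N ×ˢ Icc 1 N, (if d ∣ q.1 ∧ d ∣ q.2 then psi s d * (c q.1 * c q.2) else 0) := by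
    intro d _
    rw [pow_two, Finset.sum_filter, Finset.sum_mul_sum, Finset.mul_sum, Finset.sum_product]
    refine Finset.sum_congr rfl fun x _ => ?_
    rw [Finset.mul_sum]
    refine Finset.sum_congr rfl fun y _ => ?_
    simp only
    by_cases hx : d ∣ x
    · by_cases hy : d ∣ y
      · rw [if_pos hx, if_pos hy, if_pos ⟨hx, hy⟩]
      · rw [if_pos hx, if_neg hy, if_neg (fun h : d ∣ x ∧ d ∣ y => hy h.2)]
        ring
    · rw [if_neg hx, if_neg (fun h : d ∣ x ∧ d ∣ y => hx h.1)]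
      ring
  rw [Finset.sum_congr rfl h1, Finset.sum_comm]
  refine Finset.sum_congr rfl fun q hq => ?_
  rw [mem_product, mem_Icc, mem_Icc] at hq
  by_cases h0 : c q.1 * c q.2 = 0
  · rw [h0, zero_mul]
    symm
    apply Finset.sum_eq_zero
    intro d _
    split_ifs <;> simp
  · have hsq : Squarefree q.1 := by
      by_contra hcon
      apply h0
      rw [hc _ hcon, zero_mul]
    have hsg : Squarefree (Nat.gcd q.1 q.2) := hsq.squarefree_of_dvd (Nat.gcd_dvd_left _ _)
    rw [← psi_sum s _ hsg, Finset.mul_sum, ← Finset.sum_filter]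
    have hset : (Icc 1 N).filter (fun d => d ∣ q.1 ∧ d ∣ q.2) = (Nat.gcd q.1 q.2).divisors := by
      ext d
      rw [mem_filter, mem_Icc, Nat.mem_divisors, Nat.dvd_gcd_iff]
      constructor
      · rintro ⟨_, h3⟩
        exact ⟨h3, by
          have := Nat.gcd_pos_of_pos_left q.2 hq.1.1
          omega⟩
      · rintro ⟨h3, _⟩
        refine ⟨⟨?_, ?_⟩, h3⟩
        · exact Nat.pos_of_dvd_of_pos h3.1 hq.1.1
        · exact (Nat.le_of_dvd hq.1.1 h3.1).trans hq.1.2
    rw [hset]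
    refine Finset.sum_congr rfl fun d _ => ?_
    ring

/-- Cauchy-Schwarz lower bound for a form with `c 1 = 1` -/
theorem form_lower (N : ℕ) (s : ℝ) (hs : 0 < s) (hN : 1 ≤ N) (c : ℕ → ℝ)
    (hc : ∀ h, ¬ Squarefree h → c h = 0) (h1 : c 1 = 1) :
    1 ≤ (∑ q ∈ Icc 1 N ×ˢ Icc 1 N, c q.1 * c q.2 * (Nat.gcd q.1 q.2 : ℝ) ^ s) *
      ∑ d ∈ Icc 1 N, ww s d := by
  rw [form_eq N s c hc]
  obtain ⟨z, hz⟩ : ∃ z : ℕ → ℝ, z = fun d => ∑ h ∈ (Icc 1 N).filter (fun h => d ∣ h), c h :=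
    ⟨_, rfl⟩
  have hz' : ∀ d, ∑ h ∈ (Icc 1 N).filter (fun h => d ∣ h), c h = z d := by intro d; rw [hz]
  simp only [hz']
  have h2 : ∑ d ∈ Icc 1 N, (ArithmeticFunction.moebius d : ℝ) * z d = 1 := by
    rw [hz]
    simp only
    have e1 : ∀ d ∈ Icc 1 N, (ArithmeticFunction.moebius d : ℝ) *
        ∑ h ∈ (Icc 1 N).filter (fun h => d ∣ h), c h =
        ∑ h ∈ Icc 1 N, (if d ∣ h then (ArithmeticFunction.moebius d : ℝ) * c h else 0) := by
      intro d _
      rw [Finset.sum_filter, Finset.mul_sum]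
      refine Finset.sum_congr rfl fun h _ => ?_
      split_ifs <;> simp
    rw [Finset.sum_congr rfl e1, Finset.sum_comm]
    have e2 : ∀ h ∈ Icc 1 N, ∑ d ∈ Icc 1 N,
        (if d ∣ h then (ArithmeticFunction.moebius d : ℝ) * c h else 0) =
        if h = 1 then c h else 0 := by
      intro h hh
      rw [mem_Icc] at hh
      rw [← Finset.sum_filter]
      have hset : (Icc 1 N).filter (fun d => d ∣ h) = h.divisors := by
        ext d
        rw [mem_filter, mem_Icc, Nat.mem_divisors]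
        constructor
        · rintro ⟨_, h3⟩
          exact ⟨h3, by omega⟩
        · rintro ⟨h3, _⟩
          exact ⟨⟨Nat.pos_of_dvd_of_pos h3 hh.1, (Nat.le_of_dvd hh.1 h3).trans hh.2⟩, h3⟩
      rw [hset, ← Finset.sum_mul]
      have h4 : ∑ d ∈ h.divisors, (ArithmeticFunction.moebius d : ℝ) = if h = 1 then 1 else 0 := by
        have h5 := ArithmeticFunction.coe_mul_zeta_apply (f := ArithmeticFunction.moebius) (x := h)
        rw [ArithmeticFunction.moebius_mul_coe_zeta, ArithmeticFunction.one_apply] at h5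
        have h6 : ((∑ d ∈ h.divisors, ArithmeticFunction.moebius d : ℤ) : ℝ) =
            ((if h = 1 then 1 else 0 : ℤ) : ℝ) := by rw [← h5]
        push_cast at h6
        exact h6
      rw [h4]
      split_ifs <;> simp
    rw [Finset.sum_congr rfl e2, Finset.sum_ite_eq' , if_pos (mem_Icc.2 ⟨le_rfl, hN⟩), h1]
  -- Cauchy-Schwarz
  have h3 : (∑ d ∈ Icc 1 N, (ArithmeticFunction.moebius d : ℝ) * z d) ^ 2 ≤
      (∑ d ∈ Icc 1 N, psi s d * z d ^ 2) * ∑ d ∈ Icc 1 N, ww s d := by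
    have hcs := Finset.sum_mul_sq_le_sq_mul_sq (Icc 1 N)
      (fun d => √(psi s d) * z d) (fun d => (ArithmeticFunction.moebius d : ℝ) * (√(psi s d))⁻¹)
    have e1 : ∀ d ∈ Icc 1 N, √(psi s d) * z d * ((ArithmeticFunction.moebius d : ℝ) *
        (√(psi s d))⁻¹) = (ArithmeticFunction.moebius d : ℝ) * z d := by
      intro d _
      have := Real.sqrt_pos.2 (psi_pos s hs d)
      field_simp
    have e2 : ∀ d ∈ Icc 1 N, (√(psi s d) * z d) ^ 2 = psi s d * z d ^ 2 := by
      intro d _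
      rw [mul_pow, Real.sq_sqrt (psi_pos s hs d).le]
    have e3 : ∀ d ∈ Icc 1 N, ((ArithmeticFunction.moebius d : ℝ) * (√(psi s d))⁻¹) ^ 2 =
        ww s d := by
      intro d _
      rw [mul_pow, inv_pow, Real.sq_sqrt (psi_pos s hs d).le]
      by_cases hd : Squarefree d
      · rw [ww_psi s hs d hd]
        have h5 : (ArithmeticFunction.moebius d : ℝ) ^ 2 = 1 := by
          have h6 : ArithmeticFunction.moebius d ^ 2 = 1 :=
            ArithmeticFunction.moebius_sq_eq_one_of_squarefree hd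
          exact_mod_cast h6
        rw [h5, one_mul]
      · rw [ww_not s d hd, ArithmeticFunction.moebius_eq_zero_of_not_squarefree hd]
        simp
    rw [Finset.sum_congr rfl e1, Finset.sum_congr rfl e2, Finset.sum_congr rfl e3] at hcs
    exact hcs
  rw [h2, one_pow] at h3
  exact h3

end Pool.Agent.Zk5
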