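import Pool.Agent.Zk5.Qf

set_option autoImplicit false

namespace Pool.Agent.Zk5

open Finset

/-- `G = ∑_{d ≤ N} w(d)` -/
noncomputable def GG (s : ℝ) (N : ℕ) : ℝ := ∑ d ∈ Icc 1 N, ww s d

theorem GG_pos (s : ℝ) (hs : 0 < s) (N : ℕ) (hN : 1 ≤ N) : 1 ≤ GG s N := by
  unfold GG
  calc (1 : ℝ) = ww s 1 := (ww_one s).symm
    _ ≤ ∑ d ∈ Icc 1 N, ww s d :=
      Finset.single_le_sum (f := fun d => ww s d) (fun d _ => ww_nonneg s hs d)
        (mem_Icc.2 ⟨le_rfl, hN⟩)

/-- the coefficients `c_h = ∑_{h | d ≤ N} μ(d/h) y_d`, `y_d = μ(d) w(d) / G` -/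
noncomputable def cc (s : ℝ) (N h : ℕ) : ℝ :=
  ∑ d ∈ (Icc 1 N).filter (fun d => h ∣ d), (ArithmeticFunction.moebius (d / h) : ℝ) *
    ((ArithmeticFunction.moebius d : ℝ) * ww s d / GG s N)

theorem cc_zero (s : ℝ) (N h : ℕ) (hh : ¬ Squarefree h) : cc s N h = 0 := by
  unfold cc
  apply Finset.sum_eq_zero
  intro d hd
  rw [mem_filter] at hd
  have : ¬ Squarefree d := fun hc => hh (hc.squarefree_of_dvd hd.2)
  rw [ww_not s d this]
  simp

theorem cc_big (s : ℝ) (N h : ℕ) (hh : N < h) : cc s N h = 0 := by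
  unfold cc
  apply Finset.sum_eq_zero
  intro d hd
  rw [mem_filter, mem_Icc] at hd
  have := Nat.le_of_dvd hd.1.1 hd.2
  omega

theorem cc_one (s : ℝ) (hs : 0 < s) (N : ℕ) (hN : 1 ≤ N) : cc s N 1 = 1 := by
  unfold cc
  have hG := GG_pos s hs N hN
  have e1 : (Icc 1 N).filter (fun d => 1 ∣ d) = Icc 1 N :=
    Finset.filter_true_of_mem fun d _ => one_dvd d
  rw [e1]
  have e2 : ∀ d ∈ Icc 1 N, (ArithmeticFunction.moebius (d / 1) : ℝ) *
    ((ArithmeticFunction.moebius d : ℝ) * ww s d / GG s N) = ww s d / GG s N := by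
    intro d _
    rw [Nat.div_one]
    by_cases hd : Squarefree d
    · have h5 : (ArithmeticFunction.moebius d : ℝ) ^ 2 = 1 := by
        have h6 : ArithmeticFunction.moebius d ^ 2 = 1 :=
          ArithmeticFunction.moebius_sq_eq_one_of_squarefree hd
        exact_mod_cast h6
      calc _ = (ArithmeticFunction.moebius d : ℝ) ^ 2 * (ww s d / GG s N) := by ring
        _ = _ := by rw [h5, one_mul]
    · rw [ww_not s d hd]
      simp
  rw [Finset.sum_congr rfl e2, ← Finset.sum_div]
  unfold GG at hG ⊢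
  exact div_self (by linarith)

theorem moebius_sum (h : ℕ) :
    ∑ d ∈ h.divisors, (ArithmeticFunction.moebius d : ℝ) = if h = 1 then 1 else 0 := by
  have h5 := ArithmeticFunction.coe_mul_zeta_apply (f := ArithmeticFunction.moebius) (x := h)
  rw [ArithmeticFunction.moebius_mul_coe_zeta, ArithmeticFunction.one_apply] at h5
  have h6 : ((∑ d ∈ h.divisors, ArithmeticFunction.moebius d : ℤ) : ℝ) =
      ((if h = 1 then 1 else 0 : ℤ) : ℝ) := by rw [← h5]
  push_cast at h6
  exact h6

/-- inversion: `∑_{d | h} c_h = y_d` -/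
theorem cc_inv (s : ℝ) (N d : ℕ) (hd : 1 ≤ d) (hdN : d ≤ N) :
    ∑ h ∈ (Icc 1 N).filter (fun h => d ∣ h), cc s N h =
      (ArithmeticFunction.moebius d : ℝ) * ww s d / GG s N := by
  obtain ⟨y, hy⟩ : ∃ y : ℕ → ℝ, y = fun d => (ArithmeticFunction.moebius d : ℝ) * ww s d /
    GG s N := ⟨_, rfl⟩
  have hy' : ∀ d, (ArithmeticFunction.moebius d : ℝ) * ww s d / GG s N = y d := by
    intro d; rw [hy]
  unfold cc
  simp only [hy']
  have e1 : ∀ h ∈ (Icc 1 N).filter (fun h => d ∣ h),
      ∑ e ∈ (Icc 1 N).filter (fun e => h ∣ e), (ArithmeticFunction.moebius (e / h) : ℝ) * y e =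
      ∑ e ∈ Icc 1 N, (if h ∣ e then (ArithmeticFunction.moebius (e / h) : ℝ) * y e else 0) := by
    intro h _
    rw [Finset.sum_filter]
  rw [Finset.sum_congr rfl e1, Finset.sum_comm]
  have e2 : ∀ e ∈ Icc 1 N, ∑ h ∈ (Icc 1 N).filter (fun h => d ∣ h),
      (if h ∣ e then (ArithmeticFunction.moebius (e / h) : ℝ) * y e else 0) =
      if e = d then y e else 0 := by
    intro e he
    rw [mem_Icc] at he
    rw [← Finset.sum_filter, Finset.filter_filter, ← Finset.sum_mul]
    by_cases hde : d ∣ e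
    · obtain ⟨k, hk⟩ := hde
      have hk0 : 0 < k := by
        rcases Nat.eq_zero_or_pos k with h0 | h0
        · rw [h0] at hk; omega
        · exact h0
      have e3 : ∑ h ∈ (Icc 1 N).filter (fun h => d ∣ h ∧ h ∣ e),
          (ArithmeticFunction.moebius (e / h) : ℝ) =
          ∑ m ∈ k.divisors, (ArithmeticFunction.moebius m : ℝ) := by
        refine Finset.sum_nbij' (fun h => e / h) (fun m => e / m) ?_ ?_ ?_ ?_ ?_
        · intro h hh
          rw [mem_filter, mem_Icc] at hh
          rw [Nat.mem_divisors]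
          obtain ⟨⟨h1, h2⟩, ⟨j, hj⟩, h4⟩ := hh
          refine ⟨?_, hk0.ne'⟩
          obtain ⟨i, hi⟩ := h4
          have e4 : e / h = i := by rw [hi, Nat.mul_div_cancel_left i h1]
          rw [e4]
          have e5 : d * k = d * (j * i) := by rw [← hk, hi, hj]; ring
          have e6 := Nat.eq_of_mul_eq_mul_left hd e5
          rw [e6]
          exact Dvd.intro_left _ rfl
        · intro m hm
          rw [Nat.mem_divisors] at hm
          obtain ⟨⟨i, hi⟩, _⟩ := hm
          have hm0 : 0 < m := by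
            rcases Nat.eq_zero_or_pos m with h0 | h0
            · rw [h0] at hi; omega
            · exact h0
          have hi0 : 0 < i := by
            rcases Nat.eq_zero_or_pos i with h0 | h0
            · rw [h0] at hi; omega
            · exact h0
          have e4 : e / m = d * i := by
            rw [hk, hi, show d * (m * i) = m * (d * i) by ring, Nat.mul_div_cancel_left _ hm0]
          rw [e4, mem_filter, mem_Icc]
          have e5 : d * i ∣ e := ⟨m, by rw [hk, hi]; ring⟩
          refine ⟨⟨Nat.mul_pos hd hi0, (Nat.le_of_dvd he.1 e5).trans he.2⟩,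
            Dvd.intro _ rfl, e5⟩
        · intro h hh
          rw [mem_filter, mem_Icc] at hh
          exact Nat.div_div_self hh.2.2 (by omega)
        · intro m hm
          rw [Nat.mem_divisors] at hm
          have : m ∣ e := by
            rw [hk]
            exact hm.1.mul_left d
          exact Nat.div_div_self this (by omega)
        · intro h _
          rfl
      rw [e3, moebius_sum]
      by_cases hk1 : k = 1
      · rw [if_pos hk1, if_pos (by rw [hk, hk1, mul_one]), one_mul]
      · rw [if_neg hk1, zero_mul, if_neg]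
        intro hed
        apply hk1
        rw [hed] at hk
        have : d * k = d * 1 := by rw [← hk, mul_one]
        exact Nat.eq_of_mul_eq_mul_left hd this
    · have e3 : (Icc 1 N).filter (fun h => d ∣ h ∧ h ∣ e) = ∅ := by
        rw [Finset.filter_eq_empty_iff]
        rintro h _ ⟨h1, h2⟩
        exact hde (h1.trans h2)
      rw [e3, Finset.sum_empty, zero_mul, if_neg]
      rintro rfl
      exact hde dvd_rfl
  rw [Finset.sum_congr rfl e2, Finset.sum_ite_eq', if_pos (mem_Icc.2 ⟨hd, hdN⟩)]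

/-- the value of the first form -/
theorem cc_form (s : ℝ) (hs : 0 < s) (N : ℕ) (hN : 1 ≤ N) :
    ∑ q ∈ Icc 1 N ×ˢ Icc 1 N, cc s N q.1 * cc s N q.2 * (Nat.gcd q.1 q.2 : ℝ) ^ s =
      (GG s N)⁻¹ := by
  rw [form_eq N s (cc s N) (fun h hh => cc_zero s N h hh)]
  have hG := GG_pos s hs N hN
  have e1 : ∀ d ∈ Icc 1 N, psi s d * (∑ h ∈ (Icc 1 N).filter (fun h => d ∣ h), cc s N h) ^ 2 =
      ww s d * ((GG s N)⁻¹ * (GG s N)⁻¹) := by
    intro d hd
    rw [mem_Icc] at hd
    rw [cc_inv s N d hd.1 hd.2]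
    by_cases hsq : Squarefree d
    · have h5 : (ArithmeticFunction.moebius d : ℝ) ^ 2 = 1 := by
        have h6 : ArithmeticFunction.moebius d ^ 2 = 1 :=
          ArithmeticFunction.moebius_sq_eq_one_of_squarefree hsq
        exact_mod_cast h6
      have hp := psi_pos s hs d
      rw [ww_psi s hs d hsq]
      calc _ = (ArithmeticFunction.moebius d : ℝ) ^ 2 * (psi s d * (psi s d)⁻¹) * (psi s d)⁻¹ *
            ((GG s N)⁻¹ * (GG s N)⁻¹) := by ring
        _ = _ := by rw [h5, mul_inv_cancel₀ hp.ne']; ring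
    · rw [ww_not s d hsq]
      simp
  rw [Finset.sum_congr rfl e1, ← Finset.sum_mul]
  have e2 : ∑ d ∈ Icc 1 N, ww s d = GG s N := rfl
  rw [e2, ← mul_assoc, mul_inv_cancel₀ (by linarith), one_mul]

/-- `|c_h| h^s ≤ 1` -/
theorem cc_abs (s : ℝ) (hs : 0 < s) (N h : ℕ) (hh : 1 ≤ h) (hN : 1 ≤ N) :
    |cc s N h| * (h : ℝ) ^ s ≤ 1 := by
  by_cases hsq : Squarefree h
  swap
  · rw [cc_zero s N h hsq]
    simp
  have hG := GG_pos s hs N hN
  have hhr : (0 : ℝ) < h := by exact_mod_cast hh
  have hhs : 0 < (h : ℝ) ^ s := by positivity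
  obtain ⟨M, hM⟩ : ∃ M : Finset ℕ, M = (Icc 1 N).filter (fun m => h * m ≤ N ∧ Nat.Coprime h m) :=
    ⟨_, rfl⟩
  obtain ⟨W, hW⟩ : ∃ W : ℝ, W = ∑ m ∈ M, ww s m := ⟨_, rfl⟩
  have hW0 : 0 ≤ W := by rw [hW]; exact Finset.sum_nonneg fun m _ => ww_nonneg s hs m
  have hwh := ww_nonneg s hs h
  -- upper bound for `|c_h|`
  have h1 : |cc s N h| ≤ ww s h * W / GG s N := by
    unfold cc
    have e1 : ∑ d ∈ (Icc 1 N).filter (fun d => h ∣ d), (ArithmeticFunction.moebius (d / h) : ℝ) *
        ((ArithmeticFunction.moebius d : ℝ) * ww s d / GG s N) =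
        ∑ m ∈ (Icc 1 N).filter (fun m => h * m ≤ N), (ArithmeticFunction.moebius m : ℝ) *
        ((ArithmeticFunction.moebius (h * m) : ℝ) * ww s (h * m) / GG s N) := by
      refine Finset.sum_nbij' (fun d => d / h) (fun m => h * m) ?_ ?_ ?_ ?_ ?_
      · intro d hd
        rw [mem_filter, mem_Icc] at hd
        obtain ⟨⟨a1, a2⟩, m, hm⟩ := hd
        have hm0 : 0 < m := by
          rcases Nat.eq_zero_or_pos m with h0 | h0
          · rw [h0] at hm; omega
          · exact h0
        have e2 : d / h = m := by rw [hm, Nat.mul_div_cancel_left m hh]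
        rw [e2, mem_filter, mem_Icc]
        have hle : h * m ≤ N := by rw [← hm]; exact a2
        exact ⟨⟨hm0, (Nat.le_mul_of_pos_left m hh).trans hle⟩, hle⟩
      · intro m hm
        rw [mem_filter, mem_Icc] at hm
        rw [mem_filter, mem_Icc]
        exact ⟨⟨Nat.mul_pos hh hm.1.1, hm.2⟩, Dvd.intro _ rfl⟩
      · intro d hd
        rw [mem_filter] at hd
        exact Nat.mul_div_cancel' hd.2
      · intro m _
        exact Nat.mul_div_cancel_left m hh
      · intro d hd
        rw [mem_filter] at hd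
        rw [Nat.mul_div_cancel' hd.2]
    rw [e1]
    have e3 : ∀ m ∈ (Icc 1 N).filter (fun m => h * m ≤ N),
        |(ArithmeticFunction.moebius m : ℝ) *
        ((ArithmeticFunction.moebius (h * m) : ℝ) * ww s (h * m) / GG s N)| ≤
        if Nat.Coprime h m then ww s h * ww s m / GG s N else 0 := by
      intro m _
      have hm1 : ∀ n : ℕ, |(ArithmeticFunction.moebius n : ℝ)| ≤ 1 := by
        intro n
        have := ArithmeticFunction.abs_moebius_le_one (n := n)
        exact_mod_cast this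
      by_cases hc : Nat.Coprime h m
      · rw [if_pos hc, ww_mul s h m hc]
        have hwm := ww_nonneg s hs m
        rw [abs_mul, abs_div, abs_mul, abs_of_nonneg (mul_nonneg hwh hwm),
          abs_of_pos (by linarith : 0 < GG s N)]
        calc |(ArithmeticFunction.moebius m : ℝ)| * (|(ArithmeticFunction.moebius (h * m) : ℝ)| *
              (ww s h * ww s m) / GG s N) ≤ 1 * (1 * (ww s h * ww s m) / GG s N) := by
              gcongr
              · exact hm1 m
              · exact hm1 _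
          _ = _ := by ring
      · rw [if_neg hc]
        have : ¬ Squarefree (h * m) := by
          intro hh2
          exact hc (Nat.coprime_of_squarefree_mul hh2)
        rw [ww_not s _ this]
        simp
    refine (Finset.abs_sum_le_sum_abs _ _).trans ((Finset.sum_le_sum e3).trans ?_)
    rw [← Finset.sum_filter, Finset.filter_filter, hW, hM, Finset.mul_sum, Finset.sum_div]
  -- lower bound for `G`
  have h2 : (h : ℝ) ^ s * ww s h * W ≤ GG s N := by
    rw [← ww_sum s hs h hsq, hW, Finset.sum_mul_sum, ← Finset.sum_product']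
    have e1 : ∀ x ∈ h.divisors ×ˢ M, ww s x.1 * ww s x.2 = ww s (x.1 * x.2) := by
      intro x hx
      rw [mem_product, Nat.mem_divisors, hM, mem_filter] at hx
      have hc : Nat.Coprime x.1 x.2 := Nat.Coprime.coprime_dvd_left hx.1.1 hx.2.2.2
      rw [ww_mul s _ _ hc]
    rw [Finset.sum_congr rfl e1]
    have hinj : Set.InjOn (fun x : ℕ × ℕ => x.1 * x.2) (h.divisors ×ˢ M : Finset (ℕ × ℕ)) := by
      intro x hx y hy hxy
      rw [mem_coe, mem_product, Nat.mem_divisors, hM, mem_filter, mem_Icc] at hx hy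
      simp only at hxy
      have g1 : Nat.gcd (x.1 * x.2) h = x.1 := by
        have hc : Nat.Coprime x.2 h := hx.2.2.2.symm
        rw [Nat.Coprime.gcd_mul_right_cancel _ hc]
        exact Nat.gcd_eq_left hx.1.1
      have g2 : Nat.gcd (y.1 * y.2) h = y.1 := by
        have hc : Nat.Coprime y.2 h := hy.2.2.2.symm
        rw [Nat.Coprime.gcd_mul_right_cancel _ hc]
        exact Nat.gcd_eq_left hy.1.1
      have g3 : x.1 = y.1 := by rw [← g1, ← g2, hxy]
      have hx1 : 0 < x.1 := Nat.pos_of_dvd_of_pos hx.1.1 hh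
      rw [← g3] at hxy
      have g4 := Nat.eq_of_mul_eq_mul_left hx1 hxy
      ext
      · exact g3
      · exact g4
    rw [← Finset.sum_image (f := fun n => ww s n) hinj]
    unfold GG
    refine Finset.sum_le_sum_of_subset_of_nonneg ?_ fun n _ _ => ww_nonneg s hs n
    intro n hn
    rw [mem_image] at hn
    obtain ⟨x, hx, rfl⟩ := hn
    rw [mem_product, Nat.mem_divisors, hM, mem_filter, mem_Icc] at hx
    rw [mem_Icc]
    have hx1 : 0 < x.1 := Nat.pos_of_dvd_of_pos hx.1.1 hh
    refine ⟨Nat.mul_pos hx1 hx.2.1.1, ?_⟩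
    calc x.1 * x.2 ≤ h * x.2 := Nat.mul_le_mul_right _ (Nat.le_of_dvd hh hx.1.1)
      _ ≤ N := hx.2.2.1
  calc |cc s N h| * (h : ℝ) ^ s ≤ (ww s h * W / GG s N) * (h : ℝ) ^ s := by gcongr
    _ = ((h : ℝ) ^ s * ww s h * W) / GG s N := by ring
    _ ≤ 1 := by
        rw [div_le_one (by linarith)]
        exact h2

end Pool.Agent.Zk5
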